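import Mathlib

/-!
# The roots of a polynomial as analytic functions of the coefficients
-/

set_option autoImplicit false
set_option linter.unusedSectionVars false

open Polynomial Filter Topology

namespace Pool.Agent.X255.NP

variable {g : ℕ}

/-- the monic polynomial with the lower coefficients `a` -/
noncomputable def mp (a : Fin g → ℂ) : ℂ[X] := X ^ g + ∑ i : Fin g, C (a i) * X ^ (i : ℕ)

/-- the lower coefficients of the monic polynomial with the roots `z` -/
noncomputable def co (z : Fin g → ℂ) : Fin g → ℂ := fun i => (∏ j, (X - C (z j))).coeff i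

theorem prod_monic (z : Fin g → ℂ) : (∏ j, (X - C (z j))).Monic := monic_prod_of_monic _ _ fun j _ => monic_X_sub_C _

theorem prod_degree (z : Fin g → ℂ) : (∏ j, (X - C (z j))).natDegree = g := by
  rw [natDegree_prod_of_monic _ _ fun j _ => monic_X_sub_C _]
  simp

theorem mp_degree_lt (a : Fin g → ℂ) : (∑ i : Fin g, C (a i) * X ^ (i : ℕ)).degree < ((g : ℕ) : WithBot ℕ) := by
  refine lt_of_le_of_lt (degree_sum_le _ _) ?_
  rcases Nat.eq_zero_or_pos g with h | h
  · subst h
    simp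
  · refine (Finset.sup_lt_iff (WithBot.bot_lt_coe g)).2 fun i _ => ?_
    refine lt_of_le_of_lt (degree_C_mul_X_pow_le _ _) ?_
    exact WithBot.coe_lt_coe.2 i.2

theorem mp_monic (a : Fin g → ℂ) : (mp a).Monic := monic_X_pow_add (mp_degree_lt a)

theorem mp_degree (a : Fin g → ℂ) : (mp a).natDegree = g := by
  have h1 : (mp a).degree = (g : ℕ) := by
    rw [mp, degree_add_eq_left_of_degree_lt, degree_X_pow]
    rw [degree_X_pow]
    exact mp_degree_lt a
  exact natDegree_eq_of_degree_eq_some h1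

theorem mp_coeff (a : Fin g → ℂ) (i : Fin g) : (mp a).coeff i = a i := by
  rw [mp, coeff_add, coeff_X_pow, if_neg (by omega), zero_add, finsetSum_coeff, Finset.sum_eq_single i]
  · simp
  · intro j _ hj
    rw [coeff_C_mul, coeff_X_pow, if_neg, mul_zero]
    intro h
    exact hj (Fin.ext h.symm)
  · intro h
    exact absurd (Finset.mem_univ _) h

theorem mp_co (z : Fin g → ℂ) : mp (co z) = ∏ j, (X - C (z j)) := by
  ext n
  rcases lt_trichotomy n g with h | h | h
  · have := mp_coeff (co z) ⟨n, h⟩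
    exact this
  · subst h
    have h1 := (mp_monic (co z)).coeff_natDegree
    have h2 := (prod_monic z).coeff_natDegree
    rw [mp_degree] at h1
    rw [prod_degree] at h2
    rw [h1, h2]
  · rw [coeff_eq_zero_of_natDegree_lt (by rw [mp_degree]; exact h),
      coeff_eq_zero_of_natDegree_lt (by rw [prod_degree]; exact h)]

theorem co_of_roots (a z : Fin g → ℂ) (hz : Function.Injective z) (h : ∀ i, (mp a).eval (z i) = 0) : co z = a := by
  have h1 : mp a = ∏ j, (X - C (z j)) := by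
    rw [← sub_eq_zero]
    refine eq_zero_of_degree_lt_of_eval_index_eq_zero (v := z) (s := Finset.univ) hz.injOn ?_ ?_
    · rw [Finset.card_univ, Fintype.card_fin]
      have h2 : (mp a).degree = (∏ j, (X - C (z j))).degree := by
        rw [degree_eq_natDegree (mp_monic a).ne_zero, degree_eq_natDegree (prod_monic z).ne_zero, mp_degree,
          prod_degree]
      have h3 := degree_sub_lt h2 (mp_monic a).ne_zero (by
        rw [(mp_monic a).leadingCoeff, (prod_monic z).leadingCoeff])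
      rw [degree_eq_natDegree (mp_monic a).ne_zero, mp_degree] at h3
      exact h3
    · intro i _
      rw [eval_sub, h i, eval_prod, Finset.prod_eq_zero (Finset.mem_univ i) (by simp), sub_zero]
  funext i
  rw [co, ← h1, mp_coeff]

theorem mp_root (z : Fin g → ℂ) (x : ℂ) (h : (mp (co z)).eval x = 0) : ∃ j, x = z j := by
  rw [mp_co, eval_prod, Finset.prod_eq_zero_iff] at h
  obtain ⟨j, _, hj⟩ := h
  refine ⟨j, ?_⟩
  rw [eval_sub, eval_X, eval_C, sub_eq_zero] at hj
  exact hj

/-- the coefficients as polynomials in the roots -/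
noncomputable def coP (i : Fin g) : MvPolynomial (Fin g) ℂ :=
  (∏ j : Fin g, (X - C (MvPolynomial.X (R := ℂ) j))).coeff i

theorem coP_eval (z : Fin g → ℂ) (i : Fin g) : MvPolynomial.eval z (coP i) = co z i := by
  have h1 : (∏ j, (X - C (z j))) = (∏ j : Fin g, (X - C (MvPolynomial.X (R := ℂ) j))).map (MvPolynomial.eval z) := by
    rw [Polynomial.map_prod]
    refine Finset.prod_congr rfl fun r _ => ?_
    rw [Polynomial.map_sub, Polynomial.map_X, Polynomial.map_C, MvPolynomial.eval_X]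
  rw [co, h1, coeff_map]
  rfl

theorem an_evalX {X : Type} [Fintype X] (p : MvPolynomial X ℂ) (U : Set (X → ℂ)) :
    AnalyticOnNhd ℂ (fun x => MvPolynomial.eval x p) U := by
  induction p using MvPolynomial.induction_on with
  | C a =>
    simp only [MvPolynomial.eval_C]
    exact analyticOnNhd_const
  | add p q hp hq =>
    simp only [map_add]
    exact hp.add hq
  | mul_X p i hp =>
    simp only [map_mul, MvPolynomial.eval_X]
    exact hp.mul ((ContinuousLinearMap.proj (R := ℂ) (φ := fun _ : X => ℂ) i).analyticOnNhd U)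

theorem co_an (i : Fin g) (U : Set (Fin g → ℂ)) : AnalyticOnNhd ℂ (fun z => co z i) U := by
  have h := an_evalX (coP i) U
  simp only [coP_eval] at h
  exact h

theorem co_cont : Continuous (co (g := g)) := by
  refine continuous_pi fun i => ?_
  have h := MvPolynomial.continuous_eval (coP i)
  simp only [coP_eval] at h
  exact h

/-- the polynomial as a function of the coefficients and the variable -/
noncomputable def FF (u : (Fin g → ℂ) × ℂ) : ℂ := (mp u.1).eval u.2

theorem FF_eq (u : (Fin g → ℂ) × ℂ) : FF u = u.2 ^ g + ∑ i : Fin g, u.1 i * u.2 ^ (i : ℕ) := by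
  simp [FF, mp, eval_finsetSum]

theorem FF_contDiff : ContDiff ℂ ⊤ (FF (g := g)) := by
  have h : (FF (g := g)) = fun u => u.2 ^ g + ∑ i : Fin g, u.1 i * u.2 ^ (i : ℕ) := funext FF_eq
  rw [h]
  fun_prop

/-- analytic root functions -/
theorem exists_root (a0 : Fin g → ℂ) (x0 : ℂ) (h0 : (mp a0).eval x0 = 0) (h1 : (mp a0).derivative.eval x0 ≠ 0) :
    ∃ ψ : (Fin g → ℂ) → ℂ, AnalyticAt ℂ ψ a0 ∧ ψ a0 = x0 ∧ ∀ᶠ a in 𝓝 a0, (mp a).eval (ψ a) = 0 := by
  have cdf : ContDiffAt ℂ ⊤ (FF (g := g)) (a0, x0) := FF_contDiff.contDiffAt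
  have hd : HasDerivAt (fun x => FF (a0, x)) ((mp a0).derivative.eval x0) x0 := (mp a0).hasDerivAt x0
  have hfd : HasFDerivAt (FF (g := g)) (fderiv ℂ FF (a0, x0)) (a0, x0) :=
    (cdf.differentiableAt (by simp)).hasFDerivAt
  have hinr : HasFDerivAt (fun x : ℂ => (a0, x)) (ContinuousLinearMap.inr ℂ (Fin g → ℂ) ℂ) x0 :=
    hasFDerivAt_prodMk_right a0 x0
  have hcomp := hfd.comp x0 hinr
  have hval : (fderiv ℂ (FF (g := g)) (a0, x0) ∘L .inr ℂ (Fin g → ℂ) ℂ) 1 = (mp a0).derivative.eval x0 := by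
    have h2 : HasDerivAt (fun x => FF (a0, x)) ((fderiv ℂ (FF (g := g)) (a0, x0) ∘L .inr ℂ (Fin g → ℂ) ℂ) 1) x0 :=
      hcomp.hasDerivAt
    exact h2.unique hd
  have if₂ : (fderiv ℂ (FF (g := g)) (a0, x0) ∘L .inr ℂ (Fin g → ℂ) ℂ).IsInvertible := by
    set L := (fderiv ℂ (FF (g := g)) (a0, x0) ∘L .inr ℂ (Fin g → ℂ) ℂ) with hL
    have hL1 : L 1 ≠ 0 := by rw [hval]; exact h1
    refine ⟨ContinuousLinearEquiv.unitsEquivAut ℂ (Units.mk0 (L 1) hL1), ?_⟩
    ext
    simp
  refine ⟨cdf.implicitFunction (by simp) if₂, ?_, ?_, ?_⟩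
  · exact (cdf.contDiffAt_implicitFunction (by simp) if₂).analyticAt
  · exact cdf.implicitFunction_apply_self (by simp) if₂
  · have h2 := cdf.eventually_apply_implicitFunction (by simp) if₂
    filter_upwards [h2] with a ha
    have h3 : FF (a0, x0) = 0 := h0
    rw [h3] at ha
    exact ha

/-- **charts for the roots** -/
theorem exists_chart (U : Set (Fin g → ℂ)) (hUo : IsOpen U) (z0 : Fin g → ℂ) (hz0 : z0 ∈ U)
    (hinj : Function.Injective z0) : ∃ (W N : Set (Fin g → ℂ)) (ζ : (Fin g → ℂ) → Fin g → ℂ),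
      IsOpen W ∧ IsPreconnected W ∧ W.Nonempty ∧ IsOpen N ∧ z0 ∈ N ∧ N ⊆ U ∧
      (∀ i, AnalyticOnNhd ℂ (fun a => ζ a i) W) ∧ (∀ a ∈ W, ζ a ∈ N ∧ co (ζ a) = a) ∧
      ∀ z ∈ N, co z ∈ W ∧ ζ (co z) = z ∧ Function.Injective z := by
  classical
  set a0 := co z0 with ha0
  have hsep : ∃ r : ℝ, 0 < r ∧ Metric.ball z0 r ⊆ U ∧ ∀ i j, i ≠ j → 2 * r ≤ ‖z0 i - z0 j‖ := by
    obtain ⟨r1, hr1, hb⟩ := Metric.isOpen_iff.1 hUo z0 hz0
    have h2 : ∀ p : Fin g × Fin g, ∃ r : ℝ, 0 < r ∧ (p.1 ≠ p.2 → 2 * r ≤ ‖z0 p.1 - z0 p.2‖) := by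
      intro p
      by_cases hp : p.1 = p.2
      · exact ⟨1, one_pos, fun h => absurd hp h⟩
      · have h3 : 0 < ‖z0 p.1 - z0 p.2‖ := by
          rw [norm_pos_iff, sub_ne_zero]
          exact fun h => hp (hinj h)
        exact ⟨‖z0 p.1 - z0 p.2‖ / 2, by positivity, fun _ => by linarith⟩
    choose r2 hr2 hr2' using h2
    rcases isEmpty_or_nonempty (Fin g × Fin g) with hem | hnon
    · exact ⟨r1, hr1, hb, fun i j _ => (hem.false (i, j)).elim⟩
    · obtain ⟨p0, hp0⟩ := Finite.exists_min r2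
      refine ⟨min r1 (r2 p0), lt_min hr1 (hr2 p0), (Metric.ball_subset_ball (min_le_left _ _)).trans hb, ?_⟩
      intro i j hij
      have h3 := hr2' (i, j) hij
      have h4 := hp0 (i, j)
      have h5 : min r1 (r2 p0) ≤ r2 p0 := min_le_right _ _
      simp only at h3
      linarith
  obtain ⟨r, hr, hrU, hrs⟩ := hsep
  have hroot0 : ∀ i, (mp a0).eval (z0 i) = 0 := by
    intro i
    rw [ha0, mp_co, eval_prod, Finset.prod_eq_zero (Finset.mem_univ i) (by simp)]
  have hder0 : ∀ i, (mp a0).derivative.eval (z0 i) ≠ 0 := by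
    intro i
    rw [ha0, mp_co, derivative_prod_finset, eval_finsetSum]
    rw [Finset.sum_eq_single i]
    · simp only [derivative_sub, derivative_X, derivative_C, sub_zero, mul_one, eval_prod, eval_sub, eval_X, eval_C]
      refine Finset.prod_ne_zero_iff.2 fun j hj => ?_
      rw [sub_ne_zero]
      intro h
      exact (Finset.mem_erase.1 hj).1 (hinj h).symm
    · intro j _ hj
      rw [eval_mul, eval_prod, Finset.prod_eq_zero (Finset.mem_erase.2 ⟨Ne.symm hj, Finset.mem_univ i⟩) (by simp),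
        zero_mul]
    · intro h
      exact absurd (Finset.mem_univ _) h
  choose ψ hψ1 hψ2 hψ3 using fun i => exists_root a0 (z0 i) (hroot0 i) (hder0 i)
  have hev : ∀ᶠ a in 𝓝 a0, ∀ i, AnalyticAt ℂ (ψ i) a ∧ (mp a).eval (ψ i a) = 0 ∧ ‖ψ i a - z0 i‖ < r := by
    rw [eventually_all]
    intro i
    have h1 : ∀ᶠ a in 𝓝 a0, ‖ψ i a - z0 i‖ < r := by
      have h2 : Tendsto (fun a => ‖ψ i a - z0 i‖) (𝓝 a0) (𝓝 ‖ψ i a0 - z0 i‖) :=
        ((hψ1 i).continuousAt.sub continuousAt_const).norm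
      rw [hψ2, sub_self, norm_zero] at h2
      exact h2.eventually (gt_mem_nhds hr)
    exact (hψ1 i).eventually_analyticAt.and ((hψ3 i).and h1)
  obtain ⟨ρ, hρ, hρ'⟩ := Metric.eventually_nhds_iff_ball.1 hev
  set W := Metric.ball a0 ρ with hW
  set N := Metric.ball z0 r ∩ co ⁻¹' W with hN
  set ζ : (Fin g → ℂ) → Fin g → ℂ := fun a i => ψ i a with hζ
  have hball : ∀ z : Fin g → ℂ, z ∈ Metric.ball z0 r ↔ ∀ i, ‖z i - z0 i‖ < r := by
    intro z
    rw [Metric.mem_ball, dist_pi_lt_iff hr]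
    simp only [dist_eq_norm]
  have hinjN : ∀ z ∈ Metric.ball z0 r, Function.Injective z := by
    intro z hz i j hij
    by_contra hne
    have h1 := hrs i j hne
    have h2 := (hball z).1 hz i
    have h3 := (hball z).1 hz j
    have h4 : ‖z0 i - z0 j‖ ≤ ‖z i - z0 i‖ + ‖z j - z0 j‖ := by
      have h5 : z0 i - z0 j = (z j - z0 j) - (z i - z0 i) := by rw [hij]; ring
      rw [h5]
      exact (norm_sub_le _ _).trans (le_of_eq (add_comm _ _))
    linarith
  have hζW : ∀ a ∈ W, ζ a ∈ Metric.ball z0 r := by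
    intro a ha
    rw [hball]
    exact fun i => (hρ' a ha i).2.2
  have hcoζ : ∀ a ∈ W, co (ζ a) = a := by
    intro a ha
    exact co_of_roots a (ζ a) (hinjN _ (hζW a ha)) fun i => (hρ' a ha i).2.1
  have hz0N : z0 ∈ N := ⟨Metric.mem_ball_self hr, Metric.mem_ball_self hρ⟩
  refine ⟨W, N, ζ, Metric.isOpen_ball, (convex_ball _ _).isPreconnected, ⟨a0, Metric.mem_ball_self hρ⟩,
    Metric.isOpen_ball.inter (Metric.isOpen_ball.preimage co_cont), hz0N, fun z hz => hrU hz.1,
    fun i a ha => (hρ' a ha i).1, ?_, ?_⟩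
  · intro a ha
    refine ⟨⟨hζW a ha, ?_⟩, hcoζ a ha⟩
    rw [Set.mem_preimage, hcoζ a ha]
    exact ha
  · rintro z ⟨hz1, hz2⟩
    refine ⟨hz2, ?_, hinjN z hz1⟩
    funext i
    obtain ⟨j, hj⟩ := mp_root z (ψ i (co z)) (hρ' _ hz2 i).2.1
    have h1 := (hρ' _ hz2 i).2.2
    rw [hj] at h1
    have h2 := (hball z).1 hz1 j
    by_cases hij : i = j
    · subst hij
      exact hj
    · exfalso
      have h3 := hrs i j hij
      have h4 : ‖z0 i - z0 j‖ ≤ ‖z j - z0 i‖ + ‖z j - z0 j‖ := by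
        have h5 : z0 i - z0 j = (z j - z0 j) - (z j - z0 i) := by ring
        rw [h5]
        exact (norm_sub_le _ _).trans (le_of_eq (add_comm _ _))
      linarith

end Pool.Agent.X255.NP
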