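import Pool.Agent.X255.NP.Rat
import Pool.Agent.X255.NP.Root
import Pool.Agent.Y890.MV.Ana
import Pool.Agent.Y890.SP.Ana

/-!
# Products of regular families of functions of one variable are regular
-/

set_option autoImplicit false
set_option linter.unusedSectionVars false

open Polynomial Filter Topology

namespace Pool.Agent.X255.NP

open Pool.Agent.Y890.MV
open Pool.Agent.Y890.SP (Regular evF)

theorem natDegree_aeval_le {X : Type} [Fintype X] (u : X → ℂ[X]) (hu : ∀ j, (u j).natDegree ≤ 1)
    (p : MvPolynomial X ℂ) : (MvPolynomial.aeval u p).natDegree ≤ p.totalDegree := by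
  rw [MvPolynomial.aeval_def, MvPolynomial.eval₂_eq']
  refine natDegree_sum_le_of_forall_le _ _ fun m hm => ?_
  refine (natDegree_C_mul_le _ _).trans ?_
  refine (natDegree_prod_le _ _).trans ?_
  have h1 : ∑ j, m j ≤ p.totalDegree := by
    have h2 := MvPolynomial.le_totalDegree hm
    rwa [Finsupp.sum_fintype _ _ (fun _ => rfl)] at h2
  refine (Finset.sum_le_sum fun j _ => ?_).trans h1
  refine (natDegree_pow_le).trans ?_
  calc m j * (u j).natDegree ≤ m j * 1 := Nat.mul_le_mul_left _ (hu j)
    _ = m j := mul_one _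

/-- the domain of a product -/
def UPi {g : ℕ} (V : Fin g → Set ℂ) : Set (Fin g → ℂ) := {z | ∀ i, z i ∈ V i}

/-- **Products of regular families are regular.** -/
theorem regM_prod {g : ℕ} {σ : Type} (V : Fin g → Set ℂ) (hVc : ∀ i, IsPreconnected (V i))
    (f : Fin g → σ → ℂ → ℂ) (hf : ∀ i v, AnalyticOnNhd ℂ (f i v) (V i)) (hreg : ∀ i, Regular (V i) (f i)) :
    RegularM (UPi V) (fun (q : Fin g × σ) z => f q.1 q.2 (z q.1)) := by
  classical
  intro W h P Q R hWo hWn hWU hh hR hQ hPQ hRh
  set F : Fin g × σ → (Fin g → ℂ) → ℂ := fun q z => f q.1 q.2 (z q.1) with hF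
  have hFan : ∀ q, AnalyticOnNhd ℂ (F q) (UPi V) := by
    intro q z hz
    exact AnalyticAt.comp (g := f q.1 q.2) (f := fun z : Fin g → ℂ => z q.1) (hf q.1 q.2 _ (hz q.1))
      ((ContinuousLinearMap.proj (R := ℂ) (φ := fun _ : Fin g => ℂ) q.1).analyticAt z)
  have hUc : IsPreconnected (UPi V) := by
    have h1 : UPi V = Set.univ.pi V := by
      ext z
      simp [UPi]
    rw [h1]
    exact isPreconnected_univ_pi hVc
  set c := R.leadingCoeff with hc
  have hc0 : c ≠ 0 := leadingCoeff_ne_zero.2 hR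
  obtain ⟨z0, hz0, hcz0⟩ : ∃ z0 ∈ W, MvPolynomial.eval z0 c ≠ 0 := by
    by_contra hcon
    push Not at hcon
    exact hc0 (poly_zero hWo hWn c hcon)
  have hWc : IsOpen (W ∩ {z | MvPolynomial.eval z c ≠ 0}) :=
    hWo.inter (isOpen_ne_fun (MvPolynomial.continuous_eval c) continuous_const)
  obtain ⟨r, hr, hball⟩ := Metric.isOpen_iff.1 hWc z0 ⟨hz0, hcz0⟩
  let D : Fin g → Set ℂ := fun i => Metric.ball (z0 i) r
  have hDo : ∀ i, IsOpen (D i) := fun i => Metric.isOpen_ball
  have hDn : ∀ i, (D i).Nonempty := fun i => ⟨z0 i, Metric.mem_ball_self hr⟩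
  have hDB : ∀ z : Fin g → ℂ, (∀ i, z i ∈ D i) → z ∈ Metric.ball z0 r := by
    intro z hz
    rw [Metric.mem_ball, dist_pi_lt_iff hr]
    exact fun i => hz i
  have hDW : ∀ z : Fin g → ℂ, (∀ i, z i ∈ D i) → z ∈ W := fun z hz => (hball (hDB z hz)).1
  have hDc : ∀ z : Fin g → ℂ, (∀ i, z i ∈ D i) → MvPolynomial.eval z c ≠ 0 := fun z hz => (hball (hDB z hz)).2
  set N : ℕ := ∑ k ∈ R.support, (R.coeff k).totalDegree with hN
  have hN' : ∀ k, (R.coeff k).totalDegree ≤ N := by
    intro k
    by_cases hk : k ∈ R.support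
    · exact Finset.single_le_sum (f := fun k => (R.coeff k).totalDegree) (fun _ _ => Nat.zero_le _) hk
    · rw [notMem_support_iff.1 hk]
      simp
  -- substitution of constants
  let u : Fin g → (Fin g → ℂ) → Fin g → ℂ[X] := fun i b => Function.update (fun j => C (b j)) i X
  have hu1 : ∀ i b j, (u i b j).natDegree ≤ 1 := by
    intro i b j
    simp only [u]
    by_cases hj : j = i
    · subst hj
      rw [Function.update_self]
      exact natDegree_X_le
    · rw [Function.update_of_ne hj, natDegree_C]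
      exact Nat.zero_le _
  have hue : ∀ i b s j, (u i b j).eval s = Function.update b i s j := by
    intro i b s j
    simp only [u]
    by_cases hj : j = i
    · subst hj
      rw [Function.update_self, Function.update_self, eval_X]
    · rw [Function.update_of_ne hj, Function.update_of_ne hj, eval_C]
  have hsub : ∀ i b s (a : MvPolynomial (Fin g) ℂ), (MvPolynomial.aeval (u i b) a).eval s =
      MvPolynomial.eval (Function.update b i s) a := by
    intro i b s a
    have h1 : (evalRingHom s).comp ((MvPolynomial.aeval (u i b) : MvPolynomial (Fin g) ℂ →ₐ[ℂ] ℂ[X]) : MvPolynomial (Fin g) ℂ →+* ℂ[X]) =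
        MvPolynomial.eval (Function.update b i s) := by
      refine MvPolynomial.ringHom_ext (fun r => ?_) fun j => ?_
      · simp
      · simp [hue]
    exact RingHom.congr_fun h1 a
  let fx : Fin g → (Fin g → ℂ) → MvPolynomial (Fin g × σ) (MvPolynomial (Fin g) ℂ) →+* MvPolynomial σ ℂ[X] :=
    fun i b => MvPolynomial.eval₂Hom (MvPolynomial.C.comp
      ((MvPolynomial.aeval (u i b) : MvPolynomial (Fin g) ℂ →ₐ[ℂ] ℂ[X]) : MvPolynomial (Fin g) ℂ →+* ℂ[X]))
      (fun q => if q.1 = i then MvPolynomial.X q.2 else MvPolynomial.C (C (f q.1 q.2 (b q.1))))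
  have hfx : ∀ i b s (p : MvPolynomial (Fin g × σ) (MvPolynomial (Fin g) ℂ)),
      evF (f i) s (fx i b p) = evM F (Function.update b i s) p := by
    intro i b s p
    have h1 : (MvPolynomial.eval₂Hom (evalRingHom s) fun v => f i v s).comp (fx i b) =
        MvPolynomial.eval₂Hom (MvPolynomial.eval (Function.update b i s)) fun q => F q (Function.update b i s) := by
      refine MvPolynomial.ringHom_ext (fun a => ?_) fun q => ?_
      · simp only [fx, RingHom.comp_apply, MvPolynomial.eval₂Hom_C]
        exact hsub i b s a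
      · simp only [fx, RingHom.comp_apply, MvPolynomial.eval₂Hom_X']
        split_ifs with hq
        · rw [MvPolynomial.eval₂Hom_X', hF]
          simp only
          rw [hq, Function.update_self]
        · rw [MvPolynomial.eval₂Hom_C, coe_evalRingHom, eval_C, hF]
          simp only
          rw [Function.update_of_ne hq]
    exact RingHom.congr_fun h1 p
  have hupD : ∀ (i : Fin g) (b : Fin g → ℂ), (∀ j, b j ∈ D j) → ∀ s ∈ D i, ∀ j, Function.update b i s j ∈ D j := by
    intro i b hb s hs j
    by_cases hj : j = i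
    · subst hj
      rw [Function.update_self]
      exact hs
    · rw [Function.update_of_ne hj]
      exact hb j
  obtain ⟨P', Q', hQ'0, hPQ'⟩ := sep_rational N g D hDo hDn h (by
    intro i b hb
    have han : AnalyticOnNhd ℂ (fun s => h (Function.update b i s)) (D i) := by
      intro s hs
      refine AnalyticAt.comp (g := h) (f := fun s => Function.update b i s) (hh _ (hDW _ (hupD i b hb s hs))) ?_
      have h1 : AnalyticAt ℂ (fun s => fun j => Function.update b i s j) s := by
        refine AnalyticAt.pi fun j => ?_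
        by_cases hj : j = i
        · subst hj
          simp only [Function.update_self]
          exact analyticAt_id
        · simp only [Function.update_of_ne hj]
          exact analyticAt_const
      exact h1
    refine ⟨han.continuousOn, ?_⟩
    have hDV : D i ⊆ V i := by
      intro s hs
      have h1 := hWU (hDW _ (hupD i b hb s hs)) i
      rwa [Function.update_self] at h1
    have hRb : ∀ s, ((R.map ((MvPolynomial.aeval (u i b) : MvPolynomial (Fin g) ℂ →ₐ[ℂ] ℂ[X]) : MvPolynomial (Fin g) ℂ →+* ℂ[X])).map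
        (evalRingHom s)) = R.map (MvPolynomial.eval (Function.update b i s)) := by
      intro s
      rw [Polynomial.map_map]
      congr 1
      exact RingHom.ext fun a => hsub i b s a
    have hRb0 : R.map ((MvPolynomial.aeval (u i b) : MvPolynomial (Fin g) ℂ →ₐ[ℂ] ℂ[X]) : MvPolynomial (Fin g) ℂ →+* ℂ[X]) ≠ 0 := by
      intro h0
      obtain ⟨s, hs⟩ := hDn i
      apply hDc _ (hupD i b hb s hs)
      have h1 := congrArg (fun p : ℂ[X][X] => (p.coeff R.natDegree).eval s) h0
      simp only [coeff_map, coeff_zero, eval_zero] at h1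
      rw [← hsub]
      exact h1
    obtain ⟨p, q, hq0, hpq⟩ := hreg i (D i) (fun s => h (Function.update b i s)) (fx i b P) (fx i b Q)
      (R.map ((MvPolynomial.aeval (u i b) : MvPolynomial (Fin g) ℂ →ₐ[ℂ] ℂ[X]) : MvPolynomial (Fin g) ℂ →+* ℂ[X])) (hDo i) (hDn i) hDV han
      hRb0 (fun s hs => by rw [hfx]; exact hQ _ (hDW _ (hupD i b hb s hs)))
      (fun s hs => by rw [hfx, hfx]; exact hPQ _ (hDW _ (hupD i b hb s hs)))
      (fun s hs => by rw [hRb]; exact hRh _ (hDW _ (hupD i b hb s hs)))
    obtain ⟨p', q', h1, h2, h3, h4⟩ := deg_bound (hDo i) (hDn i) _ han.continuousOn p q hq0 hpq N _ hRb0 (by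
      intro k
      rw [coeff_map]
      exact (natDegree_aeval_le _ (hu1 i b) _).trans (hN' k))
      (fun s hs => by rw [hRb]; exact hRh _ (hDW _ (hupD i b hb s hs)))
    exact ⟨p', q', h1, h2, h3, h4⟩)
  refine ⟨P', Q', hQ'0, ?_⟩
  -- extension to the whole domain
  have hΘ : AnalyticOnNhd ℂ (fun x => MvPolynomial.eval x Q' * evM F x P - MvPolynomial.eval x P' * evM F x Q)
      (UPi V) :=
    ((an_evalX Q' _).mul (evM_an hFan P)).sub ((an_evalX P' _).mul (evM_an hFan Q))
  have hΘ0 := hΘ.eqOn_zero_of_preconnected_of_eventuallyEq_zero hUc (hWU hz0) (by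
    have h1 : ∀ᶠ x in 𝓝 z0, ∀ i, x i ∈ D i := by
      filter_upwards [Metric.ball_mem_nhds z0 hr] with x hx i
      rw [Metric.mem_ball, dist_pi_lt_iff hr] at hx
      exact hx i
    filter_upwards [h1] with x hx
    have h2 := hPQ x (hDW x hx)
    have h3 := hPQ' x hx
    rw [← h2]
    simp only [Pi.zero_apply]
    linear_combination (evM F x Q) * h3)
  intro x hx
  have h1 := hΘ0 (hWU hx)
  simp only [Pi.zero_apply] at h1
  rw [← hPQ x hx] at h1
  have h2 : evM F x Q * (MvPolynomial.eval x Q' * h x - MvPolynomial.eval x P') = 0 := by linear_combination h1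
  exact sub_eq_zero.1 ((mul_eq_zero.1 h2).resolve_left (hQ x hx))

/-- functions which are polynomials in a regular family -/
theorem regM_poly {X σ τ : Type} [Fintype X] {U : Set (X → ℂ)} {f : σ → (X → ℂ) → ℂ} (h : RegularM U f)
    (π : τ → MvPolynomial σ (MvPolynomial X ℂ)) (f' : τ → (X → ℂ) → ℂ) (hf' : ∀ t x, f' t x = evM f x (π t)) :
    RegularM U f' := by
  intro V w P Q R hVo hVn hVU hw hR hQ hPQ hRw
  have hev : ∀ x (p : MvPolynomial τ (MvPolynomial X ℂ)),
      evM f x (MvPolynomial.eval₂Hom MvPolynomial.C π p) = evM f' x p := by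
    intro x p
    have h1 : (MvPolynomial.eval₂Hom (MvPolynomial.eval x) fun i => f i x).comp
        (MvPolynomial.eval₂Hom MvPolynomial.C π) = MvPolynomial.eval₂Hom (MvPolynomial.eval x) fun t => f' t x := by
      refine MvPolynomial.ringHom_ext (fun a => ?_) fun t => ?_
      · simp only [RingHom.comp_apply, MvPolynomial.eval₂Hom_C]
      · rw [RingHom.comp_apply, MvPolynomial.eval₂Hom_X', MvPolynomial.eval₂Hom_X', hf']
        rfl
    exact RingHom.congr_fun h1 p
  exact h V w (MvPolynomial.eval₂Hom MvPolynomial.C π P) (MvPolynomial.eval₂Hom MvPolynomial.C π Q) R hVo hVn hVU hw hR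
    (fun x hx => by rw [hev]; exact hQ x hx) (fun x hx => by rw [hev, hev]; exact hPQ x hx) hRw

/-- the block diagonal matrix of the `P i (z i)` -/
def blk {g : ℕ} {H J : Type} (P : Fin g → ℂ → Matrix H J ℂ) (z : Fin g → ℂ) : Matrix (Fin g × H) (Fin g × J) ℂ :=
  Matrix.of fun a b => if a.1 = b.1 then P a.1 (z a.1) a.2 b.2 else 0

theorem blk_an {g : ℕ} {H J : Type} (V : Fin g → Set ℂ) (P : Fin g → ℂ → Matrix H J ℂ)
    (hP : ∀ i a b, AnalyticOnNhd ℂ (fun x => P i x a b) (V i)) (a : Fin g × H) (b : Fin g × J) :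
    AnalyticOnNhd ℂ (fun z => blk P z a b) (UPi V) := by
  intro z hz
  unfold blk
  simp only [Matrix.of_apply]
  split_ifs with h
  · exact AnalyticAt.comp (g := fun x => P a.1 x a.2 b.2) (f := fun z : Fin g → ℂ => z a.1) (hP a.1 _ _ _ (hz a.1))
      ((ContinuousLinearMap.proj (R := ℂ) (φ := fun _ : Fin g => ℂ) a.1).analyticAt z)
  · exact analyticAt_const

theorem blk_reg {g : ℕ} {H J : Type} (V : Fin g → Set ℂ) (hVc : ∀ i, IsPreconnected (V i))
    (P : Fin g → ℂ → Matrix H J ℂ) (hP : ∀ i a b, AnalyticOnNhd ℂ (fun x => P i x a b) (V i))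
    (hreg : ∀ i, Regular (V i) fun (v : H × J) x => P i x v.1 v.2) :
    RegularM (UPi V) fun (v : (Fin g × H) × (Fin g × J)) z => blk P z v.1 v.2 := by
  classical
  refine regM_poly (regM_prod V hVc (fun i (v : H × J) x => P i x v.1 v.2) (fun i v => hP i _ _) hreg)
    (fun v => if v.1.1 = v.2.1 then MvPolynomial.X (v.1.1, (v.1.2, v.2.2)) else 0) _ ?_
  rintro ⟨⟨i, a⟩, ⟨j, b⟩⟩ z
  unfold blk
  simp only [Matrix.of_apply]
  split_ifs with h
  · rw [evM_X]
  · exact (MvPolynomial.eval₂_zero _ _).symm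

end Pool.Agent.X255.NP
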