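import Pool.Agent.X255.NP.Sym

/-!
# The number of exceptional integral polynomials
-/

set_option autoImplicit false
set_option linter.unusedSectionVars false

open Polynomial Filter Topology NumberField

namespace Pool.Agent.X255.NP

open Pool.Agent.X255.GB
open Pool.Agent.Y890.MV
open Pool.Agent.Y890.SP (exists_omega)
open Pool.Agent.Y124 (Cov)

theorem cov_finset {X κ : Type} (ε : ℝ) (t : Finset κ) (S : κ → ℝ → Set (X → ℂ))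
    (h : ∀ x ∈ t, ∃ (D : ℕ) (C T₀ : ℝ), 0 ≤ C ∧ 2 ≤ T₀ ∧ ∀ T : ℝ, T₀ ≤ T → Cov D ⌊C * T ^ ε⌋₊ (S x T)) :
    ∃ (D : ℕ) (C T₀ : ℝ), 0 ≤ C ∧ 2 ≤ T₀ ∧ ∀ T : ℝ, T₀ ≤ T → Cov D ⌊C * T ^ ε⌋₊ (⋃ x ∈ t, S x T) := by
  classical
  induction t using Finset.induction_on with
  | empty =>
    refine ⟨0, 0, 2, le_rfl, le_rfl, fun T _ => ⟨∅, by simp, by simp, by simp⟩⟩
  | insert x t hx ih =>
    obtain ⟨D, C, T₀, hC, hT₀, H⟩ := ih fun y hy => h y (Finset.mem_insert_of_mem hy)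
    obtain ⟨D', C', T₀', hC', hT₀', H'⟩ := h x (Finset.mem_insert_self _ _)
    refine ⟨max D' D, C' + C, max T₀' T₀, by positivity, le_max_of_le_left hT₀', fun T hT => ?_⟩
    have hT1 : T₀' ≤ T := (le_max_left _ _).trans hT
    have hT2 : T₀ ≤ T := (le_max_right _ _).trans hT
    have hTp : 0 < T := by linarith
    have h1 := ((H' T hT1).mono (le_max_left D' D) le_rfl (Set.Subset.refl _)).union
      ((H T hT2).mono (le_max_right D' D) le_rfl (Set.Subset.refl _))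
    refine h1.mono le_rfl ?_ ?_
    · have h2 : 0 ≤ C' * T ^ ε := by positivity
      have h3 : 0 ≤ C * T ^ ε := by positivity
      apply Nat.le_floor
      push_cast
      have h4 := Nat.floor_le h2
      have h5 := Nat.floor_le h3
      nlinarith
    · rw [Finset.set_biUnion_insert]

variable {g : ℕ} {H J : Type} [Fintype H] [DecidableEq H] [Fintype J] [DecidableEq J]

/-- the exceptional polynomials with roots in a given set -/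
def ExcOn (U : Set (Fin g → ℂ)) (P : (Fin g → ℂ) → Matrix H J ℂ) (ξ : ℕ → ℂ) (k : ℕ) (Kz : Set (Fin g → ℂ)) (T : ℝ) :
    Set (Fin (g + 1) → ℤ) :=
  {a | (∀ i, |(a i : ℝ)| ≤ T) ∧ ∃ z ∈ Kz, IsRoots a z ∧ ¬ Gen U P ξ k T z}

/-- the point with the coordinates `a i / a g` -/
noncomputable def quoC (a : Fin (g + 1) → ℤ) : Fin g → ℂ := fun i => algebraMap ℚ ℂ (quo a i)

theorem exc_near (hg : 0 < g) {U : Set (Fin g → ℂ)} (hU : IsPreconnected U) (hUo : IsOpen U)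
    {P : (Fin g → ℂ) → Matrix H J ℂ} (hP : ∀ a b, AnalyticOnNhd ℂ (fun x => P x a b) U)
    (hreg : RegularM U fun (v : H × J) (x : Fin g → ℂ) => P x v.1 v.2) (ξ : ℕ → ℂ) (k : ℕ) (z0 : Fin g → ℂ)
    (hz0 : z0 ∈ U) (hinj : Function.Injective z0) : ∃ Kz ∈ 𝓝 z0, ∀ ε : ℝ, 0 < ε →
      ∃ (D : ℕ) (C T₀ : ℝ), 0 ≤ C ∧ 2 ≤ T₀ ∧ ∀ T : ℝ, T₀ ≤ T → Cov D ⌊C * T ^ ε⌋₊ (quoC '' ExcOn U P ξ k Kz T) := by
  obtain ⟨W, N, ζ, h1, h2, h3, h4, h5, h6, h7, h8, h9⟩ := exists_chart U hUo z0 hz0 hinj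
  have hch : IsChart U W N ζ := ⟨h1, h2, h3, h4, h6, h7, h8, h9⟩
  obtain ⟨Kz, hK1, hK2, hK3⟩ := exists_compact_subset h4 h5
  refine ⟨Kz, mem_interior_iff_mem_nhds.1 hK2, fun ε hε => ?_⟩
  have : Nonempty (Fin g) := ⟨⟨0, hg⟩⟩
  obtain ⟨D, C, T₀, hC, hT₀, HH⟩ := excN_cov (X := Fin g) (Y := Fin g) h2 h1 h3 (y := fun j a => ζ a j)
    (f := fun (v : H × J) a => P (ζ a) v.1 v.2) (fun j => h7 j) (fun v => hch.an_comp (hP v.1 v.2)) hch.algY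
    (hch.regY hreg) (co '' Kz) (hK1.image co_cont) (by
      rintro _ ⟨z, hz, rfl⟩
      exact (h9 z (hK3 hz)).1) k (Fin k) (k * g ^ g) (fun b : Fin k => ξ b) ((k : ℝ) + 2) ε hε
  refine ⟨D, C, max T₀ (g + 2), hC, le_max_of_le_left hT₀, fun T hT => ?_⟩
  refine (HH T ((le_max_left _ _).trans hT)).mono le_rfl le_rfl ?_
  rintro _ ⟨a, ⟨ha, z, hz, hr, hgen⟩, rfl⟩
  exact ⟨quo a, hch.exc hU hP Kz hK3 ξ k ((le_max_right _ _).trans hT) hg ha hz hr hgen, rfl⟩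

/-- **Few exceptional polynomials.** -/
theorem excAlg_cov (hg : 0 < g) {U : Set (Fin g → ℂ)} (hU : IsPreconnected U) (hUo : IsOpen U)
    {P : (Fin g → ℂ) → Matrix H J ℂ} (hP : ∀ a b, AnalyticOnNhd ℂ (fun x => P x a b) U)
    (hreg : RegularM U fun (v : H × J) (x : Fin g → ℂ) => P x v.1 v.2) (ξ : ℕ → ℂ) (k : ℕ) (ε : ℝ) (hε : 0 < ε) :
    ∃ (D : ℕ) (C T₀ : ℝ), 0 ≤ C ∧ 2 ≤ T₀ ∧ ∀ T : ℝ, T₀ ≤ T → Cov D ⌊C * T ^ ε⌋₊ (quoC '' ExcAlg U P ξ k T) := by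
  classical
  rcases Nat.eq_zero_or_pos k with hk | hk
  · refine ⟨0, 0, 2, le_rfl, le_rfl, fun T _ => ⟨∅, by simp, by simp, ?_⟩⟩
    rintro _ ⟨a, ⟨_, z, _, _, _, hgen⟩, rfl⟩
    exfalso
    apply hgen
    intro F _ _ hF
    have h1 : 0 < Module.finrank ℚ F := Module.finrank_pos
    omega
  have hk0 : (0 : ℝ) < (k : ℝ)⁻¹ := by positivity
  set 𝒦 : Set (Fin g → ℂ) := {z | z ∈ InnerM U k ∧ ∀ i j, i ≠ j → (k : ℝ)⁻¹ ≤ ‖z i - z j‖} with h𝒦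
  have hcomp : IsCompact 𝒦 := by
    refine (innerM_compact U k).of_isClosed_subset ?_ fun z hz => hz.1
    have h1 : 𝒦 = InnerM U k ∩ ⋂ (i : Fin g) (j : Fin g) (_ : i ≠ j), {z | (k : ℝ)⁻¹ ≤ ‖z i - z j‖} := by
      ext z
      simp [h𝒦]
    rw [h1]
    refine (innerM_compact U k).isClosed.inter ?_
    refine isClosed_iInter fun i => isClosed_iInter fun j => isClosed_iInter fun _ => ?_
    exact isClosed_le continuous_const (((continuous_apply i).sub (continuous_apply j)).norm)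
  have hinj : ∀ z ∈ 𝒦, Function.Injective z := by
    intro z hz i j hij
    by_contra hne
    have h1 := hz.2 i j hne
    rw [hij, sub_self, norm_zero] at h1
    linarith
  choose! Kz hKz1 hKz2 using fun z (hz : z ∈ 𝒦) =>
    exc_near hg hU hUo hP hreg ξ k z (innerM_sub _ hk hz.1) (hinj z hz)
  obtain ⟨t, ht1, ht2⟩ := hcomp.elim_nhds_subcover Kz fun z hz => hKz1 z hz
  obtain ⟨D, C, T₀, hC, hT₀, HH⟩ := cov_finset ε t (fun z0 T => quoC '' ExcOn U P ξ k (Kz z0) T)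
    fun z0 hz0 => hKz2 z0 (ht1 z0 hz0) ε hε
  refine ⟨D, C, T₀, hC, hT₀, fun T hT => (HH T hT).mono le_rfl le_rfl ?_⟩
  rintro _ ⟨a, ⟨ha, z, hz, hsep, hr, hgen⟩, rfl⟩
  obtain ⟨z0, hz0, hzz⟩ := Set.mem_iUnion₂.1 (ht2 ⟨hz, hsep⟩)
  exact Set.mem_iUnion₂.2 ⟨z0, hz0, a, ⟨ha, z, hzz, hr, hgen⟩, rfl⟩

/-- the integers of absolute value at most `T` -/
theorem int_count {T : ℝ} (hT : 1 ≤ T) : {n : ℤ | |(n : ℝ)| ≤ T}.Finite ∧ ({n : ℤ | |(n : ℝ)| ≤ T}.ncard : ℝ) ≤ 3 * T := by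
  have h1 : {n : ℤ | |(n : ℝ)| ≤ T} ⊆ (Finset.Icc (-(⌊T⌋₊ : ℤ)) (⌊T⌋₊ : ℤ) : Set ℤ) := by
    intro n hn
    have h2 : |(n : ℝ)| ≤ T := hn
    have h3 : ((n.natAbs : ℕ) : ℝ) ≤ T := by
      rw [Nat.cast_natAbs]
      push_cast
      exact h2
    have h4 : n.natAbs ≤ ⌊T⌋₊ := Nat.le_floor h3
    rw [Finset.coe_Icc, Set.mem_Icc]
    omega
  have hfin : {n : ℤ | |(n : ℝ)| ≤ T}.Finite := (Finset.finite_toSet _).subset h1
  refine ⟨hfin, ?_⟩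
  have h2 := Set.ncard_le_ncard h1 (Finset.finite_toSet _)
  rw [Set.ncard_coe_finset, Int.card_Icc] at h2
  have h3 : (((⌊T⌋₊ : ℤ) + 1 - -(⌊T⌋₊ : ℤ)).toNat : ℝ) = 2 * (⌊T⌋₊ : ℝ) + 1 := by
    have h4 : ((⌊T⌋₊ : ℤ) + 1 - -(⌊T⌋₊ : ℤ)).toNat = 2 * ⌊T⌋₊ + 1 := by omega
    rw [h4]
    push_cast
    ring
  have h5 : ({n : ℤ | |(n : ℝ)| ≤ T}.ncard : ℝ) ≤ (((⌊T⌋₊ : ℤ) + 1 - -(⌊T⌋₊ : ℤ)).toNat : ℝ) := by exact_mod_cast h2
  rw [h3] at h5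
  have h6 := Nat.floor_le (show (0 : ℝ) ≤ T by linarith)
  linarith

theorem quo_inj {a a' : Fin (g + 1) → ℤ} (h0 : a (Fin.last g) ≠ 0) (h1 : a (Fin.last g) = a' (Fin.last g))
    (h : quo a = quo a') : a = a' := by
  funext i
  refine Fin.lastCases h1 (fun j => ?_) i
  have h2 := congrFun h j
  simp only [quo, ← h1] at h2
  have h3 : ((a (Fin.last g) : ℤ) : ℚ) ≠ 0 := by exact_mod_cast h0
  rw [div_left_inj' h3] at h2
  exact_mod_cast h2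

/-- integral vectors over a sparse set -/
theorem count_of_cov (hg : 0 < g) (E : Set (Fin (g + 1) → ℤ)) {T : ℝ} (hT : 1 ≤ T)
    (hE : ∀ a ∈ E, (∀ i, |(a i : ℝ)| ≤ T) ∧ a (Fin.last g) ≠ 0) {D m : ℕ} (hcov : Cov D m (quoC '' E)) :
    E.Finite ∧ (E.ncard : ℝ) ≤ m * D * (3 * T) ^ g := by
  classical
  have : Nonempty (Fin g) := ⟨⟨0, hg⟩⟩
  set I : Set ℤ := {n : ℤ | |(n : ℝ)| ≤ T} with hI
  obtain ⟨hIf, hIc⟩ := int_count hT
  have hfin : E.Finite := (Set.Finite.pi' fun _ : Fin (g + 1) => hIf).subset fun a ha => (hE a ha).1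
  refine ⟨hfin, ?_⟩
  set M := I.ncard with hM
  have hslice : ∀ b ∈ I, {a | a ∈ E ∧ a (Fin.last g) = b}.ncard ≤ m * (D * M ^ (g - 1)) := by
    intro b _
    set B : Set ℚ := (fun n : ℤ => (n : ℚ) / (b : ℚ)) '' I with hB
    have hBf : B.Finite := hIf.image _
    have hBc : B.ncard ≤ M := Set.ncard_image_le hIf
    set E' : Set (Fin g → ℚ) := quo '' {a | a ∈ E ∧ a (Fin.last g) = b} with hE'
    have h1 := cov_count (X := Fin g) (algebraMap ℚ ℂ) B hBf E' (by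
      rintro _ ⟨a, ⟨ha, hab⟩, rfl⟩ j
      exact ⟨a j.castSucc, (hE a ha).1 _, by rw [quo, hab]⟩) (hcov.mono le_rfl le_rfl (by
      rintro _ ⟨_, ⟨a, ⟨ha, _⟩, rfl⟩, rfl⟩
      exact ⟨a, ha, rfl⟩))
    have h2 : {a | a ∈ E ∧ a (Fin.last g) = b}.ncard = E'.ncard := by
      rw [hE', Set.ncard_image_of_injOn]
      rintro a ⟨ha, hab⟩ a' ⟨ha', hab'⟩ hq
      exact quo_inj (hE a ha).2 (hab.trans hab'.symm) hq
    rw [h2]
    refine h1.2.trans (Nat.mul_le_mul_left _ (Nat.mul_le_mul_left _ ?_))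
    rw [Fintype.card_fin]
    exact Nat.pow_le_pow_left hBc _
  have hun : E ⊆ ⋃ b ∈ hIf.toFinset, {a | a ∈ E ∧ a (Fin.last g) = b} := by
    intro a ha
    refine Set.mem_iUnion₂.2 ⟨a (Fin.last g), ?_, ha, rfl⟩
    rw [Set.Finite.mem_toFinset]
    exact (hE a ha).1 _
  have h1 : E.ncard ≤ M * (m * (D * M ^ (g - 1))) := by
    calc E.ncard ≤ (⋃ b ∈ hIf.toFinset, {a | a ∈ E ∧ a (Fin.last g) = b}).ncard := by
          refine Set.ncard_le_ncard hun ?_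
          exact Set.Finite.biUnion (Finset.finite_toSet _) fun b _ => hfin.subset fun a ha => ha.1
      _ ≤ ∑ b ∈ hIf.toFinset, {a | a ∈ E ∧ a (Fin.last g) = b}.ncard := Finset.set_ncard_biUnion_le _ _
      _ ≤ ∑ _b ∈ hIf.toFinset, m * (D * M ^ (g - 1)) :=
          Finset.sum_le_sum fun b hb => hslice b ((Set.Finite.mem_toFinset hIf).1 hb)
      _ = M * (m * (D * M ^ (g - 1))) := by
          rw [Finset.sum_const, smul_eq_mul, hM, Set.ncard_eq_toFinset_card _ hIf]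
  have h2 : M * (m * (D * M ^ (g - 1))) = m * D * M ^ g := by
    obtain ⟨n, rfl⟩ : ∃ n, g = n + 1 := ⟨g - 1, by omega⟩
    rw [Nat.add_sub_cancel, pow_succ]
    ring
  rw [h2] at h1
  have h3 : (E.ncard : ℝ) ≤ m * D * (M : ℝ) ^ g := by exact_mod_cast h1
  refine h3.trans ?_
  refine mul_le_mul_of_nonneg_left ?_ (by positivity)
  exact pow_le_pow_left₀ (Nat.cast_nonneg _) hIc _

/-- **All parameters at once.** -/
theorem excAlg_omega (hg : 0 < g) {U : Set (Fin g → ℂ)} (hU : IsPreconnected U) (hUo : IsOpen U)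
    {P : (Fin g → ℂ) → Matrix H J ℂ} (hP : ∀ a b, AnalyticOnNhd ℂ (fun x => P x a b) U)
    (hreg : RegularM U fun (v : H × J) (x : Fin g → ℂ) => P x v.1 v.2) (ξ : ℕ → ℂ) :
    ∃ (ω : ℝ → ℕ) (T₀ : ℝ), Tendsto ω atTop atTop ∧ Monotone ω ∧ ∀ T, T₀ ≤ T → 0 < ω T ∧
      Cov ⌊T ^ ((ω T : ℝ)⁻¹)⌋₊ ⌊T ^ ((ω T : ℝ)⁻¹)⌋₊ (quoC '' ExcAlg U P ξ (ω T) T) ∧
      (ExcAlg U P ξ (ω T) T).Finite ∧ ((ExcAlg U P ξ (ω T) T).ncard : ℝ) ≤ T ^ ((g : ℝ) + (ω T : ℝ)⁻¹) := by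
  classical
  let S : ℕ → ℝ → Prop := fun k T =>
    Cov ⌊T ^ ((k : ℝ)⁻¹)⌋₊ ⌊T ^ ((k : ℝ)⁻¹)⌋₊ (quoC '' ExcAlg U P ξ k T) ∧
      (ExcAlg U P ξ k T).Finite ∧ ((ExcAlg U P ξ k T).ncard : ℝ) ≤ T ^ ((g : ℝ) + (k : ℝ)⁻¹)
  refine exists_omega S fun k => ?_
  set κ : ℝ := ((k + 1 : ℕ) : ℝ)⁻¹ with hκ
  have hκ0 : 0 < κ := by positivity
  obtain ⟨D, C, T₀, hC, hT₀, HH⟩ := excAlg_cov hg hU hUo hP hreg ξ (k + 1) (κ / 4) (by positivity)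
  have hpow : ∀ C : ℝ, 0 ≤ C → ∃ T₁ : ℝ, ∀ T, 1 ≤ T → T₁ ≤ T → C ≤ T ^ (κ / 4) := by
    intro C hC
    refine ⟨C ^ (4 * (k + 1)), fun T hT hT1 => ?_⟩
    have h4 : C = (C ^ (4 * (k + 1))) ^ (κ / 4) := by
      rw [← Real.rpow_natCast, ← Real.rpow_mul hC]
      have : ((4 * (k + 1) : ℕ) : ℝ) * (κ / 4) = 1 := by
        rw [hκ]
        push_cast
        have : ((k : ℝ) + 1) ≠ 0 := by positivity
        field_simp
      rw [this, Real.rpow_one]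
    rw [h4]
    exact Real.rpow_le_rpow (by positivity) hT1 (by positivity)
  obtain ⟨T₁, hT₁⟩ := hpow C hC
  obtain ⟨T₂, hT₂⟩ := hpow D (Nat.cast_nonneg _)
  obtain ⟨T₃, hT₃⟩ := hpow (3 ^ g) (by positivity)
  refine ⟨max T₀ (max T₁ (max T₂ T₃)), fun T hT => ?_⟩
  simp only [max_le_iff] at hT
  obtain ⟨h0, h1, h2, h2'⟩ := hT
  have hT1 : 1 ≤ T := by linarith
  have hTp : 0 < T := by linarith
  have h3 := hT₁ T hT1 h1
  have h4 := hT₂ T hT1 h2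
  have h4' := hT₃ T hT1 h2'
  have hcov := HH T h0
  have h5 : T ^ (κ / 4) * T ^ (κ / 4) ≤ T ^ κ := by
    rw [← Real.rpow_add hTp]
    exact Real.rpow_le_rpow_of_exponent_le hT1 (by linarith)
  have h6 : T ^ (κ / 4) ≤ T ^ κ := Real.rpow_le_rpow_of_exponent_le hT1 (by linarith)
  have hm : C * T ^ (κ / 4) ≤ T ^ (κ / 4) * T ^ (κ / 4) := mul_le_mul_of_nonneg_right h3 (by positivity)
  refine ⟨hcov.mono (Nat.le_floor (h4.trans h6)) (Nat.floor_mono (hm.trans h5)) (Set.Subset.refl _), ?_⟩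
  obtain ⟨h7, h8⟩ := count_of_cov hg (ExcAlg U P ξ (k + 1) T) hT1 (by
    rintro a ⟨ha, z, _, _, hr, _⟩
    exact ⟨ha, hr.1⟩) hcov
  refine ⟨h7, ?_⟩
  have h9 : ((⌊C * T ^ (κ / 4)⌋₊ : ℕ) : ℝ) ≤ T ^ (κ / 4) * T ^ (κ / 4) :=
    (Nat.floor_le (by positivity)).trans hm
  refine h8.trans ?_
  rw [mul_pow, Real.rpow_add hTp, Real.rpow_natCast]
  have h10 : (⌊C * T ^ (κ / 4)⌋₊ : ℝ) * (D : ℝ) * (3 : ℝ) ^ g ≤ T ^ κ := by
    calc (⌊C * T ^ (κ / 4)⌋₊ : ℝ) * (D : ℝ) * (3 : ℝ) ^ g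
        ≤ (T ^ (κ / 4) * T ^ (κ / 4)) * T ^ (κ / 4) * T ^ (κ / 4) := by
          refine mul_le_mul (mul_le_mul h9 h4 (Nat.cast_nonneg _) (by positivity)) h4' (by positivity) (by positivity)
      _ = T ^ κ := by
          rw [← Real.rpow_add hTp, ← Real.rpow_add hTp, ← Real.rpow_add hTp]
          congr 1
          ring
  calc (⌊C * T ^ (κ / 4)⌋₊ : ℝ) * (D : ℝ) * ((3 : ℝ) ^ g * T ^ g)
      = ((⌊C * T ^ (κ / 4)⌋₊ : ℝ) * (D : ℝ) * (3 : ℝ) ^ g) * T ^ g := by ring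
    _ ≤ T ^ κ * T ^ g := mul_le_mul_of_nonneg_right h10 (by positivity)
    _ = T ^ g * T ^ κ := mul_comm _ _

end Pool.Agent.X255.NP
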