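import Pool.Agent.X255.NP.Co
import Pool.Agent.Y120.NF

/-!
# Arithmetic of the roots of integral polynomials
-/

set_option autoImplicit false
set_option linter.unusedSectionVars false

open Polynomial NumberField

namespace Pool.Agent.X255.NP

variable {g : ℕ}

/-- the polynomial with the coefficients `a` -/
noncomputable def pol (a : Fin (g + 1) → ℤ) : ℂ[X] := ∑ i, C (a i : ℂ) * X ^ (i : ℕ)

/-- the same over `ℤ` -/
noncomputable def polZ (a : Fin (g + 1) → ℤ) : ℤ[X] := ∑ i, C (a i) * X ^ (i : ℕ)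

theorem polZ_coeff (a : Fin (g + 1) → ℤ) (i : Fin (g + 1)) : (polZ a).coeff i = a i := by
  rw [polZ, finsetSum_coeff, Finset.sum_eq_single i]
  · simp
  · intro j _ hj
    rw [coeff_C_mul, coeff_X_pow, if_neg, mul_zero]
    intro h
    exact hj (Fin.ext h.symm)
  · intro h
    exact absurd (Finset.mem_univ _) h

theorem polZ_degree_le (a : Fin (g + 1) → ℤ) : (polZ a).natDegree ≤ g := by
  refine natDegree_sum_le_of_forall_le _ _ fun i _ => ?_
  refine (natDegree_C_mul_X_pow_le _ _).trans ?_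
  have := i.2
  omega

theorem polZ_degree (a : Fin (g + 1) → ℤ) (h : a (Fin.last g) ≠ 0) : (polZ a).natDegree = g := by
  refine le_antisymm (polZ_degree_le a) ?_
  apply le_natDegree_of_ne_zero
  have := polZ_coeff a (Fin.last g)
  rw [Fin.val_last] at this
  rw [this]
  exact h

theorem polZ_lead (a : Fin (g + 1) → ℤ) (h : a (Fin.last g) ≠ 0) : (polZ a).leadingCoeff = a (Fin.last g) := by
  rw [leadingCoeff, polZ_degree a h]
  have := polZ_coeff a (Fin.last g)
  rwa [Fin.val_last] at this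

theorem polZ_aeval (a : Fin (g + 1) → ℤ) (z : ℂ) : aeval z (polZ a) = (pol a).eval z := by
  simp [polZ, pol, eval_finsetSum]

theorem pol_eval (a : Fin (g + 1) → ℤ) (z : ℂ) : (pol a).eval z = ∑ i, (a i : ℂ) * z ^ (i : ℕ) := by
  simp [pol, eval_finsetSum]

theorem root_bound (a : Fin (g + 1) → ℤ) (T : ℝ) (hT : 1 ≤ T) (ha : ∀ i, |(a i : ℝ)| ≤ T) (x : ℂ)
    (hx : (pol a).eval x = 0) (hg : 0 < g) : ‖(a (Fin.last g) : ℂ) * x‖ ≤ (g + 1) * T := by
  have hT0 : 0 ≤ T := by linarith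
  have han : ∀ i, ‖(a i : ℂ)‖ ≤ T := by
    intro i
    have := ha i
    rw [Complex.norm_intCast]
    exact this
  rw [norm_mul]
  have hgT : T ≤ (g + 1) * T := by
    have : (0 : ℝ) ≤ g := Nat.cast_nonneg _
    nlinarith
  rcases le_total ‖x‖ 1 with h1 | h1
  · refine le_trans ?_ hgT
    calc ‖(a (Fin.last g) : ℂ)‖ * ‖x‖ ≤ T * 1 := mul_le_mul (han _) h1 (norm_nonneg _) hT0
      _ = T := mul_one _
  · obtain ⟨n, rfl⟩ : ∃ n, g = n + 1 := ⟨g - 1, by omega⟩
    rw [pol_eval, Fin.sum_univ_castSucc] at hx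
    have h2 : (a (Fin.last (n + 1)) : ℂ) * x ^ ((Fin.last (n + 1) : Fin (n + 1 + 1)) : ℕ) =
        -∑ i : Fin (n + 1), (a i.castSucc : ℂ) * x ^ ((i.castSucc : Fin (n + 1 + 1)) : ℕ) := by
      linear_combination hx
    have h3 := congrArg norm h2
    rw [norm_neg, norm_mul, norm_pow, Fin.val_last] at h3
    have h4 : ‖∑ i : Fin (n + 1), (a i.castSucc : ℂ) * x ^ ((i.castSucc : Fin (n + 1 + 1)) : ℕ)‖ ≤
        (n + 1) * (T * ‖x‖ ^ n) := by
      refine (norm_sum_le _ _).trans ?_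
      have h5 : ∀ i : Fin (n + 1), ‖(a i.castSucc : ℂ) * x ^ ((i.castSucc : Fin (n + 1 + 1)) : ℕ)‖ ≤ T * ‖x‖ ^ n := by
        intro i
        rw [norm_mul, norm_pow]
        refine mul_le_mul (han _) ?_ (by positivity) hT0
        refine pow_le_pow_right₀ h1 ?_
        have := i.2
        simp only [Fin.val_castSucc]
        omega
      refine (Finset.sum_le_sum fun i _ => h5 i).trans (le_of_eq ?_)
      rw [Finset.sum_const, Finset.card_univ, Fintype.card_fin, nsmul_eq_mul]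
      push_cast
      ring
    rw [← h3] at h4
    have hxn : 0 < ‖x‖ ^ n := by positivity
    have h6 : (‖(a (Fin.last (n + 1)) : ℂ)‖ * ‖x‖) * ‖x‖ ^ n ≤ ((n + 1) * T) * ‖x‖ ^ n := by
      calc (‖(a (Fin.last (n + 1)) : ℂ)‖ * ‖x‖) * ‖x‖ ^ n = ‖(a (Fin.last (n + 1)) : ℂ)‖ * ‖x‖ ^ (n + 1) := by ring
        _ ≤ (n + 1) * (T * ‖x‖ ^ n) := h4
        _ = _ := by ring
    have h7 := le_of_mul_le_mul_right h6 hxn
    refine h7.trans ?_
    push_cast
    nlinarith

theorem root_AE (a : Fin (g + 1) → ℤ) (T : ℝ) (hT : 1 ≤ T) (ha : ∀ i, |(a i : ℝ)| ≤ T) (hl : a (Fin.last g) ≠ 0)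
    (z : ℂ) (hz : (pol a).eval z = 0) (hg : 0 < g) (F : IntermediateField ℚ ℂ) (hzF : z ∈ F) :
    AE F ((g + 1) * T) ((a (Fin.last g) : ℂ) * z) := by
  have hlC : ((a (Fin.last g) : ℤ) : ℂ) ≠ 0 := by exact_mod_cast hl
  have hlQ : ((a (Fin.last g) : ℤ) : ℚ) ≠ 0 := by exact_mod_cast hl
  have hint : IsIntegral ℤ ((a (Fin.last g) : ℂ) * z) := by
    have h1 := isIntegral_leadingCoeff_smul (polZ a) z (by rw [polZ_aeval]; exact hz)
    rwa [polZ_lead a hl, zsmul_eq_mul] at h1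
  refine ⟨mul_mem (intCast_mem F _) hzF, hint, fun r hr => ?_⟩
  set l : ℤ := a (Fin.last g) with hl'
  let q : ℚ[X] := ((polZ a).map (Int.castRingHom ℚ)).comp (C ((l : ℚ)⁻¹) * X)
  have hq : ∀ x : ℂ, aeval x q = (pol a).eval ((l : ℂ)⁻¹ * x) := by
    intro x
    rw [← polZ_aeval]
    simp only [q]
    rw [aeval_comp, map_mul, aeval_C, aeval_X]
    have h1 : algebraMap ℚ ℂ ((l : ℚ)⁻¹) = (l : ℂ)⁻¹ := by simp
    rw [h1]
    exact aeval_map_algebraMap ℚ ((l : ℂ)⁻¹ * x) (polZ a)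
  have h2 : aeval ((l : ℂ) * z) q = 0 := by
    rw [hq, ← mul_assoc, inv_mul_cancel₀ hlC, one_mul]
    exact hz
  have h3 : minpoly ℚ ((l : ℂ) * z) ∣ q := minpoly.dvd ℚ _ h2
  obtain ⟨s, hs⟩ := h3
  have h4 : aeval r q = 0 := by rw [hs, map_mul, hr, zero_mul]
  rw [hq] at h4
  have h5 := root_bound a T hT ha _ h4 hg
  rw [← mul_assoc, mul_inv_cancel₀ hlC, one_mul] at h5
  exact h5

theorem root_finrank (a : Fin (g + 1) → ℤ) (hl : a (Fin.last g) ≠ 0) (z : ℂ) (hz : (pol a).eval z = 0) :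
    FiniteDimensional ℚ (IntermediateField.adjoin ℚ {z}) ∧ Module.finrank ℚ (IntermediateField.adjoin ℚ {z}) ≤ g := by
  have h0 : (polZ a).map (Int.castRingHom ℚ) ≠ 0 := by
    intro h
    have h1 := congrArg (fun p => p.coeff (Fin.last g : Fin (g + 1))) h
    simp only [coeff_map, coeff_zero, polZ_coeff] at h1
    apply hl
    have h2 : ((a (Fin.last g) : ℤ) : ℚ) = 0 := h1
    exact_mod_cast h2
  have h1 : aeval z ((polZ a).map (Int.castRingHom ℚ)) = 0 := by
    have h2 : aeval z ((polZ a).map (Int.castRingHom ℚ)) = aeval z (polZ a) := aeval_map_algebraMap ℚ z (polZ a)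
    rw [h2, polZ_aeval]
    exact hz
  have hint : IsIntegral ℚ z := isAlgebraic_iff_isIntegral.1 ⟨_, h0, h1⟩
  refine ⟨IntermediateField.adjoin.finiteDimensional hint, ?_⟩
  rw [IntermediateField.adjoin.finrank hint]
  have h2 := minpoly.degree_le_of_ne_zero ℚ z h0 h1
  have h3 := natDegree_le_natDegree h2
  exact h3.trans (natDegree_map_le.trans (polZ_degree_le a))

/-- the field generated by finitely many roots -/
theorem roots_field (a : Fin (g + 1) → ℤ) (hl : a (Fin.last g) ≠ 0) {κ : Type} [Fintype κ] (z : κ → ℂ)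
    (hz : ∀ j, (pol a).eval (z j) = 0) (F : IntermediateField ℚ ℂ) [FiniteDimensional ℚ F] :
    ∃ (F' : IntermediateField ℚ ℂ) (_ : FiniteDimensional ℚ F'), F ≤ F' ∧ (∀ j, z j ∈ F') ∧
      Module.finrank ℚ F' ≤ Module.finrank ℚ F * g ^ Fintype.card κ := by
  classical
  have key : ∀ s : Finset κ, ∃ (F' : IntermediateField ℚ ℂ) (_ : FiniteDimensional ℚ F'), F ≤ F' ∧
      (∀ j ∈ s, z j ∈ F') ∧ Module.finrank ℚ F' ≤ Module.finrank ℚ F * g ^ s.card := by
    intro s
    induction s using Finset.induction_on with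
    | empty => exact ⟨F, inferInstance, le_rfl, by simp, by simp⟩
    | insert j s hj ih =>
      obtain ⟨F', h1, h2, h3, h4⟩ := ih
      obtain ⟨h5, h6⟩ := root_finrank a hl (z j) (hz j)
      refine ⟨F' ⊔ IntermediateField.adjoin ℚ {z j}, IntermediateField.finiteDimensional_sup _ _,
        h2.trans le_sup_left, ?_, ?_⟩
      · intro i hi
        rcases Finset.mem_insert.1 hi with rfl | hi
        · exact le_sup_right (a := F') (IntermediateField.mem_adjoin_simple_self ℚ (z i))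
        · exact le_sup_left (a := F') (h3 i hi)
      · rw [Finset.card_insert_of_notMem hj, pow_succ, ← mul_assoc]
        exact (IntermediateField.finrank_sup_le _ _).trans (Nat.mul_le_mul h4 h6)
  obtain ⟨F', h1, h2, h3, h4⟩ := key Finset.univ
  exact ⟨F', h1, h2, fun j => h3 j (Finset.mem_univ _), h4⟩

/-- the image of a number field -/
theorem image_field (F : Type) [Field F] [NumberField F] (io : F →+* ℂ) :
    ∃ (E : IntermediateField ℚ ℂ) (_ : FiniteDimensional ℚ E), Module.finrank ℚ E = Module.finrank ℚ F ∧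
      ∀ (c : 𝓞 F) (R : ℝ), (∀ φ : F →+* ℂ, ‖φ (c : F)‖ ≤ R) → AE E R (io (c : F)) := by
  let E : IntermediateField ℚ ℂ := io.toRatAlgHom.fieldRange
  let e : F ≃ₐ[ℚ] E := AlgEquiv.ofInjectiveField io.toRatAlgHom
  have hfin : FiniteDimensional ℚ E := e.toLinearEquiv.finiteDimensional
  refine ⟨E, hfin, e.toLinearEquiv.finrank_eq.symm, fun c R hR => ?_⟩
  have hmem : io (c : F) ∈ E := ⟨c, rfl⟩
  refine ⟨hmem, ?_⟩
  have hint : IsIntegral ℤ (io (c : F)) := (RingOfIntegers.isIntegral_coe c).map io.toIntAlgHom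
  refine AI.of_emb E hmem hint fun σ => ?_
  have h1 : (⟨io (c : F), hmem⟩ : E) = e (c : F) := rfl
  rw [h1]
  exact hR (σ.comp (e : F →+* E))

end Pool.Agent.X255.NP
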