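import Pool.Agent.X255.GB.One

/-!
# The algebraic part of the specialization of relations over arbitrary base varieties
-/

set_option autoImplicit false
set_option linter.unusedSectionVars false

open Polynomial NumberField

namespace Pool.Agent.X255.NP

open Pool.Agent.X255.GB
open Pool.Agent.Y890.MV
open Pool.Agent.Y890.SP (ex box box_of_le eval_box evI evI_rename relPoly relPoly_degree relPoly_coeff relPoly_zero
  resG resG_map resP res_eval eq_zero_of_resultant norm_prod_le)
open Pool.Agent.Y124 (Cov RelK)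

/-- the algebraic part: relations which are not values of functional relations give algebraic relations between
independent functions -/
theorem algY {X Y σ : Type} [Fintype X] [DecidableEq X] [Nonempty X]
    [Fintype Y] [DecidableEq Y]
    [Fintype σ] [DecidableEq σ] {U : Set (X → ℂ)} {y : Y → (X → ℂ) → ℂ} {f : σ → (X → ℂ) → ℂ} (hU : IsPreconnected U)
    (hUo : IsOpen U) (hne : U.Nonempty) (hy : ∀ j, AnalyticOnNhd ℂ (y j) U) (hf : ∀ i, AnalyticOnNhd ℂ (f i) U)
    (halg : AlgY U y) (hreg : RegularY U y f) (δ : ℕ) :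
    ∃ (N : Type) (_ : Fintype N) (_ : DecidableEq N) (M : N → (σ → Fin (δ + 1)) → MvPolynomial (Y ⊕ X) ℂ),
      (∀ G : (σ → Fin (δ + 1)) → MvPolynomial (Y ⊕ X) ℂ,
        (∀ ν, ∀ x ∈ U, ∑ l, MvPolynomial.eval (pt y x) (M ν l) * MvPolynomial.eval (pt y x) (G l) = 0) →
        ∀ x ∈ U, ∑ l, MvPolynomial.eval (pt y x) (G l) * ∏ v, f v x ^ (l v : ℕ) = 0) ∧
      (∃ q₂ : MvPolynomial X ℂ, q₂ ≠ 0 ∧ ∀ t ∈ U, MvPolynomial.eval t q₂ ≠ 0 → ∀ P : (σ → Fin (δ + 1)) → ℂ,
        (∀ ν, ∑ l, MvPolynomial.eval (pt y t) (M ν l) * P l = 0) →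
        ∃ G : (σ → Fin (δ + 1)) → MvPolynomial (Y ⊕ X) ℂ, (∀ l, MvPolynomial.eval (pt y t) (G l) = P l) ∧
          ∀ ν, ∀ x ∈ U, ∑ l, MvPolynomial.eval (pt y x) (M ν l) * MvPolynomial.eval (pt y x) (G l) = 0) ∧
      ∃ (I : Type) (_ : Fintype I) (_ : DecidableEq I) (ι : I → σ)
        (𝒢 : MvPolynomial I (MvPolynomial (σ → Fin (δ + 1)) (MvPolynomial (Y ⊕ X) ℂ))) (q₁ : MvPolynomial X ℂ),
        q₁ ≠ 0 ∧ (∀ t ∈ U, LocIndM (fun i t => f (ι i) t) t) ∧
        (∀ t ∈ U, MvPolynomial.eval t q₁ ≠ 0 → ∀ P : (σ → Fin (δ + 1)) → ℂ,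
          (∃ ν, ∑ l, MvPolynomial.eval (pt y t) (M ν l) * P l ≠ 0) →
          MvPolynomial.map (MvPolynomial.eval₂Hom (MvPolynomial.eval (pt y t)) P) 𝒢 ≠ 0) ∧
        ∀ t ∈ U, ∀ P : (σ → Fin (δ + 1)) → ℂ, ∑ l, P l * ∏ v, f v t ^ (l v : ℕ) = 0 →
          MvPolynomial.eval (fun i => f (ι i) t)
            (MvPolynomial.map (MvPolynomial.eval₂Hom (MvPolynomial.eval (pt y t)) P) 𝒢) = 0 := by
  classical
  obtain ⟨AA, _, _, _, L, _, _, _, F, π, ph, hπ, hphπ, hz, hfrac, hregA, hden, hlocind⟩ :=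
    exists_model hU hUo hne hy hf halg hreg
  have hzero : ∀ a : AA, (∀ x (hx : x ∈ U), ph x hx a = 0) → a = 0 := by
    intro a ha
    have h1 : MvPolynomial.aeval F (MvPolynomial.C a) = 0 := by
      rw [hz]
      intro x hx
      rw [MvPolynomial.eval₂_C]
      exact ha x hx
    rw [MvPolynomial.aeval_C] at h1
    exact (map_eq_zero_iff _ (FaithfulSMul.algebraMap_injective AA L)).1 h1
  obtain ⟨d⟩ := exists_dat' F hfrac hregA
  let := d.fin
  let := d.dec
  let Λ := σ → Fin (δ + 1)
  let lm : Λ → MvPolynomial σ AA := fun l => ∏ v, MvPolynomial.X v ^ (l v : ℕ)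
  have hlm : ∀ l x (hx : x ∈ U), MvPolynomial.eval₂ (ph x hx) (fun i => f i x) (lm l) = ∏ v, f v x ^ (l v : ℕ) := by
    intro l x hx
    rw [MvPolynomial.eval₂_prod]
    refine Finset.prod_congr rfl fun v _ => ?_
    rw [MvPolynomial.eval₂_pow, MvPolynomial.eval₂_X]
  obtain ⟨D, hh, hD, hh'⟩ := d.exists_fam (fun l : Λ => MvPolynomial.aeval F (lm l))
  set e := d.m.natDegree with he
  have hhe : ∀ l, (hh l).natDegree < e := by
    intro l
    rcases eq_or_ne (hh l) 0 with h0 | h0
    · rw [h0, natDegree_zero]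
      exact d.pos
    · exact natDegree_lt_natDegree h0 (hh' l).1
  set Nb : ℕ := ∑ l, ∑ i ∈ Finset.range e, ((hh l).coeff i).totalDegree with hNb
  have hNb' : ∀ l i, ((hh l).coeff i).totalDegree ≤ Nb := by
    intro l i
    by_cases hi : i < e
    · have h1 : ((hh l).coeff i).totalDegree ≤ ∑ i ∈ Finset.range e, ((hh l).coeff i).totalDegree :=
        Finset.single_le_sum (f := fun i => ((hh l).coeff i).totalDegree) (fun _ _ => Nat.zero_le _)
          (Finset.mem_range.2 hi)
      exact h1.trans (Finset.single_le_sum (f := fun l => ∑ i ∈ Finset.range e, ((hh l).coeff i).totalDegree)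
        (fun _ _ => Nat.zero_le _) (Finset.mem_univ l))
    · rw [coeff_eq_zero_of_natDegree_lt (by have := hhe l; omega)]
      simp
  let N := Fin e × (d.I → Fin (Nb + 1))
  let MA : N → Λ → AA := fun ν l => ((hh l).coeff ν.1).coeff (ex ν.2)
  choose M hM using fun (ν : N) (l : Λ) => hπ (MA ν l)
  have hMev : ∀ (ν : N) (l : Λ) x (hx : x ∈ U), MvPolynomial.eval (pt y x) (M ν l) = ph x hx (MA ν l) := by
    intro ν l x hx
    rw [← hM, hphπ]
    rfl
  obtain ⟨D₁, hD₁, hirr⟩ := d.irr
  obtain ⟨q₁, hq₁, hq₁'⟩ := hden D₁ hD₁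
  refine ⟨N, inferInstance, inferInstance, M, ?_, ?_, ?_⟩
  · -- the kernel
    intro G hG x hx
    have hG' : ∀ ν, ∑ l, MA ν l * π (G l) = 0 := by
      intro ν
      apply hzero
      intro x hx
      rw [← hG ν x hx, map_sum]
      refine Finset.sum_congr rfl fun l _ => ?_
      rw [map_mul, hMev ν l x hx, hphπ]
      rfl
    have h1 : relPoly hh (fun l => π (G l)) = 0 := by
      apply relPoly_zero hh (fun l => π (G l)) e Nb hhe hNb'
      intro i α
      rw [← hG' (i, α)]
      refine Finset.sum_congr rfl fun l _ => mul_comm _ _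
    have h2 : eval₂ (evI (F ∘ d.ι)) (MvPolynomial.aeval F d.Θ) (relPoly hh fun l => π (G l)) =
        evI (F ∘ d.ι) D * MvPolynomial.aeval F (∑ l, MvPolynomial.C (π (G l)) * lm l) := by
      rw [relPoly, eval₂_finsetSum, map_sum, Finset.mul_sum]
      refine Finset.sum_congr rfl fun l _ => ?_
      rw [eval₂_mul, eval₂_C, ← (hh' l).2, map_mul]
      have h3 : evI (F ∘ d.ι) (MvPolynomial.C (π (G l))) = MvPolynomial.aeval F (MvPolynomial.C (π (G l))) := by
        rw [evI_rename, MvPolynomial.rename_C]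
      rw [h3]
      ring
    rw [h1, eval₂_zero] at h2
    have h4 : evI (F ∘ d.ι) D ≠ 0 := by
      intro h0
      exact hD (d.ind (h0.trans (map_zero _).symm))
    have h5 := (mul_eq_zero.1 h2.symm).resolve_left h4
    rw [hz] at h5
    have h6 := h5 x hx
    rw [← h6, MvPolynomial.eval₂_sum]
    refine Finset.sum_congr rfl fun l _ => ?_
    rw [MvPolynomial.eval₂_mul, MvPolynomial.eval₂_C, ← hlm l x hx, hphπ]
    rfl
  · -- lifting
    obtain ⟨k, r, c, Φ, -, hdet, hΦ⟩ := Pool.Agent.Y890.SP.exists_geninv_minor (Matrix.of MA)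
    set D₂ := ((Matrix.of MA).submatrix r c).det with hD₂
    obtain ⟨q₂, hq₂, hq₂'⟩ := hden D₂ hdet
    refine ⟨q₂, hq₂, fun t htU hqt P hP => ?_⟩
    have hφ : ph t htU D₂ ≠ 0 := fun h0 => hqt (hq₂' t htU h0)
    let κ : ℂ →+* AA := π.comp MvPolynomial.C
    have hκ : ∀ x (hx : x ∈ U) z, ph x hx (κ z) = z := by
      intro x hx z
      change ph x hx (π (MvPolynomial.C z)) = z
      rw [hphπ, MvPolynomial.eval_C]
    let w : Λ → AA := fun l => κ (P l)
    let GA : Λ → AA := fun l => κ (ph t htU D₂)⁻¹ * (D₂ * w l - (Φ.mulVec ((Matrix.of MA).mulVec w)) l)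
    have hMw : ∀ ν, ph t htU ((Matrix.of MA).mulVec w ν) = 0 := by
      intro ν
      rw [Matrix.mulVec, dotProduct, map_sum, ← hP ν]
      refine Finset.sum_congr rfl fun l _ => ?_
      rw [map_mul, hκ, hMev ν l t htU]
      rfl
    have hMG : ∀ ν, ∑ l, MA ν l * GA l = 0 := by
      intro ν
      have h1 : ∑ l, MA ν l * GA l = κ (ph t htU D₂)⁻¹ *
          (D₂ * (Matrix.of MA).mulVec w ν - (Matrix.of MA).mulVec (Φ.mulVec ((Matrix.of MA).mulVec w)) ν) := by
        simp only [Matrix.mulVec, dotProduct, Matrix.of_apply, GA, Finset.mul_sum, mul_sub, Finset.sum_sub_distrib]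
        congr 1
        · exact Finset.sum_congr rfl fun l _ => by ring
        · exact Finset.sum_congr rfl fun l _ => Finset.sum_congr rfl fun ν' _ => Finset.sum_congr rfl fun l' _ => by ring
      rw [h1, Matrix.mulVec_mulVec, Matrix.mulVec_mulVec, hΦ, Matrix.smul_mulVec, Pi.smul_apply,
        smul_eq_mul, sub_self, mul_zero]
    choose G hG using fun l => hπ (GA l)
    refine ⟨G, fun l => ?_, fun ν x hx => ?_⟩
    · have h1 : MvPolynomial.eval (pt y t) (G l) = ph t htU (GA l) := by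
        rw [← hG, hphπ]
        rfl
      have h2 : ph t htU ((Φ.mulVec ((Matrix.of MA).mulVec w)) l) = 0 := by
        rw [Matrix.mulVec, dotProduct, map_sum]
        refine Finset.sum_eq_zero fun ν _ => ?_
        rw [map_mul, hMw, mul_zero]
      rw [h1]
      simp only [GA, map_mul, map_sub, h2, hκ, w, sub_zero]
      field_simp
    · have h1 := congrArg (ph x hx) (hMG ν)
      rw [map_sum, map_zero] at h1
      rw [← h1]
      refine Finset.sum_congr rfl fun l _ => ?_
      rw [map_mul, hMev ν l x hx, ← hG, hphπ]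
      rfl
  · set 𝒢₀ := resG d.m e hh with h𝒢₀
    obtain ⟨𝒢, h𝒢⟩ := MvPolynomial.map_surjective (σ := d.I) (MvPolynomial.map (σ := Λ) π)
      (MvPolynomial.map_surjective π hπ) 𝒢₀
    have hmap : ∀ (t : X → ℂ) (htU : t ∈ U) (P : Λ → ℂ),
        resP (d.m.map (MvPolynomial.map (ph t htU))) e (fun l => (hh l).map (MvPolynomial.map (ph t htU))) P =
          MvPolynomial.map (MvPolynomial.eval₂Hom (MvPolynomial.eval (pt y t)) P) 𝒢 := by
      intro t htU P
      have hφπ : (ph t htU).comp π = MvPolynomial.eval (pt y t) := RingHom.ext fun p => hphπ t htU p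
      have hcomp : (MvPolynomial.eval₂Hom (ph t htU) P).comp (MvPolynomial.map π) =
          MvPolynomial.eval₂Hom (MvPolynomial.eval (pt y t)) P := by
        refine MvPolynomial.ringHom_ext ?_ ?_
        · intro r
          rw [RingHom.comp_apply, MvPolynomial.map_C, MvPolynomial.eval₂Hom_C, MvPolynomial.eval₂Hom_C, ← hφπ]
          rfl
        · intro i
          rw [RingHom.comp_apply, MvPolynomial.map_X, MvPolynomial.eval₂Hom_X', MvPolynomial.eval₂Hom_X']
      rw [resG_map d.m e hh (ph t htU) P, ← h𝒢₀, ← h𝒢, MvPolynomial.map_map, hcomp]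
    refine ⟨d.I, inferInstance, inferInstance, d.ι, 𝒢, q₁, hq₁, fun t ht => hlocind d.I d.ι d.ind t ht, ?_, ?_⟩
    · intro t htU htq P hν h0
      obtain ⟨ν, hν⟩ := hν
      set φ : AA →+* ℂ := ph t htU with hφ
      have hφD : φ D₁ ≠ 0 := fun h0 => htq (hq₁' t htU h0)
      rw [← hmap t htU P] at h0
      have hmd : (d.m.map (MvPolynomial.map (σ := d.I) φ)).natDegree = e := d.monic.natDegree_map _
      have hmd' : (d.m.map (MvPolynomial.map (σ := d.I) φ)).degree = d.m.degree := d.monic.degree_map _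
      have hRd : (relPoly (fun l => (hh l).map (MvPolynomial.map (σ := d.I) φ)) P).degree < d.m.degree := by
        apply relPoly_degree _ _ _ (bot_lt_iff_ne_bot.2 (by rw [Ne, degree_eq_bot]; exact d.monic.ne_zero))
        intro l
        exact lt_of_le_of_lt degree_map_le (hh' l).1
      have h1 := eq_zero_of_resultant (d.m.map (MvPolynomial.map (σ := d.I) φ))
        (relPoly (fun l => (hh l).map (MvPolynomial.map (σ := d.I) φ)) P) (d.monic.map _) (hirr ℂ φ hφD)
        (by rw [hmd']; exact hRd) e (by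
          apply natDegree_le_of_degree_le
          rw [degree_eq_natDegree d.monic.ne_zero] at hRd
          exact hRd.le) (by rw [hmd]; exact h0)
      apply hν
      have h2 := congrArg (fun q => (Polynomial.coeff q (ν.1 : ℕ)).coeff (ex ν.2)) h1
      simp only [relPoly_coeff, coeff_zero, MvPolynomial.coeff_zero, coeff_map, MvPolynomial.coeff_map] at h2
      rw [← h2]
      refine Finset.sum_congr rfl fun l _ => ?_
      rw [hMev ν l t htU]
      exact mul_comm _ _
    · intro t htU P hP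
      rw [← hmap t htU P]
      refine res_eval d lm D hh hh' (ph t htU) (fun i => f i t) ?_ P ?_
      · intro p hp
        exact (hz p).1 hp t htU
      · rw [← hP]
        refine Finset.sum_congr rfl fun l _ => ?_
        rw [← hlm l t htU]

end Pool.Agent.X255.NP
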