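import Pool.Agent.X255.NP.One
import Pool.Agent.X255.NP.Root
import Pool.Agent.X255.GB.Mon

/-!
# The base of the coefficients of a polynomial, with its roots as algebraic functions
-/

set_option autoImplicit false
set_option linter.unusedSectionVars false

open Polynomial Filter Topology

namespace Pool.Agent.X255.NP

open Pool.Agent.X255.GB
open Pool.Agent.Y890.MV
open Pool.Agent.Y124 (Cov)

variable {g : ℕ} {σ : Type}

/-- composition with the coefficients -/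
noncomputable def pull : MvPolynomial (σ ⊕ Fin g) (MvPolynomial (Fin g) ℂ) →+*
    MvPolynomial σ (MvPolynomial (Fin g) ℂ) :=
  MvPolynomial.eval₂Hom (MvPolynomial.C.comp (MvPolynomial.aeval (coP (g := g)) :
    MvPolynomial (Fin g) ℂ →ₐ[ℂ] MvPolynomial (Fin g) ℂ).toRingHom)
    (Sum.elim MvPolynomial.X fun j => MvPolynomial.C (MvPolynomial.X j))

theorem aeval_coP (z : Fin g → ℂ) (a : MvPolynomial (Fin g) ℂ) :
    MvPolynomial.eval z (MvPolynomial.aeval (coP (g := g)) a) = MvPolynomial.eval (co z) a := by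
  have h1 : (MvPolynomial.eval z).comp ((MvPolynomial.aeval (coP (g := g)) :
      MvPolynomial (Fin g) ℂ →ₐ[ℂ] MvPolynomial (Fin g) ℂ) : _ →+* _) = MvPolynomial.eval (co z) := by
    refine MvPolynomial.ringHom_ext (fun r => ?_) fun i => ?_
    · simp
    · simp [coP_eval]
  exact RingHom.congr_fun h1 a

theorem evM_pull (f : σ → (Fin g → ℂ) → ℂ) (ζ : (Fin g → ℂ) → Fin g → ℂ) (z : Fin g → ℂ) (hz : ζ (co z) = z)
    (p : MvPolynomial (σ ⊕ Fin g) (MvPolynomial (Fin g) ℂ)) :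
    evM f z (pull p) = evM (Sum.elim (fun v a => f v (ζ a)) fun j a => ζ a j) (co z) p := by
  have h1 : (MvPolynomial.eval₂Hom (MvPolynomial.eval z) fun i => f i z).comp pull =
      MvPolynomial.eval₂Hom (MvPolynomial.eval (co z)) fun i =>
        Sum.elim (fun v a => f v (ζ a)) (fun j a => ζ a j) i (co z) := by
    refine MvPolynomial.ringHom_ext (fun r => ?_) fun i => ?_
    · rw [RingHom.comp_apply, pull, MvPolynomial.eval₂Hom_C, MvPolynomial.eval₂Hom_C, RingHom.comp_apply,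
        MvPolynomial.eval₂Hom_C]
      exact aeval_coP z r
    · rw [RingHom.comp_apply, pull, MvPolynomial.eval₂Hom_X', MvPolynomial.eval₂Hom_X']
      rcases i with v | j
      · rw [Sum.elim_inl, MvPolynomial.eval₂Hom_X', Sum.elim_inl, hz]
      · rw [Sum.elim_inr, MvPolynomial.eval₂Hom_C, MvPolynomial.eval_X, Sum.elim_inr, hz]
  exact RingHom.congr_fun h1 p

/-- charts of the space of coefficients -/
structure IsChart (U W N : Set (Fin g → ℂ)) (ζ : (Fin g → ℂ) → Fin g → ℂ) : Prop where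
  oW : IsOpen W
  cW : IsPreconnected W
  nW : W.Nonempty
  oN : IsOpen N
  sN : N ⊆ U
  an : ∀ i, AnalyticOnNhd ℂ (fun a => ζ a i) W
  inv : ∀ a ∈ W, ζ a ∈ N ∧ co (ζ a) = a
  inv' : ∀ z ∈ N, co z ∈ W ∧ ζ (co z) = z ∧ Function.Injective z

theorem IsChart.an_comp {U W N : Set (Fin g → ℂ)} {ζ : (Fin g → ℂ) → Fin g → ℂ} (h : IsChart U W N ζ)
    {f : (Fin g → ℂ) → ℂ} (hf : AnalyticOnNhd ℂ f U) : AnalyticOnNhd ℂ (fun a => f (ζ a)) W := by
  intro a ha
  have h1 : AnalyticAt ℂ ζ a := by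
    have h2 : AnalyticAt ℂ (fun a => fun i => ζ a i) a := AnalyticAt.pi fun i => h.an i a ha
    exact h2
  exact (hf _ (h.sN (h.inv a ha).1)).comp h1

theorem IsChart.algY {U W N : Set (Fin g → ℂ)} {ζ : (Fin g → ℂ) → Fin g → ℂ} (h : IsChart U W N ζ) :
    AlgY W (fun j a => ζ a j) := by
  intro j
  refine ⟨X ^ g + ∑ i : Fin g, C (MvPolynomial.X i) * X ^ (i : ℕ), ?_, ?_⟩
  · intro h0
    obtain ⟨a, ha⟩ := h.nW
    have h1 := congrArg (fun p => (p.map (MvPolynomial.eval a))) h0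
    have h2 : (X ^ g + ∑ i : Fin g, C (MvPolynomial.X i) * X ^ (i : ℕ) : (MvPolynomial (Fin g) ℂ)[X]).map
        (MvPolynomial.eval a) = mp a := by
      simp [mp, Polynomial.map_sum]
    simp only [h2, Polynomial.map_zero] at h1
    exact (mp_monic a).ne_zero h1
  · intro a ha
    have h2 : (X ^ g + ∑ i : Fin g, C (MvPolynomial.X i) * X ^ (i : ℕ) : (MvPolynomial (Fin g) ℂ)[X]).map
        (MvPolynomial.eval a) = mp a := by
      simp [mp, Polynomial.map_sum]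
    rw [h2]
    have h3 := (h.inv a ha).2
    have h4 : mp a = mp (co (ζ a)) := by rw [h3]
    rw [h4, mp_co, eval_prod, Finset.prod_eq_zero (Finset.mem_univ j) (by simp)]

theorem IsChart.regY {U W N : Set (Fin g → ℂ)} {ζ : (Fin g → ℂ) → Fin g → ℂ} (h : IsChart U W N ζ)
    {f : σ → (Fin g → ℂ) → ℂ} (hreg : RegularM U f) :
    RegularY W (fun j a => ζ a j) (fun v a => f v (ζ a)) := by
  intro V w P Q R hVo hVn hVW hw hR hQ hPQ hRw
  set V' : Set (Fin g → ℂ) := {z | z ∈ N ∧ co z ∈ V} with hV'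
  have hV'o : IsOpen V' := h.oN.inter (hVo.preimage co_cont)
  have hV'n : V'.Nonempty := by
    obtain ⟨a, ha⟩ := hVn
    refine ⟨ζ a, (h.inv a (hVW ha)).1, ?_⟩
    rw [(h.inv a (hVW ha)).2]
    exact ha
  have hco : ∀ z, AnalyticAt ℂ (co (g := g)) z := by
    intro z
    have h2 : AnalyticAt ℂ (fun z => fun i => co (g := g) z i) z := AnalyticAt.pi fun i => co_an i Set.univ z trivial
    exact h2
  have hevR : ∀ z, ((R.map ((MvPolynomial.aeval (coP (g := g)) :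
      MvPolynomial (Fin g) ℂ →ₐ[ℂ] MvPolynomial (Fin g) ℂ) : _ →+* _)).map (MvPolynomial.eval z)) =
      R.map (MvPolynomial.eval (co z)) := by
    intro z
    rw [Polynomial.map_map]
    congr 1
    exact RingHom.ext fun a => aeval_coP z a
  obtain ⟨p, q, hq, hpq⟩ := hreg V' (fun z => w (co z)) (pull P) (pull Q)
    (R.map ((MvPolynomial.aeval (coP (g := g)) : MvPolynomial (Fin g) ℂ →ₐ[ℂ] MvPolynomial (Fin g) ℂ) : _ →+* _))
    hV'o hV'n (fun z hz => h.sN hz.1) (fun z hz => (hw _ hz.2).comp (hco z)) (by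
      intro h0
      apply hR
      ext1 i
      rw [coeff_zero]
      refine poly_zero h.oW h.nW _ fun a ha => ?_
      have h1 := congrArg (fun p : (MvPolynomial (Fin g) ℂ)[X] => MvPolynomial.eval (ζ a) (p.coeff i)) h0
      simp only [coeff_map, coeff_zero, map_zero] at h1
      have h2 := aeval_coP (ζ a) (R.coeff i)
      rw [(h.inv a ha).2] at h2
      rw [← h2]
      exact h1)
    (by
      intro z hz
      rw [evM_pull f ζ z (h.inv' z hz.1).2.1]
      exact hQ _ hz.2)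
    (by
      intro z hz
      rw [evM_pull f ζ z (h.inv' z hz.1).2.1, evM_pull f ζ z (h.inv' z hz.1).2.1]
      exact hPQ _ hz.2)
    (by
      intro z hz
      rw [hevR]
      exact hRw _ hz.2)
  have hev : ∀ (r : MvPolynomial (Fin g) ℂ) (a : Fin g → ℂ),
      evM (fun j a => ζ a j) a (MvPolynomial.map MvPolynomial.C r) = MvPolynomial.eval (ζ a) r := by
    intro r a
    rw [evM, MvPolynomial.eval₂_map]
    have h1 : (MvPolynomial.eval a).comp (MvPolynomial.C (σ := Fin g) (R := ℂ)) = RingHom.id ℂ :=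
      RingHom.ext fun x => by simp
    rw [h1]
    rfl
  refine ⟨MvPolynomial.map MvPolynomial.C p, MvPolynomial.map MvPolynomial.C q, ?_, ?_⟩
  · by_contra hcon
    push Not at hcon
    apply hq
    refine poly_zero hV'o hV'n q fun z hz => ?_
    have h1 := hcon (co z) (h.inv' z hz.1).1
    rw [hev, (h.inv' z hz.1).2.1] at h1
    exact h1
  · intro a ha
    rw [hev, hev]
    have h1 := hpq (ζ a) ⟨(h.inv a (hVW ha)).1, by rw [(h.inv a (hVW ha)).2]; exact ha⟩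
    rw [(h.inv a (hVW ha)).2] at h1
    exact h1

/-- points at which a relation is not the value of a functional relation -/
def ExcN {X Y : Type} [Fintype σ] [DecidableEq σ] (δ : ℕ) {h : Type} [Fintype h] (U : Set (X → ℂ))
    (y : Y → (X → ℂ) → ℂ) (f : σ → (X → ℂ) → ℂ) (Lc : Set (X → ℂ)) (m : ℕ) (ξ : h → ℂ) (A T : ℝ) : Set (X → ℚ) :=
  {s | (∀ i, Y120.HtLe ℚ T (s i)) ∧ (fun i => algebraMap ℚ ℂ (s i)) ∈ Lc ∧
    ∃ (F : IntermediateField ℚ ℂ) (_ : FiniteDimensional ℚ F), Module.finrank ℚ F ≤ m ∧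
      (∀ j, HF F (T ^ A) (y j fun i => algebraMap ℚ ℂ (s i))) ∧ ∃ c : (σ → Fin (δ + 1)) → h → ℂ,
      (∀ l i, AE F (T ^ A) (c l i)) ∧
      ∑ l, (∑ i, ξ i * c l i) * ∏ v, f v (fun i => algebraMap ℚ ℂ (s i)) ^ (l v : ℕ) = 0 ∧
      ¬ ∃ G : (σ → Fin (δ + 1)) → MvPolynomial (Y ⊕ X) ℂ,
        (∀ l, MvPolynomial.eval (pt y fun i => algebraMap ℚ ℂ (s i)) (G l) = ∑ i, ξ i * c l i) ∧
        ∀ x ∈ U, ∑ l, MvPolynomial.eval (pt y x) (G l) * ∏ v, f v x ^ (l v : ℕ) = 0}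

/-- **Few rational points with exceptional relations over fields of bounded degree.** -/
theorem excN_cov {X Y : Type} [Fintype X] [DecidableEq X] [Nonempty X] [Fintype Y] [DecidableEq Y] [Fintype σ]
    [DecidableEq σ] {U : Set (X → ℂ)} {y : Y → (X → ℂ) → ℂ} {f : σ → (X → ℂ) → ℂ} (hU : IsPreconnected U)
    (hUo : IsOpen U) (hne : U.Nonempty) (hy : ∀ j, AnalyticOnNhd ℂ (y j) U) (hf : ∀ i, AnalyticOnNhd ℂ (f i) U)
    (halg : AlgY U y) (hreg : RegularY U y f) (Lc : Set (X → ℂ))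
    (hLc : IsCompact Lc) (hLU : Lc ⊆ U) (δ : ℕ) (h : Type) [Fintype h] [DecidableEq h] (m : ℕ) (ξ : h → ℂ) (A ε : ℝ)
    (hε : 0 < ε) : ∃ (D : ℕ) (C T₀ : ℝ), 0 ≤ C ∧ 2 ≤ T₀ ∧ ∀ T : ℝ, T₀ ≤ T →
      Cov D ⌊C * T ^ ε⌋₊ ((fun (s : X → ℚ) i => algebraMap ℚ ℂ (s i)) '' ExcN δ U y f Lc m ξ A T) := by
  obtain ⟨N, _, _, M, h1, ⟨q₂, hq₂, h2⟩, I, _, _, ι, 𝒢, q₁, hq₁, hind, hne', hev⟩ :=
    algY hU hUo hne hy hf halg hreg δ
  obtain ⟨D, C, T₀, hC, hT₀, H⟩ := oneN hf Lc hLc hLU δ M ι 𝒢 q₁ hq₁ hind hne' hev h m ξ A ε hε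
  refine ⟨max D q₂.totalDegree, C + 1, T₀, by positivity, hT₀, ?_⟩
  intro T hT
  have hT1 : 1 ≤ T := by linarith
  set Z : Set (X → ℂ) := {t | MvPolynomial.eval t q₂ = 0} with hZ
  have hZcov : Cov q₂.totalDegree 1 Z := by
    refine ⟨{q₂}, by simp, ?_, ?_⟩
    · intro P hP
      rw [Finset.mem_singleton] at hP
      subst hP
      exact ⟨hq₂, le_rfl⟩
    · intro t ht
      exact ⟨q₂, Finset.mem_singleton_self _, ht⟩
  have hcov := H T hT
  have hsub : (fun (s : X → ℚ) i => algebraMap ℚ ℂ (s i)) '' ExcN δ U y f Lc m ξ A T ⊆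
      ((fun (s : X → ℚ) i => algebraMap ℚ ℂ (s i)) '' BadN δ M y f Lc m ξ A T) ∪ Z := by
    rintro _ ⟨s, ⟨hs1, hs2, F, hF, hFm, hs3, c, hc1, hc2, hc3⟩, rfl⟩
    by_cases hsZ : (fun i => algebraMap ℚ ℂ (s i)) ∈ Z
    · exact Or.inr hsZ
    left
    refine ⟨s, ⟨hs1, hs2, F, hF, hFm, hs3, c, hc1, hc2, ?_⟩, rfl⟩
    by_contra hcon
    push Not at hcon
    obtain ⟨G, hG1, hG2⟩ := h2 _ (hLU hs2) hsZ _ hcon
    exact hc3 ⟨G, hG1, h1 G hG2⟩
  have h4 := (hcov.mono (le_max_left D q₂.totalDegree) le_rfl (Set.Subset.refl _)).union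
    (hZcov.mono (le_max_right D q₂.totalDegree) le_rfl (Set.Subset.refl _))
  refine h4.mono le_rfl ?_ hsub
  have h6 : (1 : ℝ) ≤ T ^ ε := Real.one_le_rpow hT1 hε.le
  have h7 : 0 ≤ C * T ^ ε := by positivity
  rw [← Nat.floor_add_one h7]
  apply Nat.floor_le_floor
  nlinarith

end Pool.Agent.X255.NP
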