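import Pool.Agent.X255.NP.Core

/-!
# Algebraic integers of bounded size, and decompositions of complex numbers over the algebraic numbers
-/

set_option autoImplicit false
set_option linter.unusedSectionVars false

namespace Pool.Agent.X255.NP

open NumberField MvPolynomial

theorem AI.of_emb {R : ℝ} {c : ℂ} (E : IntermediateField ℚ ℂ) [FiniteDimensional ℚ E] (hc : c ∈ E)
    (hi : IsIntegral ℤ c) (h : ∀ σ : E →+* ℂ, ‖σ ⟨c, hc⟩‖ ≤ R) : AI R c := by
  have : NumberField E := ⟨⟩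
  refine ⟨hi, fun r hr => ?_⟩
  have h1 := Embeddings.range_eval_eq_rootSet_minpoly E ℂ (⟨c, hc⟩ : E)
  have h2 : minpoly ℚ (⟨c, hc⟩ : E) = minpoly ℚ c := by
    rw [← minpoly.algebraMap_eq (algebraMap E ℂ).injective]
    rfl
  have h3 : r ∈ (minpoly ℚ (⟨c, hc⟩ : E)).rootSet ℂ := by
    rw [h2, Polynomial.mem_rootSet]
    refine ⟨minpoly.ne_zero ?_, hr⟩
    exact hi.tower_top
  rw [← h1] at h3
  obtain ⟨σ, rfl⟩ := h3
  exact h σ

/-- elements of `E` which are algebraic integers of size at most `R` -/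
def AE (E : IntermediateField ℚ ℂ) (R : ℝ) (c : ℂ) : Prop := c ∈ E ∧ AI R c

section AE

variable {E : IntermediateField ℚ ℂ} [FiniteDimensional ℚ E] {R R' : ℝ} {c c' : ℂ}

theorem AE.mono (h : AE E R c) (hR : R ≤ R') : AE E R' c := ⟨h.1, h.2.mono hR⟩

theorem AE.le (h : AE E R c) {E' : IntermediateField ℚ ℂ} (hE : E ≤ E') : AE E' R c := ⟨hE h.1, h.2⟩

theorem AE.mul (h : AE E R c) (h' : AE E R' c') : AE E (R * R') (c * c') := by
  refine ⟨mul_mem h.1 h'.1, AI.of_emb E (mul_mem h.1 h'.1) (h.2.1.mul h'.2.1) fun σ => ?_⟩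
  have h1 : (⟨c * c', mul_mem h.1 h'.1⟩ : E) = ⟨c, h.1⟩ * ⟨c', h'.1⟩ := rfl
  rw [h1, map_mul, norm_mul]
  exact mul_le_mul (h.2.emb E h.1 σ) (h'.2.emb E h'.1 σ) (norm_nonneg _)
    ((norm_nonneg _).trans (h.2.emb E h.1 σ))

theorem AE.add (h : AE E R c) (h' : AE E R' c') : AE E (R + R') (c + c') := by
  refine ⟨add_mem h.1 h'.1, AI.of_emb E (add_mem h.1 h'.1) (h.2.1.add h'.2.1) fun σ => ?_⟩
  have h1 : (⟨c + c', add_mem h.1 h'.1⟩ : E) = ⟨c, h.1⟩ + ⟨c', h'.1⟩ := rfl
  rw [h1, map_add]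
  exact (norm_add_le _ _).trans (add_le_add (h.2.emb E h.1 σ) (h'.2.emb E h'.1 σ))

theorem AE.intCast (n : ℤ) (h : |(n : ℝ)| ≤ R) : AE E R (n : ℂ) := by
  have hm : (n : ℂ) ∈ E := intCast_mem E n
  refine ⟨hm, AI.of_emb E hm (isIntegral_algebraMap (R := ℤ) (A := ℂ) (x := n)) fun σ => ?_⟩
  have h1 : (⟨(n : ℂ), hm⟩ : E) = (n : E) := Subtype.ext (by simp)
  rw [h1, map_intCast]
  simpa using h

theorem AE.one : AE E 1 (1 : ℂ) := by
  have h := AE.intCast (E := E) (R := 1) 1 (by simp)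
  simpa using h

theorem AE.zero (hR : 0 ≤ R) : AE E R (0 : ℂ) := by
  have h := AE.intCast (E := E) (R := R) 0 (by simpa using hR)
  simpa using h

theorem AE.pow (h : AE E R c) (n : ℕ) : AE E (R ^ n) (c ^ n) := by
  induction n with
  | zero => simpa using AE.one (E := E)
  | succ n ih =>
    rw [pow_succ, pow_succ]
    exact ih.mul h

theorem AE.prod {κ : Type*} (s : Finset κ) (c : κ → ℂ) (R : κ → ℝ) (h : ∀ i ∈ s, AE E (R i) (c i)) :
    AE E (∏ i ∈ s, R i) (∏ i ∈ s, c i) := by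
  classical
  induction s using Finset.induction_on with
  | empty => simpa using AE.one (E := E)
  | insert a s ha ih =>
    rw [Finset.prod_insert ha, Finset.prod_insert ha]
    exact (h a (Finset.mem_insert_self _ _)).mul (ih fun i hi => h i (Finset.mem_insert_of_mem hi))

theorem AE.sum {κ : Type*} (s : Finset κ) (c : κ → ℂ) (R : κ → ℝ) (h : ∀ i ∈ s, AE E (R i) (c i)) :
    AE E (∑ i ∈ s, R i) (∑ i ∈ s, c i) := by
  classical
  induction s using Finset.induction_on with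
  | empty => simpa using AE.zero (E := E) (R := 0) le_rfl
  | insert a s ha ih =>
    rw [Finset.sum_insert ha, Finset.sum_insert ha]
    exact (h a (Finset.mem_insert_self _ _)).add (ih fun i hi => h i (Finset.mem_insert_of_mem hi))

end AE

theorem exists_AI {c : ℂ} (h : IsIntegral ℤ c) : ∃ R, AI R c := by
  classical
  have h0 : minpoly ℚ c ≠ 0 := minpoly.ne_zero h.tower_top
  refine ⟨∑ r ∈ ((minpoly ℚ c).map (algebraMap ℚ ℂ)).roots.toFinset, ‖r‖, h, fun r hr => ?_⟩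
  refine Finset.single_le_sum (f := fun r : ℂ => ‖r‖) (fun _ _ => norm_nonneg _) ?_
  rw [Multiset.mem_toFinset, Polynomial.mem_roots (Polynomial.map_ne_zero h0), Polynomial.IsRoot,
    Polynomial.eval_map]
  exact hr

/-- finitely many complex numbers in a basis over the algebraic numbers -/
theorem exists_decomp {ι : Type} [Finite ι] (κ : ι → ℂ) : ∃ (r : ℕ) (η : Fin r → ℂ) (κ' : ι → Fin r → ℂ)
    (E₀ : IntermediateField ℚ ℂ) (_ : FiniteDimensional ℚ E₀) (R : ℝ), 1 ≤ R ∧ (∀ s j, AE E₀ R (κ' s j)) ∧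
      (∀ s, κ s = ∑ j, κ' s j * η j) ∧
      ∀ a : Fin r → ℂ, (∀ j, IsAlgebraic ℚ (a j)) → ∑ j, a j * η j = 0 → ∀ j, a j = 0 := by
  classical
  have := Fintype.ofFinite ι
  let QB := algebraicClosure ℚ ℂ
  let V : Submodule QB ℂ := Submodule.span QB (Set.range κ)
  have hfin : Module.Finite QB V := Module.Finite.span_of_finite QB (Set.finite_range κ)
  let b := Module.finBasis QB V
  set r := Module.finrank QB V with hr
  let v : ι → V := fun s => ⟨κ s, Submodule.subset_span ⟨s, rfl⟩⟩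
  let c : ι → Fin r → QB := fun s j => b.repr (v s) j
  have hsum : ∀ s, κ s = ∑ j, (c s j : ℂ) * (b j : ℂ) := by
    intro s
    have h1 := congrArg (fun x : V => (x : ℂ)) (b.sum_repr (v s))
    simp only [Submodule.coe_sum, Submodule.coe_smul] at h1
    exact h1.symm
  have halg : ∀ s j, IsAlgebraic ℤ (c s j : ℂ) := by
    intro s j
    have h1 : IsAlgebraic ℚ (c s j : ℂ) := mem_algebraicClosure_iff.1 (c s j).2
    exact (IsFractionRing.isAlgebraic_iff ℤ ℚ ℂ).2 h1
  have hk : ∀ s j, ∃ k : ℤ, k ≠ 0 ∧ IsIntegral ℤ ((k : ℂ) * (c s j : ℂ)) := by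
    intro s j
    obtain ⟨k, hk, hk'⟩ := (halg s j).exists_integral_multiple
    exact ⟨k, hk, by rw [zsmul_eq_mul] at hk'; exact hk'⟩
  choose k hk0 hk using hk
  let kk : ℤ := ∏ p : ι × Fin r, k p.1 p.2
  have hkk : kk ≠ 0 := Finset.prod_ne_zero_iff.2 fun p _ => hk0 _ _
  have hkkC : (kk : ℂ) ≠ 0 := by exact_mod_cast hkk
  have hint : ∀ s j, IsIntegral ℤ ((kk : ℂ) * (c s j : ℂ)) := by
    intro s j
    have h1 : kk = (∏ p ∈ Finset.univ.erase (s, j), k p.1 p.2) * k s j :=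
      (Finset.prod_erase_mul _ _ (Finset.mem_univ (s, j))).symm
    rw [h1, Int.cast_mul, mul_assoc]
    exact IsIntegral.mul (isIntegral_algebraMap (R := ℤ) (A := ℂ)) (hk s j)
  choose Rf hRf using fun (p : ι × Fin r) => exists_AI (hint p.1 p.2)
  let E₀ : IntermediateField ℚ ℂ := IntermediateField.adjoin ℚ
    (Set.range fun p : ι × Fin r => (kk : ℂ) * (c p.1 p.2 : ℂ))
  have hE₀ : FiniteDimensional ℚ E₀ := IntermediateField.finiteDimensional_adjoin (by
    rintro _ ⟨p, rfl⟩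
    exact (hint p.1 p.2).tower_top)
  refine ⟨r, fun j => (b j : ℂ) / kk, fun s j => (kk : ℂ) * (c s j : ℂ), E₀, hE₀, 1 + ∑ p, |Rf p|, ?_, ?_, ?_, ?_⟩
  · have : 0 ≤ ∑ p, |Rf p| := Finset.sum_nonneg fun _ _ => abs_nonneg _
    linarith
  · intro s j
    refine ⟨IntermediateField.subset_adjoin _ _ ⟨(s, j), rfl⟩, (hRf (s, j)).mono ?_⟩
    have h1 := Finset.single_le_sum (f := fun p => |Rf p|) (fun _ _ => abs_nonneg _) (Finset.mem_univ (s, j))
    have h2 := le_abs_self (Rf (s, j))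
    linarith
  · intro s
    rw [hsum]
    refine Finset.sum_congr rfl fun j _ => ?_
    field_simp
  · intro a ha h0
    have h1 : ∑ j, (⟨a j, mem_algebraicClosure_iff.2 (ha j)⟩ : QB) • b j = 0 := by
      apply Subtype.ext
      simp only [Submodule.coe_sum, Submodule.coe_smul, ZeroMemClass.coe_zero]
      have h2 : (kk : ℂ) * ∑ j, a j * ((b j : ℂ) / kk) = 0 := by rw [h0, mul_zero]
      rw [← h2, Finset.mul_sum]
      refine Finset.sum_congr rfl fun j _ => ?_
      change a j * (b j : ℂ) = _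
      field_simp
    intro j
    have h2 := Fintype.linearIndependent_iff.1 b.linearIndependent _ h1 j
    exact congrArg Subtype.val h2

end Pool.Agent.X255.NP
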