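import Pool.Agent.X255.NP.Norm
import Pool.Agent.Y890.MV.Int

/-!
# Relations with algebraic coefficients give relations with rational coefficients
-/

set_option autoImplicit false
set_option linter.unusedSectionVars false

namespace Pool.Agent.X255.NP

open NumberField MvPolynomial
open Pool.Agent.Y124 (RelK sV sV_apply sV_inj)
open Pool.Agent.Y890.MV (relK_of_poly1)

/-- an algebraic integer all of whose conjugates are at most `R` -/
def AI (R : ℝ) (c : ℂ) : Prop := IsIntegral ℤ c ∧ ∀ r : ℂ, Polynomial.aeval r (minpoly ℚ c) = 0 → ‖r‖ ≤ R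

theorem AI.mono {R R' : ℝ} {c : ℂ} (h : AI R c) (hR : R ≤ R') : AI R' c := ⟨h.1, fun r hr => (h.2 r hr).trans hR⟩

theorem AI.emb {R : ℝ} {c : ℂ} (h : AI R c) (E : IntermediateField ℚ ℂ) (hc : c ∈ E) (σ : E →+* ℂ) :
    ‖σ ⟨c, hc⟩‖ ≤ R := by
  apply h.2
  have h1 : Polynomial.aeval (⟨c, hc⟩ : E) (minpoly ℚ c) = 0 := by
    have h2 : Polynomial.aeval ((algebraMap E ℂ) (⟨c, hc⟩ : E)) (minpoly ℚ c) = 0 := minpoly.aeval ℚ c
    rw [Polynomial.aeval_algebraMap_apply] at h2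
    exact (map_eq_zero_iff _ (algebraMap E ℂ).injective).1 h2
  have h2 := Polynomial.aeval_algHom_apply σ.toRatAlgHom (⟨c, hc⟩ : E) (minpoly ℚ c)
  rw [h1, map_zero] at h2
  exact h2

theorem AI.int {R : ℝ} {c : ℂ} (h : AI R c) (E : IntermediateField ℚ ℂ) (hc : c ∈ E) :
    ∃ x : 𝓞 E, ((x : E) : ℂ) = c := by
  have h1 : IsIntegral ℤ (⟨c, hc⟩ : E) := by
    have h2 : IsIntegral ℤ (algebraMap E ℂ ⟨c, hc⟩) := h.1
    exact (isIntegral_algebraMap_iff (algebraMap E ℂ).injective).1 h2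
  exact ⟨⟨⟨c, hc⟩, h1⟩, rfl⟩

/-- substitution of numbers for some of the variables -/
noncomputable def Φ {I J : Type} (η : J → ℂ) : MvPolynomial (I ⊕ J) ℂ →+* MvPolynomial I ℂ :=
  eval₂Hom C (Sum.elim X fun j => C (η j))

/-- pairs of exponents -/
noncomputable def pair {I J : Type} (α : I →₀ ℕ) (β : J →₀ ℕ) : I ⊕ J →₀ ℕ := Finsupp.sumElim α β

theorem pair_inl {I J : Type} (α : I →₀ ℕ) (β : J →₀ ℕ) (i : I) : pair α β (Sum.inl i) = α i := rfl

theorem pair_inr {I J : Type} (α : I →₀ ℕ) (β : J →₀ ℕ) (j : J) : pair α β (Sum.inr j) = β j := rfl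

variable {I J : Type} [Fintype I] [DecidableEq I] [Fintype J] [DecidableEq J]

theorem Φ_monomial (η : J → ℂ) (m : I ⊕ J →₀ ℕ) (c : ℂ) : Φ η (monomial m c) =
    monomial (Finsupp.equivFunOnFinite.symm fun i => m (Sum.inl i)) (c * ∏ j, η j ^ m (Sum.inr j)) := by
  rw [Φ, eval₂Hom_monomial, Finsupp.prod_fintype _ _ (fun _ => pow_zero _), Fintype.prod_sum_type]
  simp only [Sum.elim_inl, Sum.elim_inr]
  rw [monomial_eq (s := Finsupp.equivFunOnFinite.symm fun i => m (Sum.inl i)),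
    Finsupp.prod_fintype _ _ (fun _ => pow_zero _)]
  simp only [← map_pow, ← map_prod, map_mul, Finsupp.coe_equivFunOnFinite_symm]
  ring

theorem Φ_coeff (η : J → ℂ) (n : ℕ) (p : MvPolynomial (I ⊕ J) ℂ) (hp : ∀ m ∈ p.support, ∀ j, m (Sum.inr j) ≤ n)
    (s : I →₀ ℕ) : (Φ η p).coeff s = ∑ β : J → Fin (n + 1), (∏ j, η j ^ (β j : ℕ)) * p.coeff (pair s (sV β)) := by
  classical
  have h1 : Φ η p = ∑ m ∈ p.support, Φ η (monomial m (p.coeff m)) := by
    conv_lhs => rw [p.as_sum, map_sum]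
  have h2 : ∀ t, p.coeff t = ∑ m ∈ p.support, (monomial m (p.coeff m)).coeff t := by
    intro t
    conv_lhs => rw [p.as_sum, coeff_sum]
  rw [h1, coeff_sum]
  simp only [h2 (pair s _), Finset.mul_sum]
  rw [Finset.sum_comm]
  refine Finset.sum_congr rfl fun m hm => ?_
  rw [Φ_monomial, coeff_monomial]
  let β₀ : J → Fin (n + 1) := fun j => ⟨m (Sum.inr j), Nat.lt_succ_of_le (hp m hm j)⟩
  split_ifs with h
  · rw [Finset.sum_eq_single β₀]
    · have h3 : m = pair s (sV β₀) := by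
        ext o
        rcases o with i | j
        · rw [pair_inl, ← h]
          rfl
        · rfl
      rw [coeff_monomial, if_pos h3, mul_comm]
    · intro β _ hβ
      rw [coeff_monomial, if_neg, mul_zero]
      intro h3
      apply hβ
      funext j
      apply Fin.ext
      have h4 := DFunLike.congr_fun h3 (Sum.inr j)
      exact h4.symm
    · intro h3
      exact absurd (Finset.mem_univ _) h3
  · symm
    refine Finset.sum_eq_zero fun β _ => ?_
    rw [coeff_monomial, if_neg, mul_zero]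
    intro h3
    apply h
    ext i
    have h4 := DFunLike.congr_fun h3 (Sum.inl i)
    exact h4

/-- **Relations with algebraic coefficients give relations with rational coefficients.** -/
theorem relK_core (E : IntermediateField ℚ ℂ) [FiniteDimensional ℚ E] (n : ℕ) (hn : Module.finrank ℚ E ≤ n)
    (S : Finset (I →₀ ℕ)) (dd : ℕ) (hS : ∀ α ∈ S, ∀ i, α i ≤ dd) (q : J → (I →₀ ℕ) → ℂ)
    (hq : ∀ j, ∀ α ∈ S, q j α ∈ E) (R : ℝ) (hR : 1 ≤ R) (hqR : ∀ j, ∀ α ∈ S, AI R (q j α)) (η : J → ℂ)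
    (hη : ∀ a : J → ℂ, (∀ j, IsAlgebraic ℚ (a j)) → ∑ j, a j * η j = 0 → ∀ j, a j = 0)
    (hne : ∃ j, ∃ α ∈ S, q j α ≠ 0) (v : I → ℂ)
    (hv : ∑ α ∈ S, (∑ j, q j α * η j) * ∏ i, v i ^ α i = 0) (δ : ℝ) (hδ : 0 ≤ δ) :
    RelK ℚ (algebraMap ℚ ℂ) (fun β : J → Fin (n + 1) => ∏ j, η j ^ (β j : ℕ))
      (fun l : I → Fin (n * dd + 1) => ∏ i, v i ^ (l i : ℕ)) (((Fintype.card J * S.card : ℕ) * R) ^ n) δ := by
  classical
  have : NumberField E := ⟨⟩
  choose! x hx using fun j α (hα : α ∈ S) => (hqR j α hα).int E (hq j α hα)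
  set Q : MvPolynomial (I ⊕ J) (𝓞 E) := ∑ j, ∑ α ∈ S, monomial (pair α (Finsupp.single j 1)) (x j α) with hQ
  obtain ⟨N₀, hN₀⟩ := exists_norm E Q
  set Qσ : (E →+* ℂ) → MvPolynomial (I ⊕ J) ℂ := fun σ => Q.map (σ.comp (algebraMap (𝓞 E) E)) with hQσ
  have hQσ' : ∀ σ, Qσ σ = ∑ j, ∑ α ∈ S, monomial (pair α (Finsupp.single j 1)) (σ (x j α : E)) := by
    intro σ
    simp only [hQσ, hQ, map_sum, map_monomial]
    rfl
  have hxσ : ∀ (σ : E →+* ℂ) j α, α ∈ S → ‖σ (x j α : E)‖ ≤ R := by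
    intro σ j α hα
    have h1 := (hqR j α hα).emb E (hq j α hα) σ
    have h2 : (x j α : E) = ⟨q j α, hq j α hα⟩ := Subtype.ext (hx j α hα)
    rw [h2]
    exact h1
  obtain ⟨j₀, α₀, hα₀, hq₀⟩ := hne
  -- bounds
  set R' : ℝ := (Fintype.card J * S.card : ℕ) * R with hR'
  have hcard : 1 ≤ Fintype.card J * S.card :=
    Nat.mul_pos (Fintype.card_pos_iff.2 ⟨j₀⟩) (Finset.card_pos.2 ⟨α₀, hα₀⟩)
  have hR'1 : 1 ≤ R' := by
    have h1 : (1 : ℝ) ≤ (Fintype.card J * S.card : ℕ) := by exact_mod_cast hcard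
    rw [hR']
    nlinarith
  have hl1 : ∀ σ, l1 (Qσ σ) ≤ R' := by
    intro σ
    rw [hQσ']
    refine (l1_sum _ _).trans ?_
    have h1 : ∀ j, l1 (∑ α ∈ S, monomial (pair α (Finsupp.single j 1)) (σ (x j α : E))) ≤ S.card * R := by
      intro j
      refine (l1_sum _ _).trans ?_
      rw [← nsmul_eq_mul]
      refine Finset.sum_le_card_nsmul _ _ _ fun α hα => ?_
      rw [l1_monomial]
      exact hxσ σ j α hα
    refine (Finset.sum_le_sum fun j _ => h1 j).trans (le_of_eq ?_)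
    rw [Finset.sum_const, Finset.card_univ, nsmul_eq_mul, hR']
    push_cast
    ring
  have hcardσ : (Finset.univ : Finset (E →+* ℂ)).card ≤ n := by
    rw [Finset.card_univ, Embeddings.card]
    exact hn
  have hNl1 : l1 (N₀.map (Int.castRingHom ℂ)) ≤ R' ^ n := by
    rw [hN₀]
    refine (l1_prod _ _ R' (fun σ _ => hl1 σ) (by linarith)).trans ?_
    exact pow_le_pow_right₀ hR'1 hcardσ
  have hcoef : ∀ m, |((N₀.coeff m : ℤ) : ℝ)| ≤ R' ^ n := by
    intro m
    have h1 := coeff_le_l1 (N₀.map (Int.castRingHom ℂ)) m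
    rw [coeff_map] at h1
    refine le_trans (le_of_eq ?_) (h1.trans hNl1)
    simp
  -- degrees
  have hdegQ : ∀ σ j, (Qσ σ).degreeOf (Sum.inr j) ≤ 1 := by
    intro σ j
    rw [hQσ']
    refine (degreeOf_sum_le _ _ _).trans (Finset.sup_le fun j' _ => ?_)
    refine (degreeOf_sum_le _ _ _).trans (Finset.sup_le fun α _ => ?_)
    refine (degreeOf_le_iff).2 fun m hm => ?_
    have h1 := support_monomial_subset hm
    rw [Finset.mem_singleton] at h1
    rw [h1, pair_inr, Finsupp.single_apply]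
    split_ifs <;> omega
  have hdegN : ∀ m ∈ (N₀.map (Int.castRingHom ℂ)).support, ∀ j, m (Sum.inr j) ≤ n := by
    intro m hm j
    have h1 : (N₀.map (Int.castRingHom ℂ)).degreeOf (Sum.inr j) ≤ n := by
      rw [hN₀]
      refine (degreeOf_prod_le _ _ _).trans ?_
      refine (Finset.sum_le_sum fun σ _ => hdegQ σ j).trans ?_
      rw [Finset.sum_const, smul_eq_mul, mul_one]
      exact hcardσ
    exact (degreeOf_le_iff.1 h1) m hm
  -- the factors
  set Pσ : (E →+* ℂ) → MvPolynomial I ℂ := fun σ => Φ η (Qσ σ) with hPσ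
  have hPσ' : ∀ σ, Pσ σ = ∑ α ∈ S, monomial α (∑ j, σ (x j α : E) * η j) := by
    intro σ
    simp only [hPσ, hQσ', map_sum, Φ_monomial]
    rw [Finset.sum_comm]
    refine Finset.sum_congr rfl fun α _ => Finset.sum_congr rfl fun j _ => ?_
    have h1 : (Finsupp.equivFunOnFinite.symm fun i => pair α (Finsupp.single j 1) (Sum.inl i)) = α := by
      ext i
      rfl
    have h2 : ∏ j', η j' ^ pair α (Finsupp.single j 1) (Sum.inr j') = η j := by
      rw [Finset.prod_eq_single j]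
      · rw [pair_inr, Finsupp.single_eq_same, pow_one]
      · intro j' _ hj'
        rw [pair_inr, Finsupp.single_apply, if_neg (Ne.symm hj'), pow_zero]
      · intro h
        exact absurd (Finset.mem_univ _) h
    rw [h1, h2]
  have hPσc : ∀ σ α, α ∈ S → (Pσ σ).coeff α = ∑ j, σ (x j α : E) * η j := by
    intro σ α hα
    rw [hPσ', coeff_sum]
    simp only [coeff_monomial]
    rw [Finset.sum_ite_eq' S α, if_pos hα]
  have hPσ0 : ∀ σ, Pσ σ ≠ 0 := by
    intro σ h0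
    have h1 := hPσc σ α₀ hα₀
    rw [h0, coeff_zero] at h1
    have h2 := hη (fun j => σ (x j α₀ : E)) (fun j => by
      have h3 : IsAlgebraic ℚ (x j α₀ : E) := Algebra.IsAlgebraic.isAlgebraic _
      exact h3.algHom σ.toRatAlgHom) h1.symm j₀
    have h4 : (x j₀ α₀ : E) = 0 := (map_eq_zero σ).1 h2
    apply hq₀
    rw [← hx j₀ α₀ hα₀, h4]
    rfl
  set P : MvPolynomial I ℂ := Φ η (N₀.map (Int.castRingHom ℂ)) with hP
  have hPprod : P = ∏ σ, Pσ σ := by
    rw [hP, hN₀, map_prod]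
  have hP0 : P ≠ 0 := by
    rw [hPprod]
    exact Finset.prod_ne_zero_iff.2 fun σ _ => hPσ0 σ
  have hPv : aeval v P = 0 := by
    rw [hPprod, map_prod]
    refine Finset.prod_eq_zero (Finset.mem_univ (algebraMap E ℂ)) ?_
    rw [hPσ', map_sum, ← hv]
    refine Finset.sum_congr rfl fun α hα => ?_
    rw [aeval_monomial, Finsupp.prod_fintype _ _ (fun _ => pow_zero _)]
    congr 1
    refine Finset.sum_congr rfl fun j _ => ?_
    rw [← hx j α hα]
    rfl
  obtain ⟨s₀, hs₀⟩ := MvPolynomial.ne_zero_iff.1 hP0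
  refine relK_of_poly1 ℚ (algebraMap ℚ ℂ) _ v _ δ P ?_ ?_ s₀ hs₀ ?_
  · intro i
    rw [hPprod]
    refine (degreeOf_prod_le _ _ _).trans ?_
    have h1 : ∀ σ, (Pσ σ).degreeOf i ≤ dd := by
      intro σ
      rw [hPσ']
      refine (degreeOf_sum_le _ _ _).trans (Finset.sup_le fun α hα => ?_)
      refine (degreeOf_le_iff).2 fun m hm => ?_
      have h1 := support_monomial_subset hm
      rw [Finset.mem_singleton] at h1
      rw [h1]
      exact hS α hα i
    refine (Finset.sum_le_sum fun σ _ => h1 σ).trans ?_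
    rw [Finset.sum_const, smul_eq_mul]
    exact Nat.mul_le_mul_right _ hcardσ
  · intro s
    refine ⟨fun β => ((N₀.coeff (pair s (sV β)) : ℤ) : 𝓞 ℚ), ?_, ?_⟩
    · intro β φ
      have h1 : φ (((N₀.coeff (pair s (sV β)) : ℤ) : 𝓞 ℚ) : ℚ) = ((N₀.coeff (pair s (sV β)) : ℤ) : ℂ) := by
        simp
      rw [h1]
      refine le_trans (le_of_eq ?_) (hcoef (pair s (sV β)))
      simp
    · rw [hP, Φ_coeff η n _ hdegN]
      refine Finset.sum_congr rfl fun β _ => ?_
      rw [coeff_map]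
      congr 1
  · rw [hPv, norm_zero]
    positivity

end Pool.Agent.X255.NP
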