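import Mathlib

/-!
# The norm to `ℤ` of a polynomial over the integers of a number field
-/

set_option autoImplicit false
set_option linter.unusedSectionVars false

namespace Pool.Agent.X255.NP

open NumberField MvPolynomial

section l1

variable {τ : Type}

/-- the sum of the absolute values of the coefficients -/
noncomputable def l1 (p : MvPolynomial τ ℂ) : ℝ := ∑ α ∈ p.support, ‖p.coeff α‖

theorem l1_nonneg (p : MvPolynomial τ ℂ) : 0 ≤ l1 p := Finset.sum_nonneg fun _ _ => norm_nonneg _

theorem l1_eq (p : MvPolynomial τ ℂ) (S : Finset (τ →₀ ℕ)) (hS : p.support ⊆ S) : l1 p = ∑ α ∈ S, ‖p.coeff α‖ := by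
  refine Finset.sum_subset hS fun α _ hα => ?_
  rw [MvPolynomial.notMem_support_iff.1 hα, norm_zero]

theorem l1_add (p q : MvPolynomial τ ℂ) : l1 (p + q) ≤ l1 p + l1 q := by
  classical
  rw [l1_eq (p + q) (p.support ∪ q.support) MvPolynomial.support_add, l1_eq p _ Finset.subset_union_left,
    l1_eq q _ Finset.subset_union_right, ← Finset.sum_add_distrib]
  refine Finset.sum_le_sum fun α _ => ?_
  rw [coeff_add]
  exact norm_add_le _ _

theorem l1_zero : l1 (0 : MvPolynomial τ ℂ) = 0 := by simp [l1]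

theorem l1_sum {κ : Type*} (s : Finset κ) (p : κ → MvPolynomial τ ℂ) : l1 (∑ i ∈ s, p i) ≤ ∑ i ∈ s, l1 (p i) := by
  classical
  induction s using Finset.induction_on with
  | empty => simp [l1_zero]
  | insert a s ha ih =>
    rw [Finset.sum_insert ha, Finset.sum_insert ha]
    exact (l1_add _ _).trans (by linarith)

theorem l1_monomial (α : τ →₀ ℕ) (c : ℂ) : l1 (monomial α c) = ‖c‖ := by
  classical
  rw [l1_eq (monomial α c) {α} support_monomial_subset, Finset.sum_singleton, coeff_monomial, if_pos rfl]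

theorem l1_mul (p q : MvPolynomial τ ℂ) : l1 (p * q) ≤ l1 p * l1 q := by
  classical
  have h1 : p * q = ∑ α ∈ p.support, ∑ β ∈ q.support, monomial (α + β) (p.coeff α * q.coeff β) := by
    conv_lhs => rw [p.as_sum, q.as_sum, Finset.sum_mul_sum]
    refine Finset.sum_congr rfl fun α _ => Finset.sum_congr rfl fun β _ => ?_
    rw [monomial_mul]
  rw [h1]
  refine (l1_sum _ _).trans ?_
  have h2 : l1 p * l1 q = ∑ α ∈ p.support, ∑ β ∈ q.support, ‖p.coeff α‖ * ‖q.coeff β‖ := by
    rw [l1, l1, Finset.sum_mul_sum]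
  rw [h2]
  refine Finset.sum_le_sum fun α _ => (l1_sum _ _).trans (Finset.sum_le_sum fun β _ => ?_)
  rw [l1_monomial, norm_mul]

theorem l1_one : l1 (1 : MvPolynomial τ ℂ) = 1 := by
  have h1 : (1 : MvPolynomial τ ℂ) = monomial 0 1 := rfl
  rw [h1, l1_monomial, norm_one]

theorem l1_prod {κ : Type*} (s : Finset κ) (p : κ → MvPolynomial τ ℂ) (R : ℝ) (h : ∀ i ∈ s, l1 (p i) ≤ R) (hR : 0 ≤ R) :
    l1 (∏ i ∈ s, p i) ≤ R ^ s.card := by
  classical
  induction s using Finset.induction_on with
  | empty => simp [l1_one]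
  | insert a s ha ih =>
    rw [Finset.prod_insert ha, Finset.card_insert_of_notMem ha, pow_succ']
    refine (l1_mul _ _).trans ?_
    exact mul_le_mul (h a (Finset.mem_insert_self _ _)) (ih fun i hi => h i (Finset.mem_insert_of_mem hi))
      (l1_nonneg _) hR

theorem coeff_le_l1 (p : MvPolynomial τ ℂ) (α : τ →₀ ℕ) : ‖p.coeff α‖ ≤ l1 p := by
  classical
  rw [l1_eq p (insert α p.support) (Finset.subset_insert _ _)]
  exact Finset.single_le_sum (f := fun α => ‖p.coeff α‖) (fun _ _ => norm_nonneg _) (Finset.mem_insert_self _ _)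

end l1

/-- the product of the conjugates of a polynomial over the integers of a number field has integral coefficients -/
theorem exists_norm (E : Type) [Field E] [NumberField E] {τ : Type} (Q : MvPolynomial τ (𝓞 E)) :
    ∃ N₀ : MvPolynomial τ ℤ, N₀.map (Int.castRingHom ℂ) = ∏ σ : E →+* ℂ, Q.map (σ.comp (algebraMap (𝓞 E) E)) := by
  classical
  let b := RingOfIntegers.basis E
  let G := E →+* ℂ
  let e := equivReindex E
  let L : G → G → (τ →₀ ℕ) → ℤ := fun i j α => Algebra.leftMulMatrix b (Q.coeff α) (e i) (e j)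
  let M : Matrix G G (MvPolynomial τ ℤ) := Matrix.of fun i j => ∑ α ∈ Q.support, monomial α (L i j α)
  have hM : ∀ i j α, (M i j).coeff α = L i j α := by
    intro i j α
    simp only [M, Matrix.of_apply, coeff_sum, coeff_monomial, Finset.sum_ite_eq']
    split_ifs with h
    · rfl
    · simp only [L, MvPolynomial.notMem_support_iff.1 h, map_zero, Matrix.zero_apply]
  let V : Matrix G G ℂ := (basisMatrix E).transpose
  have hV : ∀ σ i, V σ i = σ (b (e i)) := by
    intro σ i
    simp [V, basisMatrix, b, e, Matrix.transpose_apply, integralBasis_apply]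
  have hVdet : V.det ≠ 0 := by
    rw [Matrix.det_transpose]
    exact det_of_basisMatrix_non_zero E
  let VC : Matrix G G (MvPolynomial τ ℂ) := V.map C
  have hVC : VC.det = C V.det := (RingHom.map_det C V).symm
  let MC : Matrix G G (MvPolynomial τ ℂ) := M.map (MvPolynomial.map (Int.castRingHom ℂ))
  have hMC : MC.det = MvPolynomial.map (Int.castRingHom ℂ) M.det :=
    (RingHom.map_det (MvPolynomial.map (Int.castRingHom ℂ)) M).symm
  let D : Matrix G G (MvPolynomial τ ℂ) := Matrix.diagonal fun σ => Q.map (σ.comp (algebraMap (𝓞 E) E))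
  have key : VC * MC = D * VC := by
    refine Matrix.ext fun σ i => ?_
    rw [Matrix.mul_apply, Matrix.diagonal_mul, mul_comm (MvPolynomial.map _ Q)]
    refine MvPolynomial.ext _ _ fun α => ?_
    rw [coeff_sum]
    simp only [VC, MC, Matrix.map_apply, coeff_C_mul, coeff_map, hM, hV, L]
    have h1 : ∑ j, Algebra.leftMulMatrix b (Q.coeff α) j (e i) • b j = Q.coeff α * b (e i) := by
      simp only [Algebra.leftMulMatrix_eq_repr_mul]
      exact b.sum_repr _
    have h2 := congrArg (fun x : 𝓞 E => σ (x : E)) h1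
    simp only [map_sum, map_mul, zsmul_eq_mul, map_intCast] at h2
    have h3 : ∀ x : G, σ (b (e x) : E) * (Int.castRingHom ℂ) (Algebra.leftMulMatrix b (Q.coeff α) (e x) (e i)) =
        ((Algebra.leftMulMatrix b (Q.coeff α) (e x) (e i) : ℤ) : ℂ) * σ (algebraMap (𝓞 E) E (b (e x))) := by
      intro x
      rw [mul_comm]
      rfl
    rw [Finset.sum_congr rfl fun x _ => h3 x,
      e.sum_comp fun j => ((Algebra.leftMulMatrix b (Q.coeff α) j (e i) : ℤ) : ℂ) * σ (algebraMap (𝓞 E) E (b j)), h2]
    exact mul_comm _ _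
  have h1 := congrArg Matrix.det key
  rw [Matrix.det_mul, Matrix.det_mul, hVC, hMC, Matrix.det_diagonal, mul_comm] at h1
  refine ⟨M.det, mul_right_cancel₀ ?_ h1⟩
  rw [Ne, C_eq_zero]
  exact hVdet

end Pool.Agent.X255.NP
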