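import Pool.Agent.X255.NP.Alg
import Pool.Agent.X255.NP.Co
import Pool.Agent.X255.GB.Fin

/-!
# Relations with algebraic coefficients at rational points of the base of a chart whose other coordinates are algebraic
-/

set_option autoImplicit false
set_option linter.unusedSectionVars false

namespace Pool.Agent.X255.NP

open NumberField
open Pool.Agent.X255.GB
open Pool.Agent.Y890.MV
open Pool.Agent.Y124 (Cov RelK)

/-- quotients of two algebraic integers of `F` of size at most `R` -/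
def HF (F : IntermediateField ℚ ℂ) (R : ℝ) (z : ℂ) : Prop :=
  ∃ a b : ℂ, AE F R a ∧ AE F R b ∧ b ≠ 0 ∧ z = a / b

/-- rational points at which there is a relation with algebraic coefficients to which the matrix `M` is not
orthogonal -/
def BadN {X Y σ h N : Type} [Fintype σ] [DecidableEq σ] [Fintype h] (δ : ℕ)
    (M : N → (σ → Fin (δ + 1)) → MvPolynomial (Y ⊕ X) ℂ) (y : Y → (X → ℂ) → ℂ)
    (f : σ → (X → ℂ) → ℂ) (Lc : Set (X → ℂ)) (m : ℕ) (ξ : h → ℂ) (A T : ℝ) : Set (X → ℚ) :=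
  {s | (∀ i, Y120.HtLe ℚ T (s i)) ∧ (fun i => algebraMap ℚ ℂ (s i)) ∈ Lc ∧
    ∃ (F : IntermediateField ℚ ℂ) (_ : FiniteDimensional ℚ F), Module.finrank ℚ F ≤ m ∧
      (∀ j, HF F (T ^ A) (y j fun i => algebraMap ℚ ℂ (s i))) ∧ ∃ c : (σ → Fin (δ + 1)) → h → ℂ,
      (∀ l i, AE F (T ^ A) (c l i)) ∧
      ∑ l, (∑ i, ξ i * c l i) * ∏ v, f v (fun i => algebraMap ℚ ℂ (s i)) ^ (l v : ℕ) = 0 ∧
      ∃ ν, ∑ l, MvPolynomial.eval (pt y fun i => algebraMap ℚ ℂ (s i)) (M ν l) * (∑ i, ξ i * c l i) ≠ 0}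

theorem HtLe_AE {T : ℝ} {x : ℚ} (h : Y120.HtLe ℚ T x) (F : IntermediateField ℚ ℂ) [FiniteDimensional ℚ F] :
    HF F T (algebraMap ℚ ℂ x) := by
  obtain ⟨a, b, hb, ha1, hb1, hx⟩ := h
  have key : ∀ c : 𝓞 ℚ, house (c : ℚ) ≤ T → AE F T (algebraMap ℚ ℂ (c : ℚ)) := by
    intro c hc
    obtain ⟨n, hn⟩ : ∃ n : ℤ, (n : ℚ) = (c : ℚ) := by
      obtain ⟨n, hn⟩ := IsIntegrallyClosed.isIntegral_iff.1 (RingOfIntegers.isIntegral_coe c)
      exact ⟨n, (eq_intCast (algebraMap ℤ ℚ) n).symm.trans hn⟩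
    have h1 : algebraMap ℚ ℂ (c : ℚ) = (n : ℂ) := by rw [← hn]; simp
    rw [h1]
    refine AE.intCast n ?_
    have h2 := (Y120.house_ge ℚ (c : ℚ) (algebraMap ℚ ℂ)).trans hc
    rw [h1] at h2
    simpa using h2
  refine ⟨_, _, key a ha1, key b hb1, ?_, ?_⟩
  · rw [Ne, map_eq_zero]
    exact_mod_cast hb
  · rw [hx, map_div₀]

/-- **Version over `ℚ` with algebraic coefficients.** -/
theorem oneN {X Y σ : Type} [Fintype X] [DecidableEq X] [Nonempty X]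
    [Fintype Y] [DecidableEq Y] [Fintype σ] [DecidableEq σ] {U : Set (X → ℂ)} {y : Y → (X → ℂ) → ℂ}
    {f : σ → (X → ℂ) → ℂ} (hf : ∀ i, AnalyticOnNhd ℂ (f i) U) (Lc : Set (X → ℂ))
    (hLc : IsCompact Lc) (hLU : Lc ⊆ U) (δ : ℕ) {N : Type} (M : N → (σ → Fin (δ + 1)) → MvPolynomial (Y ⊕ X) ℂ)
    {I : Type} [Fintype I] [DecidableEq I] (ι : I → σ)
    (𝒢 : MvPolynomial I (MvPolynomial (σ → Fin (δ + 1)) (MvPolynomial (Y ⊕ X) ℂ))) (q₁ : MvPolynomial X ℂ)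
    (hq₁ : q₁ ≠ 0) (hind : ∀ t ∈ U, LocIndM (fun i t => f (ι i) t) t)
    (hne : ∀ t ∈ U, MvPolynomial.eval t q₁ ≠ 0 → ∀ P : (σ → Fin (δ + 1)) → ℂ,
      (∃ ν, ∑ l, MvPolynomial.eval (pt y t) (M ν l) * P l ≠ 0) →
      MvPolynomial.map (MvPolynomial.eval₂Hom (MvPolynomial.eval (pt y t)) P) 𝒢 ≠ 0)
    (hev : ∀ t ∈ U, ∀ P : (σ → Fin (δ + 1)) → ℂ, ∑ l, P l * ∏ v, f v t ^ (l v : ℕ) = 0 →
      MvPolynomial.eval (fun i => f (ι i) t)
        (MvPolynomial.map (MvPolynomial.eval₂Hom (MvPolynomial.eval (pt y t)) P) 𝒢) = 0)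
    (h : Type) [Fintype h] [DecidableEq h] (m : ℕ) (ξ : h → ℂ) (A ε : ℝ) (hε : 0 < ε) :
    ∃ (D : ℕ) (C T₀ : ℝ), 0 ≤ C ∧ 2 ≤ T₀ ∧ ∀ T : ℝ, T₀ ≤ T →
      Cov D ⌊C * T ^ ε⌋₊ ((fun (s : X → ℚ) i => algebraMap ℚ ℂ (s i)) '' BadN δ M y f Lc m ξ A T) := by
  classical
  let Λ := σ → Fin (δ + 1)
  let W := (Λ × h) ⊕ (Y ⊕ X)
  -- the coefficients as polynomials in all coordinates
  let ψ : MvPolynomial Λ (MvPolynomial (Y ⊕ X) ℂ) →+* MvPolynomial W ℂ :=
    MvPolynomial.eval₂Hom ((MvPolynomial.rename Sum.inr : MvPolynomial (Y ⊕ X) ℂ →ₐ[ℂ] MvPolynomial W ℂ) :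
      MvPolynomial (Y ⊕ X) ℂ →+* MvPolynomial W ℂ) (fun l => ∑ i, MvPolynomial.C (ξ i) * MvPolynomial.X (Sum.inl (l, i)))
  have hψ : ∀ (w : W → ℂ) (p : MvPolynomial Λ (MvPolynomial (Y ⊕ X) ℂ)), MvPolynomial.eval w (ψ p) =
      MvPolynomial.eval₂Hom (MvPolynomial.eval fun o => w (Sum.inr o)) (fun l => ∑ i, ξ i * w (Sum.inl (l, i))) p := by
    intro w p
    have h1 : (MvPolynomial.eval w).comp ψ = MvPolynomial.eval₂Hom (MvPolynomial.eval fun o => w (Sum.inr o))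
        (fun l => ∑ i, ξ i * w (Sum.inl (l, i))) := by
      refine MvPolynomial.ringHom_ext (fun a => ?_) fun l => ?_
      · rw [RingHom.comp_apply, MvPolynomial.eval₂Hom_C, MvPolynomial.eval₂Hom_C]
        change MvPolynomial.eval w (MvPolynomial.rename Sum.inr a) = _
        rw [MvPolynomial.eval_rename]
        rfl
      · rw [RingHom.comp_apply, MvPolynomial.eval₂Hom_X', MvPolynomial.eval₂Hom_X', map_sum]
        simp
    exact RingHom.congr_fun h1 p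
  set S : Finset (I →₀ ℕ) := 𝒢.support with hS
  set S' : Finset (W →₀ ℕ) := S.biUnion fun α => (ψ (𝒢.coeff α)).support with hS'
  obtain ⟨r, η, κ', E₀, hE₀, R₀, hR₀, hκ1, hκ2, hη⟩ := exists_decomp
    (fun p : {p : (I →₀ ℕ) × (W →₀ ℕ) // p ∈ S ×ˢ S'} => (ψ (𝒢.coeff p.1.1)).coeff p.1.2)
  let k' : (I →₀ ℕ) → (W →₀ ℕ) → Fin r → ℂ := fun α ν j => if hp : (α, ν) ∈ S ×ˢ S' then κ' ⟨(α, ν), hp⟩ j else 0
  have hk1 : ∀ α ν j, AE E₀ R₀ (k' α ν j) := by
    intro α ν j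
    simp only [k']
    split_ifs with hp
    · exact hκ1 _ j
    · exact AE.zero (by linarith)
  have hk2 : ∀ α ∈ S, ∀ ν ∈ S', (ψ (𝒢.coeff α)).coeff ν = ∑ j, k' α ν j * η j := by
    intro α hα ν hν
    have hp : (α, ν) ∈ S ×ˢ S' := Finset.mem_product.2 ⟨hα, hν⟩
    simp only [k', dif_pos hp]
    exact hκ2 ⟨(α, ν), hp⟩
  set J₀ : ℕ := S'.sup fun ν => ∑ o, ν o with hJ₀
  have hJ₀' : ∀ ν ∈ S', ∑ o, ν o ≤ J₀ := fun ν hν => Finset.le_sup (f := fun ν : W →₀ ℕ => ∑ o, ν o) hν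
  set dd : ℕ := S.sup fun α => ∑ i, α i with hdd
  have hdd' : ∀ α ∈ S, ∀ i, α i ≤ dd := fun α hα i =>
    (Finset.single_le_sum (f := fun i => α i) (fun _ _ => Nat.zero_le _) (Finset.mem_univ i)).trans
      (Finset.le_sup (f := fun α : I →₀ ℕ => ∑ i, α i) hα)
  -- parameters
  set n : ℕ := m * Module.finrank ℚ E₀ with hn
  set A₂ : ℝ := max A 1 with hA₂
  have hA₂1 : 1 ≤ A₂ := le_max_right _ _
  set p : ℕ := Fintype.card (Y ⊕ X) + 1 with hp
  set K₀ : ℝ := ((Fintype.card (Fin r) * S.card : ℕ) * (S'.card * R₀)) with hK₀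
  have hK₀0 : 0 ≤ K₀ := by positivity
  set A' : ℝ := (n : ℝ) * (A₂ * ((p : ℕ) : ℝ) * (J₀ : ℝ) + 1) with hA'
  obtain ⟨DD, B, C, T₀, hC, hT₀, H⟩ := nfM stmZ stmClose stmCharts 1 (fun (i : I) t => f (ι i) t) Lc hLc
    (fun i t ht => hf _ t (hLU ht)) (fun t ht => hind t (hLU ht)) (Fin r → Fin (n + 1)) (n * dd) A' ε hε
  refine ⟨max DD q₁.totalDegree, C + 1, max T₀ K₀, by positivity, le_max_of_le_left hT₀, ?_⟩
  intro T hT'
  have hT : T₀ ≤ T := (le_max_left _ _).trans hT'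
  have hTK : K₀ ≤ T := (le_max_right _ _).trans hT'
  have hT1 : 1 ≤ T := by linarith
  have hTp : 0 < T := by linarith
  have hcov := H ℚ (by rw [Module.finrank_self]) (algebraMap ℚ ℂ)
    (fun β : Fin r → Fin (n + 1) => ∏ j, η j ^ (β j : ℕ)) T hT
  set E := {t : X → ℂ | t ∈ Lc ∧ ∃ s : X → ℚ,
      (∀ i, Y120.HtLe ℚ T (s i)) ∧ (t = fun i => algebraMap ℚ ℂ (s i)) ∧
        RelK ℚ (algebraMap ℚ ℂ) (fun β : Fin r → Fin (n + 1) => ∏ j, η j ^ (β j : ℕ))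
          (fun l : I → Fin (n * dd + 1) => ∏ i, f (ι i) t ^ (l i : ℕ)) (T ^ A') (T ^ (-B))} with hE
  set Z : Set (X → ℂ) := {t | MvPolynomial.eval t q₁ = 0} with hZ
  have hZcov : Cov q₁.totalDegree 1 Z := by
    refine ⟨{q₁}, by simp, ?_, ?_⟩
    · intro P hP
      rw [Finset.mem_singleton] at hP
      subst hP
      exact ⟨hq₁, le_rfl⟩
    · intro t ht
      exact ⟨q₁, Finset.mem_singleton_self _, ht⟩
  have hsub : (fun (s : X → ℚ) i => algebraMap ℚ ℂ (s i)) '' BadN δ M y f Lc m ξ A T ⊆ E ∪ Z := by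
    rintro _ ⟨s, ⟨hs1, hs2, F, hF, hFm, hyF, c, hc1, hc2, hν⟩, rfl⟩
    set t : X → ℂ := fun i => algebraMap ℚ ℂ (s i) with ht
    by_cases hsZ : t ∈ Z
    · exact Or.inr hsZ
    refine Or.inl ⟨hs2, s, hs1, rfl, ?_⟩
    have htU : t ∈ U := hLU hs2
    set P : Λ → ℂ := fun l => ∑ i, ξ i * c l i with hP
    have h𝓡0 := hne t htU hsZ P hν
    have h𝓡v := hev t htU P hc2
    set 𝓡 : MvPolynomial I ℂ :=
      MvPolynomial.map (MvPolynomial.eval₂Hom (MvPolynomial.eval (pt y t)) P) 𝒢 with h𝓡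
    -- the field
    set E' : IntermediateField ℚ ℂ := F ⊔ E₀ with hE'
    have hE'f : FiniteDimensional ℚ E' := IntermediateField.finiteDimensional_sup F E₀
    have hE'n : Module.finrank ℚ E' ≤ n :=
      (IntermediateField.finrank_sup_le F E₀).trans (Nat.mul_le_mul_right _ hFm)
    have hFE : F ≤ E' := le_sup_left
    have hEE : E₀ ≤ E' := le_sup_right
    -- common denominators
    have hTA : 1 ≤ T ^ A₂ := Real.one_le_rpow hT1 (by linarith)
    have hTAA : T ^ A ≤ T ^ A₂ := Real.rpow_le_rpow_of_exponent_le hT1 (le_max_left _ _)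
    have hTT : T ≤ T ^ A₂ := by
      conv_lhs => rw [← Real.rpow_one T]
      exact Real.rpow_le_rpow_of_exponent_le hT1 hA₂1
    have hpt : ∀ o : Y ⊕ X, ∃ a b : ℂ, AE E' (T ^ A₂) a ∧ AE E' (T ^ A₂) b ∧ b ≠ 0 ∧ pt y t o = a / b := by
      rintro (j | i)
      · obtain ⟨a, b, h1, h2, h3, h4⟩ := hyF j
        exact ⟨a, b, (h1.le hFE).mono hTAA, (h2.le hFE).mono hTAA, h3, h4⟩
      · obtain ⟨a, b, h1, h2, h3, h4⟩ := HtLe_AE (hs1 i) F
        exact ⟨a, b, (h1.le hFE).mono hTT, (h2.le hFE).mono hTT, h3, h4⟩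
    choose a b ha hb hb0 hab using hpt
    set bb : ℂ := ∏ o, b o with hbb
    have hbb0 : bb ≠ 0 := Finset.prod_ne_zero_iff.2 fun o _ => hb0 o
    let w : W → ℂ := Sum.elim (fun q => c q.1 q.2) (pt y t)
    let aw : W → ℂ := fun o => bb * w o
    set R₁ : ℝ := (T ^ A₂) ^ p with hR₁
    have hR₁1 : 1 ≤ R₁ := one_le_pow₀ hTA
    have hbbA : AE E' R₁ bb := by
      have h1 := AE.prod (E := E') Finset.univ b (fun _ => T ^ A₂) fun o _ => hb o
      refine h1.mono ?_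
      rw [Finset.prod_const, Finset.card_univ, hR₁, hp]
      exact pow_le_pow_right₀ hTA (Nat.le_succ _)
    have hawA : ∀ o, AE E' R₁ (aw o) := by
      rintro (⟨l, i⟩ | o)
      · have h1 := AE.prod (E := E') Finset.univ b (fun _ => T ^ A₂) fun o _ => hb o
        have h2 := h1.mul (((hc1 l i).le hFE).mono hTAA)
        refine h2.mono (le_of_eq ?_)
        rw [Finset.prod_const, Finset.card_univ, hR₁, hp, pow_succ]
      · have h1 : aw (Sum.inr o) = a o * ∏ o' ∈ Finset.univ.erase o, b o' := by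
          change bb * pt y t o = _
          rw [hbb, ← Finset.mul_prod_erase _ _ (Finset.mem_univ o), hab o]
          have := hb0 o
          field_simp
        rw [h1]
        have h2 := AE.prod (E := E') (Finset.univ.erase o) b (fun _ => T ^ A₂) fun o _ => hb o
        have h3 := (ha o).mul h2
        refine h3.mono ?_
        rw [Finset.prod_const, Finset.card_erase_of_mem (Finset.mem_univ o), Finset.card_univ, hR₁, hp, ← pow_succ']
        exact pow_le_pow_right₀ hTA (by omega)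
    -- the coefficients
    let q : Fin r → (I →₀ ℕ) → ℂ := fun j α => ∑ ν ∈ S', k' α ν j * (bb ^ (J₀ - ∑ o, ν o) * ∏ o, aw o ^ ν o)
    have hqA : ∀ j, ∀ α, AE E' (S'.card * R₀ * R₁ ^ J₀) (q j α) := by
      intro j α
      have h1 := AE.sum (E := E') S' (fun ν => k' α ν j * (bb ^ (J₀ - ∑ o, ν o) * ∏ o, aw o ^ ν o))
        (fun ν => R₀ * (R₁ ^ (J₀ - ∑ o, ν o) * ∏ o, R₁ ^ ν o)) (fun ν _ =>
          ((hk1 α ν j).le hEE).mul ((hbbA.pow _).mul (AE.prod Finset.univ _ _ fun o _ => (hawA o).pow _)))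
      refine h1.mono ?_
      rw [mul_assoc, ← nsmul_eq_mul]
      refine Finset.sum_le_card_nsmul _ _ _ fun ν hν => ?_
      refine mul_le_mul_of_nonneg_left ?_ (by linarith)
      rw [Finset.prod_pow_eq_pow_sum, ← pow_add]
      refine pow_le_pow_right₀ hR₁1 ?_
      have := hJ₀' ν hν
      omega
    have hbJ : bb ^ J₀ ≠ 0 := pow_ne_zero _ hbb0
    have hqsum : ∀ α ∈ S, ∑ j, q j α * η j = bb ^ J₀ * 𝓡.coeff α := by
      intro α hα
      have h1 : 𝓡.coeff α = MvPolynomial.eval w (ψ (𝒢.coeff α)) := by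
        rw [hψ, h𝓡, MvPolynomial.coeff_map]
        rfl
      rw [h1, MvPolynomial.eval_eq']
      have h2 : ∑ ν ∈ (ψ (𝒢.coeff α)).support, (ψ (𝒢.coeff α)).coeff ν * ∏ o, w o ^ ν o =
          ∑ ν ∈ S', (ψ (𝒢.coeff α)).coeff ν * ∏ o, w o ^ ν o := by
        refine Finset.sum_subset ?_ fun ν _ hν => ?_
        · intro ν hν
          exact Finset.mem_biUnion.2 ⟨α, hα, hν⟩
        · rw [MvPolynomial.notMem_support_iff.1 hν, zero_mul]
      rw [h2, Finset.mul_sum]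
      simp only [q, Finset.sum_mul]
      rw [Finset.sum_comm]
      refine Finset.sum_congr rfl fun ν hν => ?_
      rw [hk2 α hα ν hν]
      have h3 : ∏ o, aw o ^ ν o = bb ^ (∑ o, ν o) * ∏ o, w o ^ ν o := by
        rw [← Finset.prod_pow_eq_pow_sum, ← Finset.prod_mul_distrib]
        exact Finset.prod_congr rfl fun o _ => mul_pow _ _ _
      have h4 : bb ^ J₀ = bb ^ (J₀ - ∑ o, ν o) * bb ^ (∑ o, ν o) := by
        rw [← pow_add, Nat.sub_add_cancel (hJ₀' ν hν)]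
      rw [h3, h4, Finset.sum_mul, Finset.mul_sum]
      exact Finset.sum_congr rfl fun j _ => by ring
    have hS𝓡 : 𝓡.support ⊆ S := MvPolynomial.support_map_subset _ _
    obtain ⟨α₀, hα₀⟩ := MvPolynomial.ne_zero_iff.1 h𝓡0
    have hα₀S : α₀ ∈ S := hS𝓡 (MvPolynomial.mem_support_iff.2 hα₀)
    have hne' : ∃ j, ∃ α ∈ S, q j α ≠ 0 := by
      by_contra hcon
      push Not at hcon
      have h1 := hqsum α₀ hα₀S
      rw [Finset.sum_eq_zero fun j _ => by rw [hcon j α₀ hα₀S, zero_mul]] at h1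
      exact mul_ne_zero hbJ hα₀ h1.symm
    have hR₂ : 1 ≤ (S'.card : ℝ) * R₀ * R₁ ^ J₀ := by
      have h1 : (1 : ℝ) ≤ S'.card := by
        have h2 : 0 < S'.card := by
          rw [Finset.card_pos]
          obtain ⟨j, α, hα, hq⟩ := hne'
          by_contra hcon
          rw [Finset.not_nonempty_iff_eq_empty] at hcon
          apply hq
          simp only [q, hcon, Finset.sum_empty]
        exact_mod_cast h2
      have h2 : 1 ≤ R₁ ^ J₀ := one_le_pow₀ hR₁1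
      have h3 : 1 ≤ (S'.card : ℝ) * R₀ := by nlinarith
      nlinarith
    have hval : ∑ α ∈ S, (∑ j, q j α * η j) * ∏ i, f (ι i) t ^ α i = 0 := by
      have h1 : ∑ α ∈ S, (∑ j, q j α * η j) * ∏ i, f (ι i) t ^ α i =
          bb ^ J₀ * MvPolynomial.eval (fun i => f (ι i) t) 𝓡 := by
        rw [MvPolynomial.eval_eq', Finset.mul_sum]
        have h2 : ∑ α ∈ 𝓡.support, bb ^ J₀ * (𝓡.coeff α * ∏ i, f (ι i) t ^ α i) =
            ∑ α ∈ S, bb ^ J₀ * (𝓡.coeff α * ∏ i, f (ι i) t ^ α i) := by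
          refine Finset.sum_subset hS𝓡 fun α _ hα => ?_
          rw [MvPolynomial.notMem_support_iff.1 hα, zero_mul, mul_zero]
        rw [h2]
        refine Finset.sum_congr rfl fun α hα => ?_
        rw [hqsum α hα]
        ring
      rw [h1, h𝓡v, mul_zero]
    have hrel := relK_core E' n hE'n S dd hdd' q (fun j α _ => (hqA j α).1) _ hR₂ (fun j α _ => (hqA j α).2) η hη hne'
      (fun i => f (ι i) t) hval (T ^ (-B)) (by positivity)
    -- the size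
    have hsize : (((Fintype.card (Fin r) * S.card : ℕ) : ℝ) * ((S'.card : ℝ) * R₀ * R₁ ^ J₀)) ^ n ≤ T ^ A' := by
      have h1 : ((Fintype.card (Fin r) * S.card : ℕ) : ℝ) * ((S'.card : ℝ) * R₀ * R₁ ^ J₀) = K₀ * R₁ ^ J₀ := by
        rw [hK₀]
        ring
      rw [h1, hA', mul_comm (n : ℝ), Real.rpow_mul hTp.le, Real.rpow_natCast]
      refine pow_le_pow_left₀ (by positivity) ?_ _
      have h2 : R₁ ^ J₀ = T ^ (A₂ * (p : ℝ) * (J₀ : ℝ)) := by
        rw [hR₁, Real.rpow_mul hTp.le, Real.rpow_mul hTp.le, Real.rpow_natCast, Real.rpow_natCast]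
      rw [Real.rpow_add hTp, Real.rpow_one, ← h2, mul_comm K₀]
      exact mul_le_mul_of_nonneg_left hTK (by positivity)
    obtain ⟨c', hc'1, l₀, hc'2, hc'3⟩ := hrel
    exact ⟨c', fun l s φ => (hc'1 l s φ).trans hsize, l₀, hc'2, hc'3⟩
  -- covering
  have h1 := (hcov.mono (le_max_left DD q₁.totalDegree) le_rfl (Set.Subset.refl _)).union
    (hZcov.mono (le_max_right DD q₁.totalDegree) le_rfl (Set.Subset.refl _))
  refine h1.mono le_rfl ?_ hsub
  have h6 : (1 : ℝ) ≤ T ^ ε := Real.one_le_rpow hT1 hε.le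
  have h7 : 0 ≤ C * T ^ ε := by positivity
  rw [← Nat.floor_add_one h7]
  apply Nat.floor_le_floor
  nlinarith

end Pool.Agent.X255.NP
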