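import Mathlib

/-!
# Separately rational functions of bounded degree are rational
-/

set_option autoImplicit false
set_option linter.unusedSectionVars false

open Polynomial Filter Topology

namespace Pool.Agent.X255.NP

theorem dvd_ends (c : ℕ → ℂ[X]) (m : ℕ) (u v : ℂ[X]) (huv : IsCoprime u v)
    (h : ∑ i ∈ Finset.range (m + 1), c i * u ^ i * v ^ (m - i) = 0) : v ∣ c m ∧ u ∣ c 0 := by
  constructor
  · rw [Finset.sum_range_succ, Nat.sub_self, pow_zero, mul_one] at h
    have h1 : v ∣ ∑ i ∈ Finset.range m, c i * u ^ i * v ^ (m - i) := by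
      refine Finset.dvd_sum fun i hi => ?_
      have h2 : m - i = (m - i - 1) + 1 := by
        have := Finset.mem_range.1 hi
        omega
      rw [h2, pow_succ, ← mul_assoc]
      exact dvd_mul_left _ _
    have h2 : v ∣ c m * u ^ m := (dvd_add_right h1).1 (by rw [h]; exact dvd_zero _)
    exact (IsCoprime.pow_right huv.symm).dvd_of_dvd_mul_right h2
  · rw [Finset.sum_range_succ', pow_zero, mul_one, Nat.sub_zero] at h
    have h1 : u ∣ ∑ i ∈ Finset.range m, c (i + 1) * u ^ (i + 1) * v ^ (m - (i + 1)) := by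
      refine Finset.dvd_sum fun i _ => ?_
      rw [pow_succ, show c (i + 1) * (u ^ i * u) * v ^ (m - (i + 1)) = u * (c (i + 1) * u ^ i * v ^ (m - (i + 1))) by
        ring]
      exact dvd_mul_right _ _
    have h2 : u ∣ c 0 * v ^ m := (dvd_add_right h1).1 (by rw [h]; exact dvd_zero _)
    exact (IsCoprime.pow_right huv).dvd_of_dvd_mul_right h2

/-- continuous functions which vanish on an open set of the line outside a finite set vanish -/
theorem zero_of_finite {D : Set ℂ} (hD : IsOpen D) (φ : ℂ → ℂ) (hφ : ContinuousOn φ D) (S : Set ℂ) (hS : S.Finite)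
    (h : ∀ s ∈ D, s ∉ S → φ s = 0) : ∀ s ∈ D, φ s = 0 := by
  intro s hs
  by_contra hne
  have h1 : ∀ᶠ x in 𝓝 s, φ x ≠ 0 := (hφ.continuousAt (hD.mem_nhds hs)).eventually_ne hne
  have h2 : ∀ᶠ x in 𝓝 s, x ∈ S := by
    filter_upwards [h1, hD.mem_nhds hs] with x hx hxD
    by_contra hxS
    exact hx (h x hxD hxS)
  exact (infinite_of_mem_nhds s h2) (hS.subset fun x hx => hx)

theorem open_infinite {D : Set ℂ} (hD : IsOpen D) (hne : D.Nonempty) : D.Infinite := by
  obtain ⟨s, hs⟩ := hne
  exact infinite_of_mem_nhds s (hD.mem_nhds hs)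

/-- a rational function which is algebraic of bounded degree has bounded degree -/
theorem deg_bound {D : Set ℂ} (hD : IsOpen D) (hne : D.Nonempty) (φ : ℂ → ℂ) (hφ : ContinuousOn φ D) (p q : ℂ[X])
    (hq : q ≠ 0) (hpq : ∀ s ∈ D, q.eval s * φ s = p.eval s) (N : ℕ) (R : ℂ[X][X]) (hR : R ≠ 0)
    (hRN : ∀ i, (R.coeff i).natDegree ≤ N) (hRφ : ∀ s ∈ D, (R.map (evalRingHom s)).eval (φ s) = 0) :
    ∃ p' q' : ℂ[X], q' ≠ 0 ∧ p'.natDegree ≤ N ∧ q'.natDegree ≤ N ∧ ∀ s ∈ D, q'.eval s * φ s = p'.eval s := by
  classical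
  set d := EuclideanDomain.gcd p q with hd
  have hd0 : d ≠ 0 := fun h0 => hq (EuclideanDomain.gcd_eq_zero_iff.1 h0).2
  obtain ⟨p', hp'⟩ := EuclideanDomain.gcd_dvd_left p q
  obtain ⟨q', hq'⟩ := EuclideanDomain.gcd_dvd_right p q
  rw [← hd] at hp' hq'
  have hcop : IsCoprime p' q' := by
    obtain ⟨x, y, hxy⟩ : ∃ x y, d = p * x + q * y := ⟨_, _, EuclideanDomain.gcd_eq_gcd_ab p q⟩
    refine ⟨x, y, mul_left_cancel₀ hd0 ?_⟩
    rw [mul_one]
    conv_rhs => rw [hxy, hp', hq']
    ring
  have hq'0 : q' ≠ 0 := by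
    rintro rfl
    rw [mul_zero] at hq'
    exact hq hq'
  have hrel : ∀ s ∈ D, q'.eval s * φ s - p'.eval s = 0 := by
    refine zero_of_finite hD _ ?_ (d.rootSet ℂ) (rootSet_finite d ℂ) ?_
    · exact (q'.continuous.continuousOn.mul hφ).sub p'.continuous.continuousOn
    · intro s hs hsd
      have hds : d.eval s ≠ 0 := by
        intro h0
        apply hsd
        rw [mem_rootSet]
        exact ⟨hd0, by simpa using h0⟩
      have h1 := hpq s hs
      conv_lhs at h1 => rw [hq']
      conv_rhs at h1 => rw [hp']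
      rw [eval_mul, eval_mul] at h1
      have h2 : d.eval s * (q'.eval s * φ s - p'.eval s) = 0 := by linear_combination h1
      exact (mul_eq_zero.1 h2).resolve_left hds
  have hrel' : ∀ s ∈ D, q'.eval s * φ s = p'.eval s := fun s hs => sub_eq_zero.1 (hrel s hs)
  refine ⟨p', q', hq'0, ?_, ?_, hrel'⟩
  all_goals
    set n := R.natDegree with hn
    have hsum : ∑ i ∈ Finset.range (n + 1), R.coeff i * p' ^ i * q' ^ (n - i) = 0 := by
      refine eq_of_infinite_eval_eq _ _ ((open_infinite hD hne).mono fun s hs => ?_)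
      rw [Set.mem_setOf_eq, eval_zero, eval_finsetSum]
      have h1 := hRφ s hs
      rw [eval_map, eval₂_eq_sum_range] at h1
      have h2 : ∑ i ∈ Finset.range (n + 1), (R.coeff i * p' ^ i * q' ^ (n - i)).eval s =
          q'.eval s ^ n * ∑ i ∈ Finset.range (n + 1), (evalRingHom s) (R.coeff i) * φ s ^ i := by
        rw [Finset.mul_sum]
        refine Finset.sum_congr rfl fun i hi => ?_
        have hi' : i ≤ n := Nat.lt_succ_iff.1 (Finset.mem_range.1 hi)
        rw [eval_mul, eval_mul, eval_pow, eval_pow, ← hrel' s hs, mul_pow, coe_evalRingHom]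
        have h3 : q'.eval s ^ n = q'.eval s ^ i * q'.eval s ^ (n - i) := by
          rw [← pow_add]
          congr 1
          omega
        rw [h3]
        ring
      rw [h2, h1, mul_zero]
  · -- the numerator
    by_cases hp0 : p' = 0
    · rw [hp0, natDegree_zero]
      exact Nat.zero_le _
    set i0 := R.natTrailingDegree with hi0
    have hi0n : i0 ≤ n := natTrailingDegree_le_natDegree R
    have hc0 : R.coeff i0 ≠ 0 := by
      have := trailingCoeff_nonzero_iff_nonzero.2 hR
      exact this
    have hlt : ∀ i < i0, R.coeff i = 0 := fun i hi => coeff_eq_zero_of_lt_natTrailingDegree hi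
    have h1 : n + 1 = i0 + (n - i0 + 1) := by omega
    rw [h1, Finset.sum_range_add, Finset.sum_eq_zero fun i hi => by
      rw [hlt i (Finset.mem_range.1 hi), zero_mul, zero_mul], zero_add] at hsum
    have h2 : p' ^ i0 * ∑ i ∈ Finset.range (n - i0 + 1), R.coeff (i0 + i) * p' ^ i * q' ^ (n - i0 - i) = 0 := by
      rw [← hsum, Finset.mul_sum]
      refine Finset.sum_congr rfl fun i _ => ?_
      rw [pow_add, show n - (i0 + i) = n - i0 - i by omega]
      ring
    have h3 := (mul_eq_zero.1 h2).resolve_left (pow_ne_zero _ hp0)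
    have h4 := (dvd_ends (fun i => R.coeff (i0 + i)) _ p' q' hcop h3).2
    simp only [add_zero] at h4
    exact (natDegree_le_of_dvd h4 hc0).trans (hRN i0)
  · have h4 := (dvd_ends (fun i => R.coeff i) _ p' q' hcop hsum).1
    exact (natDegree_le_of_dvd h4 (leadingCoeff_ne_zero.2 hR)).trans (hRN n)

theorem rect_ker {R : Type} [CommRing R] [Nontrivial R] {α β : Type} [Fintype α] [Fintype β] [DecidableEq α]
    (h : Fintype.card β < Fintype.card α) (A : Matrix β α R) : ∃ v : α → R, v ≠ 0 ∧ A.mulVec v = 0 := by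
  by_contra hcon
  push Not at hcon
  have hinj : Function.Injective (Matrix.mulVecLin A) := by
    rw [injective_iff_map_eq_zero]
    intro v hv
    by_contra hne
    exact hcon v hne hv
  have := card_le_of_injective R (Matrix.mulVecLin A) hinj
  omega

/-- **Separately rational functions of bounded degree are rational.** -/
theorem sep_rational (N : ℕ) : ∀ (n : ℕ) (D : Fin n → Set ℂ) (_ : ∀ i, IsOpen (D i)) (_ : ∀ i, (D i).Nonempty)
    (h : (Fin n → ℂ) → ℂ) (_ : ∀ i, ∀ b : Fin n → ℂ, (∀ j, b j ∈ D j) →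
      ContinuousOn (fun s => h (Function.update b i s)) (D i) ∧ ∃ p q : ℂ[X], q ≠ 0 ∧ p.natDegree ≤ N ∧
        q.natDegree ≤ N ∧ ∀ s ∈ D i, q.eval s * h (Function.update b i s) = p.eval s),
    ∃ P Q : MvPolynomial (Fin n) ℂ, Q ≠ 0 ∧ ∀ z : Fin n → ℂ, (∀ i, z i ∈ D i) →
      MvPolynomial.eval z Q * h z = MvPolynomial.eval z P := by
  classical
  intro n
  induction n with
  | zero =>
    intro D _ _ h _
    refine ⟨MvPolynomial.C (h Fin.elim0), 1, one_ne_zero, fun z _ => ?_⟩
    have hz : z = Fin.elim0 := funext fun i => i.elim0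
    simp [hz]
  | succ n ih =>
    intro D hDo hDn h hyp
    -- the slices
    have hslice : ∀ s ∈ D 0, ∃ P Q : MvPolynomial (Fin n) ℂ, Q ≠ 0 ∧ ∀ b : Fin n → ℂ, (∀ i, b i ∈ D i.succ) →
        MvPolynomial.eval b Q * h (Fin.cons s b) = MvPolynomial.eval b P := by
      intro s hs
      refine ih (fun i => D i.succ) (fun i => hDo _) (fun i => hDn _) (fun b => h (Fin.cons s b)) ?_
      intro i b hb
      have h1 := hyp i.succ (Fin.cons s b) (fun j => Fin.cases hs hb j)
      have h2 : ∀ t, Function.update (Fin.cons s b : Fin (n + 1) → ℂ) i.succ t = Fin.cons s (Function.update b i t) :=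
        fun t => (Fin.cons_update (α := fun _ => ℂ) s b i t).symm
      simp only [h2] at h1
      exact h1
    have hinf := open_infinite (hDo 0) (hDn 0)
    have : Infinite (D 0) := hinf.to_subtype
    let e : Fin (2 * N + 1) → ℂ := fun j => (Infinite.natEmbedding (D 0) (j : ℕ) : ℂ)
    have heD : ∀ j, e j ∈ D 0 := fun j => (Infinite.natEmbedding (D 0) (j : ℕ)).2
    have heinj : Function.Injective e := by
      intro i j hij
      apply Fin.ext
      exact (Infinite.natEmbedding (D 0)).injective (Subtype.ext hij)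
    choose P₁ Q₁ hQ₁ hPQ₁ using fun j => hslice (e j) (heD j)
    set Q' : MvPolynomial (Fin n) ℂ := ∏ j, Q₁ j with hQ'
    have hQ'0 : Q' ≠ 0 := Finset.prod_ne_zero_iff.2 fun j _ => hQ₁ j
    let P' : Fin (2 * N + 1) → MvPolynomial (Fin n) ℂ := fun j => P₁ j * ∏ k ∈ Finset.univ.erase j, Q₁ k
    have hP' : ∀ j, ∀ b : Fin n → ℂ, (∀ i, b i ∈ D i.succ) →
        MvPolynomial.eval b Q' * h (Fin.cons (e j) b) = MvPolynomial.eval b (P' j) := by
      intro j b hb
      have h1 : Q' = Q₁ j * ∏ k ∈ Finset.univ.erase j, Q₁ k := (Finset.mul_prod_erase _ _ (Finset.mem_univ j)).symm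
      simp only [P', map_mul]
      rw [h1, map_mul, ← hPQ₁ j b hb]
      ring
    -- the kernel vector
    let A : Matrix (Fin (2 * N + 1)) (Fin (N + 1) ⊕ Fin (N + 1)) (MvPolynomial (Fin n) ℂ) :=
      Matrix.of fun j => Sum.elim (fun i => MvPolynomial.C (e j ^ (i : ℕ)) * P' j)
        (fun i => -(MvPolynomial.C (e j ^ (i : ℕ)) * Q'))
    obtain ⟨v, hv0, hv⟩ := rect_ker (by simp; omega) A
    obtain ⟨o, ho⟩ : ∃ o, v o ≠ 0 := by
      by_contra hcon
      push Not at hcon
      exact hv0 (funext hcon)
    set E : MvPolynomial (Fin n) ℂ := Q' * v o with hE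
    have hE0 : E ≠ 0 := mul_ne_zero hQ'0 ho
    -- the polynomials for fixed `b`
    let qb : (Fin n → ℂ) → ℂ[X] := fun b => ∑ i : Fin (N + 1), C (MvPolynomial.eval b (v (Sum.inl i))) * X ^ (i : ℕ)
    let pb : (Fin n → ℂ) → ℂ[X] := fun b => ∑ i : Fin (N + 1), C (MvPolynomial.eval b (v (Sum.inr i))) * X ^ (i : ℕ)
    have hdeg : ∀ (c : Fin (N + 1) → ℂ), (∑ i : Fin (N + 1), C (c i) * X ^ (i : ℕ)).natDegree ≤ N := by
      intro c
      refine natDegree_sum_le_of_forall_le _ _ fun i _ => (natDegree_C_mul_X_pow_le _ _).trans ?_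
      have := i.2
      omega
    have hcoef : ∀ (c : Fin (N + 1) → ℂ) (i : Fin (N + 1)),
        (∑ i : Fin (N + 1), C (c i) * X ^ (i : ℕ)).coeff i = c i := by
      intro c i
      rw [finsetSum_coeff, Finset.sum_eq_single i]
      · simp
      · intro j _ hj
        rw [coeff_C_mul, coeff_X_pow, if_neg, mul_zero]
        intro h
        exact hj (Fin.ext h.symm)
      · intro h
        exact absurd (Finset.mem_univ _) h
    have hmain : ∀ b : Fin n → ℂ, (∀ i, b i ∈ D i.succ) → MvPolynomial.eval b E ≠ 0 →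
        qb b ≠ 0 ∧ ∀ s ∈ D 0, (qb b).eval s * h (Fin.cons s b) = (pb b).eval s := by
      intro b hb hEb
      rw [hE, map_mul, mul_ne_zero_iff] at hEb
      obtain ⟨hcont, p, q, hq0, hpN, hqN, hpq⟩ := hyp 0 (Fin.cons (e 0) b) (fun j => Fin.cases (heD 0) hb j)
      have hup : ∀ s, Function.update (Fin.cons (e 0) b : Fin (n + 1) → ℂ) 0 s = Fin.cons s b :=
        fun s => Fin.update_cons_zero (α := fun _ => ℂ) (e 0) b s
      simp only [hup] at hcont hpq
      have hj : ∀ j, (qb b).eval (e j) * h (Fin.cons (e j) b) = (pb b).eval (e j) := by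
        intro j
        have h1 := congrArg (MvPolynomial.eval b) (congrFun hv j)
        rw [Matrix.mulVec, dotProduct, Fintype.sum_sum_type] at h1
        simp only [A, Matrix.of_apply, Sum.elim_inl, Sum.elim_inr, map_add, map_sum, map_mul, map_neg,
          MvPolynomial.eval_C, Pi.zero_apply, map_zero, ← hP' j b hb] at h1
        have h2 : MvPolynomial.eval b Q' * ((qb b).eval (e j) * h (Fin.cons (e j) b) - (pb b).eval (e j)) = 0 := by
          rw [← h1]
          simp only [qb, pb, eval_finsetSum, eval_mul, eval_C, eval_pow, eval_X, mul_sub, Finset.sum_mul,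
            Finset.mul_sum, ← Finset.sum_sub_distrib, ← Finset.sum_add_distrib]
          exact Finset.sum_congr rfl fun i _ => by ring
        exact sub_eq_zero.1 ((mul_eq_zero.1 h2).resolve_left hEb.1)
      have hΔ : qb b * p - pb b * q = 0 := by
        refine eq_zero_of_degree_lt_of_eval_index_eq_zero (v := e) (s := Finset.univ) heinj.injOn ?_ ?_
        · rw [Finset.card_univ, Fintype.card_fin]
          have h1 : (qb b * p - pb b * q).natDegree ≤ 2 * N := by
            refine (natDegree_sub_le _ _).trans (max_le ?_ ?_)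
            · have : (qb b).natDegree ≤ N := hdeg fun i => MvPolynomial.eval b (v (Sum.inl i))
              refine natDegree_mul_le.trans ?_
              omega
            · have : (pb b).natDegree ≤ N := hdeg fun i => MvPolynomial.eval b (v (Sum.inr i))
              refine natDegree_mul_le.trans ?_
              omega
          refine lt_of_le_of_lt degree_le_natDegree ?_
          exact_mod_cast Nat.lt_succ_of_le h1
        · intro j _
          rw [eval_sub, eval_mul, eval_mul, ← hj j, ← hpq (e j) (heD j)]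
          ring
      have hqb : qb b ≠ 0 := by
        intro h0
        rw [h0, zero_mul, zero_sub, neg_eq_zero, mul_eq_zero, or_iff_left hq0] at hΔ
        apply hEb.2
        rcases o with i | i
        · rw [← hcoef (fun i => MvPolynomial.eval b (v (Sum.inl i))) i]
          change (qb b).coeff i = 0
          rw [h0, coeff_zero]
        · rw [← hcoef (fun i => MvPolynomial.eval b (v (Sum.inr i))) i]
          change (pb b).coeff i = 0
          rw [hΔ, coeff_zero]
      refine ⟨hqb, fun s hs => sub_eq_zero.1 ?_⟩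
      refine zero_of_finite (hDo 0) (fun s => (qb b).eval s * h (Fin.cons s b) - (pb b).eval s) ?_ (q.rootSet ℂ)
        (rootSet_finite q ℂ) ?_ s hs
      · exact ((qb b).continuous.continuousOn.mul hcont).sub (pb b).continuous.continuousOn
      · intro s hs hsq
        have hqs : q.eval s ≠ 0 := by
          intro h0
          apply hsq
          rw [mem_rootSet]
          exact ⟨hq0, by simpa using h0⟩
        have h1 : (qb b).eval s * p.eval s = (pb b).eval s * q.eval s := by
          have h2 := congrArg (eval s) hΔ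
          rw [eval_sub, eval_mul, eval_mul, eval_zero, sub_eq_zero] at h2
          exact h2
        rw [← hpq s hs] at h1
        have h2 : q.eval s * ((qb b).eval s * h (Fin.cons s b) - (pb b).eval s) = 0 := by linear_combination h1
        exact (mul_eq_zero.1 h2).resolve_left hqs
    -- the total polynomials
    have hren : ∀ (s : ℂ) (b : Fin n → ℂ) (r : MvPolynomial (Fin n) ℂ),
        MvPolynomial.eval (Fin.cons s b : Fin (n + 1) → ℂ) (MvPolynomial.rename Fin.succ r) =
          MvPolynomial.eval b r := by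
      intro s b r
      rw [MvPolynomial.eval_rename]
      rfl
    let tot : (Fin (N + 1) → MvPolynomial (Fin n) ℂ) → MvPolynomial (Fin (n + 1)) ℂ := fun c =>
      ∑ i : Fin (N + 1), MvPolynomial.rename Fin.succ (E * c i) * MvPolynomial.X 0 ^ (i : ℕ)
    have htot : ∀ (c : Fin (N + 1) → MvPolynomial (Fin n) ℂ) (s : ℂ) (b : Fin n → ℂ),
        MvPolynomial.eval (Fin.cons s b : Fin (n + 1) → ℂ) (tot c) = MvPolynomial.eval b E *
          (∑ i : Fin (N + 1), C (MvPolynomial.eval b (c i)) * X ^ (i : ℕ) : ℂ[X]).eval s := by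
      intro c s b
      simp only [tot, map_sum, map_mul, hren, map_pow, MvPolynomial.eval_X, Fin.cons_zero, eval_finsetSum, eval_mul,
        eval_C, eval_pow, eval_X, Finset.mul_sum]
      exact Finset.sum_congr rfl fun i _ => by ring
    refine ⟨tot fun i => v (Sum.inr i), tot fun i => v (Sum.inl i), ?_, ?_⟩
    · intro h0
      obtain ⟨b, hb, hEb⟩ : ∃ b : Fin n → ℂ, (∀ i, b i ∈ D i.succ) ∧ MvPolynomial.eval b E ≠ 0 := by
        by_contra hcon
        push Not at hcon
        apply hE0
        refine MvPolynomial.funext_set (fun i => D i.succ) (fun i => open_infinite (hDo _) (hDn _)) ?_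
        intro b hb
        rw [map_zero]
        exact hcon b fun i => hb i (Set.mem_univ i)
      obtain ⟨hqb, _⟩ := hmain b hb hEb
      apply hqb
      refine eq_of_infinite_eval_eq _ _ (hinf.mono fun s hs => ?_)
      rw [Set.mem_setOf_eq, eval_zero]
      have h1 := htot (fun i => v (Sum.inl i)) s b
      rw [h0, map_zero] at h1
      exact (mul_eq_zero.1 h1.symm).resolve_left hEb
    · intro z hz
      have hzc : (Fin.cons (z 0) (fun i => z i.succ) : Fin (n + 1) → ℂ) = z := Fin.cons_self_tail (α := fun _ => ℂ) z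
      rw [← hzc, htot, htot]
      by_cases hEb : MvPolynomial.eval (fun i => z i.succ) E = 0
      · rw [hEb, zero_mul, zero_mul, zero_mul]
      · have h1 := (hmain (fun i => z i.succ) (fun i => hz _) hEb).2 (z 0) (hz 0)
        rw [mul_assoc]
        congr 1

end Pool.Agent.X255.NP
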