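import Pool.Agent.X255.NP.Chart
import Pool.Agent.X255.NP.RootA

/-!
# Relations at the tuples of the roots of integral polynomials
-/

set_option autoImplicit false
set_option linter.unusedSectionVars false

open Polynomial Filter Topology NumberField

namespace Pool.Agent.X255.NP

open Pool.Agent.X255.GB
open Pool.Agent.Y890.MV
open Pool.Agent.Y124 (Cov)

variable {g : ℕ} {H J : Type} [Fintype H] [DecidableEq H] [Fintype J] [DecidableEq J]

/-- no further coordinates -/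
def noY {X : Type} : Empty → (X → ℂ) → ℂ := fun e => e.elim

/-- every relation between the entries of `P z` of degree at most `k` in each entry, with coefficients
`∑ b, ξ b * c b`, `b < k`, `c b` integers of size at most `T ^ k` of a number field of degree at most `k`, is the value
at `z` of a functional relation over `ℂ[z]`, and holds on the orbit of `P z` under the Zariski closure of the
monodromy -/
def Gen (U : Set (Fin g → ℂ)) (P : (Fin g → ℂ) → Matrix H J ℂ) (ξ : ℕ → ℂ) (k : ℕ) (T : ℝ) (z : Fin g → ℂ) : Prop :=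
  ∀ (F : Type) [Field F] [NumberField F], Module.finrank ℚ F ≤ k → ∀ (io : F →+* ℂ)
    (c : (H × J → Fin (k + 1)) → Fin k → 𝓞 F), (∀ l b (φ : F →+* ℂ), ‖φ (c l b : F)‖ ≤ T ^ k) →
    relVal (fun l => ∑ b : Fin k, ξ b * io (c l b : F)) (P z) = 0 →
    (∃ G : (H × J → Fin (k + 1)) → MvPolynomial (Fin g) ℂ,
      (∀ l, MvPolynomial.eval z (G l) = ∑ b : Fin k, ξ b * io (c l b : F)) ∧
      ∀ x ∈ U, relVal (fun l => MvPolynomial.eval x (G l)) (P x) = 0) ∧
    ∀ γ ∈ AlgMonodromy U noY P, relVal (fun l => ∑ b : Fin k, ξ b * io (c l b : F)) (γ * P z) = 0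

/-- the `z j` are the roots of the integral polynomial with the coefficients `a` -/
def IsRoots (a : Fin (g + 1) → ℤ) (z : Fin g → ℂ) : Prop :=
  a (Fin.last g) ≠ 0 ∧ pol a = C (a (Fin.last g) : ℂ) * ∏ j, (X - C (z j))

/-- the integral polynomials of height at most `T` whose roots, in some order, form a point `z` of `U`, of norm at most
`k`, at distance at least `1 / k` from the complement of `U`, with differences of the roots at least `1 / k`, which is
not generic -/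
def ExcAlg (U : Set (Fin g → ℂ)) (P : (Fin g → ℂ) → Matrix H J ℂ) (ξ : ℕ → ℂ) (k : ℕ) (T : ℝ) :
    Set (Fin (g + 1) → ℤ) :=
  {a | (∀ i, |(a i : ℝ)| ≤ T) ∧ ∃ z ∈ InnerM U k, (∀ i j, i ≠ j → (k : ℝ)⁻¹ ≤ ‖z i - z j‖) ∧ IsRoots a z ∧
    ¬ Gen U P ξ k T z}

theorem IsRoots.root {a : Fin (g + 1) → ℤ} {z : Fin g → ℂ} (h : IsRoots a z) (j : Fin g) : (pol a).eval (z j) = 0 := by
  rw [h.2, eval_mul, eval_prod, Finset.prod_eq_zero (Finset.mem_univ j) (by simp), mul_zero]

theorem pol_coeff (a : Fin (g + 1) → ℤ) (i : Fin (g + 1)) : (pol a).coeff i = (a i : ℂ) := by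
  rw [pol, finsetSum_coeff, Finset.sum_eq_single i]
  · simp
  · intro j _ hj
    rw [coeff_C_mul, coeff_X_pow, if_neg, mul_zero]
    intro h
    exact hj (Fin.ext h.symm)
  · intro h
    exact absurd (Finset.mem_univ _) h

/-- the quotients of the coefficients by the leading coefficient -/
def quo (a : Fin (g + 1) → ℤ) : Fin g → ℚ := fun i => (a i.castSucc : ℚ) / (a (Fin.last g) : ℚ)

theorem IsRoots.quo_eq {a : Fin (g + 1) → ℤ} {z : Fin g → ℂ} (h : IsRoots a z) :
    (fun i => algebraMap ℚ ℂ (quo a i)) = co z := by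
  funext i
  have h1 := pol_coeff a i.castSucc
  rw [h.2, coeff_C_mul] at h1
  have hl : ((a (Fin.last g) : ℤ) : ℂ) ≠ 0 := by exact_mod_cast h.1
  have h2 : co z i = (∏ j, (X - C (z j))).coeff ((i.castSucc : Fin (g + 1)) : ℕ) := rfl
  rw [h2, quo, map_div₀, div_eq_iff (by simpa using hl)]
  simp only [eq_intCast, map_intCast]
  rw [← h1]
  ring

theorem HtLe_int {T : ℝ} (p q : ℤ) (hq : q ≠ 0) (hp : |(p : ℝ)| ≤ T) (hq' : |(q : ℝ)| ≤ T) :
    Y120.HtLe ℚ T ((p : ℚ) / (q : ℚ)) := by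
  refine ⟨(p : 𝓞 ℚ), (q : 𝓞 ℚ), ?_, ?_, ?_, ?_⟩
  · exact_mod_cast hq
  · have h1 : (((p : 𝓞 ℚ)) : ℚ) = (p : ℚ) := by simp
    rw [h1, house_intCast]
    exact_mod_cast hp
  · have h1 : (((q : 𝓞 ℚ)) : ℚ) = (q : ℚ) := by simp
    rw [h1, house_intCast]
    exact_mod_cast hq'
  · simp

/-- transfer of functional relations from a chart -/
theorem IsChart.transfer {U W N : Set (Fin g → ℂ)} {ζ : (Fin g → ℂ) → Fin g → ℂ} (hch : IsChart U W N ζ)
    (hU : IsPreconnected U) {P : (Fin g → ℂ) → Matrix H J ℂ} (hP : ∀ a b, AnalyticOnNhd ℂ (fun x => P x a b) U)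
    {k : ℕ} (G : (H × J → Fin (k + 1)) → MvPolynomial (Fin g ⊕ Fin g) ℂ)
    (hG : ∀ a ∈ W, ∑ l, MvPolynomial.eval (pt (fun j a => ζ a j) a) (G l) *
      ∏ v : H × J, P (ζ a) v.1 v.2 ^ (l v : ℕ) = 0) :
    ∃ G' : (H × J → Fin (k + 1)) → MvPolynomial (Fin g) ℂ,
      (∀ z ∈ N, ∀ l, MvPolynomial.eval z (G' l) = MvPolynomial.eval (pt (fun j a => ζ a j) (co z)) (G l)) ∧
      ∀ x ∈ U, relVal (fun l => MvPolynomial.eval x (G' l)) (P x) = 0 := by
  let G' : (H × J → Fin (k + 1)) → MvPolynomial (Fin g) ℂ := fun l =>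
    MvPolynomial.aeval (Sum.elim (fun j => MvPolynomial.X j) (coP (g := g))) (G l)
  have hG' : ∀ z ∈ N, ∀ l, MvPolynomial.eval z (G' l) = MvPolynomial.eval (pt (fun j a => ζ a j) (co z)) (G l) := by
    intro z hz l
    have h1 : (MvPolynomial.eval z).comp ((MvPolynomial.aeval (Sum.elim (fun j => MvPolynomial.X j) (coP (g := g))) :
        MvPolynomial (Fin g ⊕ Fin g) ℂ →ₐ[ℂ] MvPolynomial (Fin g) ℂ) : _ →+* _) =
        MvPolynomial.eval (pt (fun j a => ζ a j) (co z)) := by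
      refine MvPolynomial.ringHom_ext (fun r => ?_) fun i => ?_
      · simp
      · rcases i with j | i
        · simp only [RingHom.comp_apply, RingHom.coe_coe, MvPolynomial.aeval_X, Sum.elim_inl, MvPolynomial.eval_X, pt,
            (hch.inv' z hz).2.1]
        · simp only [RingHom.comp_apply, RingHom.coe_coe, MvPolynomial.aeval_X, Sum.elim_inr, MvPolynomial.eval_X, pt,
            coP_eval]
    exact RingHom.congr_fun h1 (G l)
  refine ⟨G', hG', ?_⟩
  have han : AnalyticOnNhd ℂ (fun x => relVal (fun l => MvPolynomial.eval x (G' l)) (P x)) U := by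
    unfold relVal
    refine Finset.analyticOnNhd_fun_sum _ fun l _ => ?_
    refine (an_evalX (G' l) U).mul ?_
    refine Finset.analyticOnNhd_fun_prod _ fun v _ => ?_
    exact (hP v.1 v.2).pow _
  obtain ⟨a0, ha0⟩ := hch.nW
  have hz0 := (hch.inv a0 ha0).1
  refine han.eqOn_zero_of_preconnected_of_eventuallyEq_zero hU (hch.sN hz0) ?_
  filter_upwards [hch.oN.mem_nhds hz0] with z hz
  have h1 := hG (co z) (hch.inv' z hz).1
  rw [(hch.inv' z hz).2.1] at h1
  rw [relVal]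
  simp only [hG' z hz]
  exact h1

/-- exceptional polynomials give exceptional points of charts -/
theorem IsChart.exc {U W N : Set (Fin g → ℂ)} {ζ : (Fin g → ℂ) → Fin g → ℂ} (hch : IsChart U W N ζ)
    (hU : IsPreconnected U) {P : (Fin g → ℂ) → Matrix H J ℂ} (hP : ∀ a b, AnalyticOnNhd ℂ (fun x => P x a b) U)
    (Kz : Set (Fin g → ℂ)) (hKN : Kz ⊆ N) (ξ : ℕ → ℂ) (k : ℕ) {T : ℝ} (hT : (g : ℝ) + 2 ≤ T) (hg : 0 < g)
    {a : Fin (g + 1) → ℤ} (ha : ∀ i, |(a i : ℝ)| ≤ T) {z : Fin g → ℂ} (hz : z ∈ Kz) (hr : IsRoots a z)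
    (hgen : ¬ Gen U P ξ k T z) :
    quo a ∈ ExcN k W (fun j a => ζ a j) (fun (v : H × J) a => P (ζ a) v.1 v.2) (co '' Kz) (k * g ^ g)
      (fun b : Fin k => ξ b) ((k : ℝ) + 2) T := by
  have hT1 : 1 ≤ T := by
    have : (0 : ℝ) ≤ g := Nat.cast_nonneg _
    linarith
  have hTp : 0 < T := by linarith
  have hzN : z ∈ N := hKN hz
  have hζz : ζ (co z) = z := (hch.inv' z hzN).2.1
  unfold Gen at hgen
  push Not at hgen
  obtain ⟨F, _, _, hF, io, c, hc1, hc2, hc3⟩ := hgen
  obtain ⟨E, hE, hEF, hEint⟩ := image_field F io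
  obtain ⟨F', hF', hEF', hzF', hfin⟩ := roots_field a hr.1 z hr.root E
  have hTk : T ^ k ≤ T ^ ((k : ℝ) + 2) := by
    rw [← Real.rpow_natCast]
    exact Real.rpow_le_rpow_of_exponent_le hT1 (by linarith)
  have hT2 : T ^ 2 ≤ T ^ ((k : ℝ) + 2) := by
    rw [← Real.rpow_natCast]
    refine Real.rpow_le_rpow_of_exponent_le hT1 ?_
    have : (0 : ℝ) ≤ k := Nat.cast_nonneg _
    push_cast
    linarith
  have hTT : T ≤ T ^ ((k : ℝ) + 2) := by
    refine le_trans ?_ hT2
    nlinarith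
  refine ⟨fun i => HtLe_int _ _ hr.1 (ha _) (ha _), ?_, F', hF', ?_, ?_, ?_⟩
  · rw [hr.quo_eq]
    exact ⟨z, hz, rfl⟩
  · refine hfin.trans ?_
    rw [Fintype.card_fin, hEF]
    exact Nat.mul_le_mul_right _ hF
  · intro j
    rw [hr.quo_eq]
    change HF F' (T ^ ((k : ℝ) + 2)) (ζ (co z) j)
    rw [hζz]
    have hlC : ((a (Fin.last g) : ℤ) : ℂ) ≠ 0 := by exact_mod_cast hr.1
    refine ⟨(a (Fin.last g) : ℂ) * z j, (a (Fin.last g) : ℂ), ?_, ?_, hlC, ?_⟩
    · refine (root_AE a T hT1 ha hr.1 (z j) (hr.root j) hg F' (hzF' j)).mono ?_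
      refine le_trans ?_ hT2
      nlinarith
    · exact AE.intCast _ ((ha _).trans hTT)
    · field_simp
  · refine ⟨fun l b => io (c l b : F), fun l b => ?_, ?_, ?_⟩
    · exact ((hEint (c l b) (T ^ k) (hc1 l b)).le hEF').mono hTk
    · rw [hr.quo_eq]
      simp only [hζz]
      exact hc2
    · rintro ⟨G, hG1, hG2⟩
      rw [hr.quo_eq] at hG1
      obtain ⟨G', hG'1, hG'2⟩ := hch.transfer hU hP G hG2
      have hval : ∀ l, MvPolynomial.eval z (G' l) = ∑ b : Fin k, ξ b * io (c l b : F) := fun l => by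
        rw [hG'1 z hzN, hG1]
      obtain ⟨γ, hγ, hne⟩ := hc3 ⟨G', hval, hG'2⟩
      apply hne
      have hev : ∀ (x : Fin g → ℂ) l, MvPolynomial.eval (pt (noY (X := Fin g)) x)
          (MvPolynomial.rename (Sum.inr : Fin g → Empty ⊕ Fin g) (G' l)) = MvPolynomial.eval x (G' l) := by
        intro x l
        rw [MvPolynomial.eval_rename]
        rfl
      have h1 := rel_alg (y := noY (X := Fin g)) hU (fun j => j.elim) hP
        (fun l => MvPolynomial.rename (Sum.inr : Fin g → Empty ⊕ Fin g) (G' l)) (fun x hx => by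
          simp only [hev]
          exact hG'2 x hx) γ hγ z (hch.sN hzN)
      simp only [hev, hval] at h1
      exact h1

end Pool.Agent.X255.NP
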